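import Mathlib

/-!
# Saturated ideals: atoms above the continuum, weakly inaccessible cardinals below
-/

set_option autoImplicit false
open Cardinal Set Order

universe u

namespace Pool.Agent.H650R2.Bf

/-- The well-ordered set of type `ω₁`. -/
abbrev Om : Type := (Cardinal.aleph 1).ord.ToType

theorem mk_Om : #Om = ℵ₁ := by simp [Om]

theorem Iio_Om_countable (i : Om) : (Iio i).Countable := by
  have h : #(Iio i) < ℵ₁ := by
    have := Cardinal.mk_Iio_lt i (by simp)
    simpa using this
  rw [← le_aleph0_iff_set_countable]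
  exact Order.lt_succ_iff.1 (by rw [succ_aleph0]; exact h)

variable {S : Type u}

/-- A `σ`-ideal containing the singletons such that among `ω₁` pairwise disjoint sets one is in
the ideal. -/
structure SatIdeal (I : Set S → Prop) : Prop where
  mono : ∀ A B : Set S, I B → A ⊆ B → I A
  sig : ∀ A : ℕ → Set S, (∀ n, I (A n)) → I (⋃ n, A n)
  single : ∀ s, I {s}
  sat : ∀ A : Om → Set S, Pairwise (fun i j => Disjoint (A i) (A j)) → ∃ i, I (A i)

/-- Closure under unions of fewer than `κ` members. -/
def Comp (I : Set S → Prop) (κ : Cardinal.{u}) : Prop :=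
  ∀ G : Set (Set S), #G < κ → (∀ A ∈ G, I A) → I (⋃₀ G)

theorem Comp.iUnion {I : Set S → Prop} {κ : Cardinal.{u}} (h : Comp I κ) {ι : Type u}
    (A : ι → Set S) (hι : #ι < κ) (hA : ∀ i, I (A i)) : I (⋃ i, A i) := by
  rw [← sUnion_range]
  exact h _ (mk_range_le.trans_lt hι) (by rintro _ ⟨i, rfl⟩; exact hA i)

theorem Comp.iUnion_lift {I : Set S → Prop} {κ : Cardinal.{u}} (h : Comp I κ) {ι : Type}
    (A : ι → Set S) (hι : lift.{u} #ι < κ) (hA : ∀ i, I (A i)) : I (⋃ i, A i) := by
  have h1 := h.iUnion (fun i : ULift.{u} ι => A i.down) (by simpa using hι) fun i => hA _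
  refine (congrArg I ?_).mp h1
  ext x
  simp only [mem_iUnion]
  exact ⟨fun ⟨i, hi⟩ => ⟨i.down, hi⟩, fun ⟨i, hi⟩ => ⟨⟨i⟩, hi⟩⟩

/-- Above the continuum there is an atom. -/
theorem exists_atom {I : Set S → Prop} (hI : SatIdeal I) (hc : Comp I (succ 𝔠))
    (hne : ¬ I univ) : ∃ A, ¬ I A ∧ ∀ T ⊆ A, I T ∨ I (A \ T) := by
  classical
  by_contra hcon
  push Not at hcon
  have hsp : ∀ B : Set S, ∃ T : Set S, T ⊆ B ∧ (¬ I B → ¬ I T ∧ ¬ I (B \ T)) ∧ (I B → T = ∅) := by
    intro B
    by_cases hB : I B
    · exact ⟨∅, empty_subset _, fun h => absurd hB h, fun _ => rfl⟩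
    · obtain ⟨T, hT, h1, h2⟩ := hcon B hB
      exact ⟨T, hT, fun _ => ⟨h1, h2⟩, fun h => absurd h hB⟩
  choose sp sp1 sp2 sp3 using hsp
  let H : S → Set S → Set S := fun s B => if s ∈ sp B then sp B else B \ sp B
  let T : S → Om → Set S := fun s => WellFounded.fix (wellFounded_lt (α := Om))
    (fun a rec => ⋂ b : Iio a, H s (rec b b.2))
  have hT : ∀ s a, T s a = ⋂ b : Iio a, H s (T s b) := fun s a =>
    WellFounded.fix_eq (wellFounded_lt (α := Om)) _ _
  have hHsub : ∀ s B, H s B ⊆ B := by
    intro s B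
    simp only [H]
    split_ifs
    · exact sp1 B
    · exact sdiff_subset
  have hHmem : ∀ s B, s ∈ B → s ∈ H s B := by
    intro s B hs
    simp only [H]
    split_ifs with h
    · exact h
    · exact ⟨hs, h⟩
  have hmem : ∀ s a, s ∈ T s a := by
    intro s a
    induction a using WellFoundedLT.induction with
    | ind a ih =>
      rw [hT]
      exact mem_iInter.2 fun b => hHmem _ _ (ih b b.2)
  have hsub : ∀ s a b, a < b → T s b ⊆ H s (T s a) := by
    intro s a b hab x hx
    rw [hT s b] at hx
    exact mem_iInter.1 hx ⟨a, hab⟩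
  have hex : ∀ s, ∃ a, I (T s a) := by
    intro s
    by_contra hc'
    push Not at hc'
    obtain ⟨i, hi⟩ := hI.sat (fun a => T s a \ H s (T s a)) (by
      have key : ∀ a b, a < b → Disjoint (T s a \ H s (T s a)) (T s b \ H s (T s b)) := by
        intro a b hab
        rw [Set.disjoint_left]
        rintro x ⟨_, hx⟩ ⟨hx', _⟩
        exact hx (hsub s a b hab hx')
      intro a b hab
      rcases lt_or_gt_of_ne hab with h | h
      · exact key a b h
      · exact (key b a h).symm)
    have h1 := sp2 _ (hc' i)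
    simp only [H] at hi
    split_ifs at hi with h
    · exact h1.2 hi
    · rw [sdiff_sdiff_right_self, inter_eq_right.2 (sp1 _)] at hi
      exact h1.1 hi
  choose al hal using hex
  let code : S → Σ a : Om, Set (Iio a) := fun s => ⟨al s, {b | s ∈ sp (T s b)}⟩
  have hcode : ∀ s s', code s = code s' → T s (al s) = T s' (al s') := by
    intro s s' h
    have h1 : al s = al s' := congrArg Sigma.fst h
    have h2 : ∀ b < al s, (s ∈ sp (T s b) ↔ s' ∈ sp (T s' b)) := by
      intro b hb
      have h3 : HEq (code s).2 (code s').2 := by rw [h]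
      have gen : ∀ (a a' : Om) (U : Set (Iio a)) (U' : Set (Iio a')) (_ : a = a')
          (_ : HEq U U') (hb : b < a) (hb' : b < a'), (⟨b, hb⟩ ∈ U ↔ ⟨b, hb'⟩ ∈ U') := by
        intro a a' U U' e h hb hb'
        subst e
        rw [eq_of_heq h]
      exact gen _ _ _ _ h1 h3 hb (h1 ▸ hb)
    have h4 : ∀ a ≤ al s, T s a = T s' a := by
      intro a
      induction a using WellFoundedLT.induction with
      | ind a ih =>
        intro ha
        rw [hT s a, hT s' a]
        refine iInter_congr fun b => ?_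
        have hb : (b : Om) < al s := lt_of_lt_of_le b.2 ha
        have e1 := ih b b.2 hb.le
        have e2 := h2 b hb
        rw [← e1] at e2 ⊢
        simp only [H]
        by_cases h5 : s ∈ sp (T s b)
        · rw [if_pos h5, if_pos (e2.1 h5)]
        · rw [if_neg h5, if_neg (fun h => h5 (e2.2 h))]
    rw [← h1]
    exact h4 _ le_rfl
  apply hne
  have hcard : lift.{u} #(Σ a : Om, Set (Iio a)) < succ 𝔠 := by
    rw [Order.lt_succ_iff, ← lift_continuum.{u, 0}, lift_le, mk_sigma]
    calc Cardinal.sum (fun a : Om => #(Set (Iio a))) ≤ Cardinal.sum (fun _ : Om => 𝔠) := by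
          refine Cardinal.sum_le_sum _ _ fun a => ?_
          rw [mk_set, ← two_power_aleph0]
          exact power_le_power_left two_ne_zero
            (le_aleph0_iff_set_countable.2 (Iio_Om_countable a))
      _ = ℵ₁ * 𝔠 := by rw [Cardinal.sum_const', mk_Om]
      _ ≤ 𝔠 * 𝔠 := mul_le_mul_left aleph_one_le_continuum _
      _ = 𝔠 := continuum_mul_self
  let F : (Σ a : Om, Set (Iio a)) → Set S := fun y =>
    if h : ∃ s, code s = y then T h.choose (al h.choose) else ∅
  have hF : ∀ y, I (F y) := by
    intro y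
    simp only [F]
    split_ifs with h
    · exact hal _
    · obtain ⟨i, hi⟩ := hI.sat (fun _ => ∅) (by intro i j _; exact disjoint_bot_left)
      exact hi
  have h1 := hc.iUnion_lift F hcard hF
  refine hI.mono _ _ h1 fun s _ => ?_
  rw [mem_iUnion]
  refine ⟨code s, ?_⟩
  have hex : ∃ s', code s' = code s := ⟨s, rfl⟩
  simp only [F]
  rw [dif_pos hex, hcode _ _ hex.choose_spec]
  exact hmem _ _

end Pool.Agent.H650R2.Bf
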