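import Pool.Agent.H650R2.BfRank

/-!
# Point-finite Borel-additive families
-/

set_option autoImplicit false
open Cardinal Set Order

universe u v

namespace Pool.Agent.H650R2.Bf

/-- The ordinal of an element of `Om`. -/
noncomputable def rho (i : Om) : Ordinal.{0} := (i.toOrd : Ordinal.{0})

theorem rho_lt (i : Om) : rho i < w1 := i.toOrd.2

theorem exists_rho {a : Ordinal.{0}} (h : a < w1) : ∃ i : Om, rho i = a :=
  ⟨Ordinal.ToType.mk ⟨a, h⟩, by simp [rho, Ordinal.ToType.toOrd]⟩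

variable {X : Type u} [MetricSpace X] {C : Ordinal.{0} → Set (Set X)}

/-- Point-finite indexed families. -/
def PF {ι : Type v} (Y : ι → Set X) : Prop := ∀ x, {i | x ∈ Y i}.Finite

/-- Borel-additive indexed families. -/
def BA {ι : Type v} (Y : ι → Set X) : Prop :=
  ∀ T : Set ι, @MeasurableSet X (borel X) (⋃ i ∈ T, Y i)

/-- The members of a small point-finite Borel-additive family have bounded class. -/
theorem bounded_members (hC : Hier C) {ι : Type v} {Y : ι → Set X} (hpf : PF Y) (hba : BA Y)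
    (e : ι → ℕ → Bool) (he : Function.Injective e) :
    ∃ δ, 1 ≤ δ ∧ δ < w1 ∧ ∀ i, Y i ∈ C δ := by
  classical
  let B : ℕ × Finset ℕ → Set X := fun q => ⋃ i ∈ {j : ι | ∀ k < q.1, (e j k = true ↔ k ∈ q.2)}, Y i
  have hB : ∀ q, ∃ α, 1 ≤ α ∧ α < w1 ∧ B q ∈ C α := fun q => hC.borel (hba _)
  choose al h1 h2 h3 using hB
  obtain ⟨b, hb, hb'⟩ := sup_lt_w1' al h2
  have hb1 : 1 ≤ b := (h1 (0, ∅)).trans (hb' _)
  have h4 : b + 1 < w1 := succ_lt_w1 hb
  have h5 : b + 1 + 1 < w1 := succ_lt_w1 h4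
  have l1 : b < b + 1 := Order.lt_add_one_iff.2 le_rfl
  have l2 : b + 1 < b + 1 + 1 := Order.lt_add_one_iff.2 le_rfl
  refine ⟨b + 1 + 1, hb1.trans (l1.trans l2).le, h5, fun i => ?_⟩
  have key : Y i = (⋃ m : ℕ, (B (m, (Finset.range m).filter fun k => e i k = true))ᶜ)ᶜ := by
    ext x
    simp only [mem_compl_iff, mem_iUnion, not_exists, not_not]
    constructor
    · intro hx m
      simp only [B, mem_iUnion, exists_prop]
      refine ⟨i, fun k hk => ?_, hx⟩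
      simp [hk]
    · intro hx
      by_contra hc
      have h6 : ∀ j ∈ {j | x ∈ Y j}, ∃ k, e j k ≠ e i k := by
        intro j hj
        by_contra h7
        push Not at h7
        have : j = i := he (funext h7)
        rw [this] at hj
        exact hc hj
      choose! kk hkk using h6
      obtain ⟨m, hm⟩ := ((hpf x).image kk).bddAbove
      have h7 := hx (m + 1)
      simp only [B, mem_iUnion, exists_prop] at h7
      obtain ⟨j, hj1, hj2⟩ := h7
      have h8 : kk j < m + 1 := Nat.lt_succ_of_le (hm (mem_image_of_mem _ hj2))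
      have h9 := hj1 (kk j) h8
      rw [Finset.mem_filter, Finset.mem_range] at h9
      apply hkk j hj2
      rw [Bool.eq_iff_iff]
      exact ⟨fun h => (h9.1 h).2, fun h => h9.2 ⟨h8, h⟩⟩
  rw [key]
  refine hC.compl (hb1.trans l1.le) l2 h5 ?_
  refine hC.iUnion (hb1.trans l1.le) h4 fun m => ?_
  exact hC.compl hb1 l1 h4 (hC.mono (h1 _) (hb' _) hb (h3 _))

/-- Bounded subfamilies. -/
def Bdd (C : Ordinal.{0} → Set (Set X)) {ι : Type v} (Y : ι → Set X) (T : Set ι) : Prop :=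
  ∃ α, 1 ≤ α ∧ α < w1 ∧ ∀ T' ⊆ T, (⋃ i ∈ T', Y i) ∈ C α

theorem bdd_saturated (hC : Hier C) {ι : Type v} {Y : ι → Set X} (hpf : PF Y) (hba : BA Y)
    (A : Om → Set ι) (hA : Pairwise fun i j => Disjoint (A i) (A j)) : ∃ i, Bdd C Y (A i) := by
  classical
  by_contra hcon
  push Not at hcon
  have h1 : ∀ i : Om, ∃ T ⊆ A i, (⋃ j ∈ T, Y j) ∉ C (rho i + 1) := by
    intro i
    by_contra hc
    push Not at hc
    exact hcon i ⟨rho i + 1, by simp, succ_lt_w1 (rho_lt i), hc⟩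
  choose T hT1 hT2 using h1
  have hpf' : PF (fun i => ⋃ j ∈ T i, Y j) := by
    intro x
    have h2 : ∀ i ∈ {i | x ∈ ⋃ j ∈ T i, Y j}, ∃ j, j ∈ T i ∧ x ∈ Y j := by
      intro i hi
      simpa using hi
    rcases isEmpty_or_nonempty ι with hemp | hne
    · convert Set.finite_empty (α := Om)
      rw [Set.eq_empty_iff_forall_notMem]
      intro i hi
      obtain ⟨j, -⟩ := h2 i hi
      exact hemp.elim j
    choose! g hg1 hg2 using h2
    refine Set.Finite.of_finite_image (f := g) ((hpf x).subset ?_) ?_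
    · rintro _ ⟨i, hi, rfl⟩
      exact hg2 i hi
    · intro i hi j hj hij
      by_contra hne
      exact Set.disjoint_left.1 (hA hne) (hT1 i (hg1 i hi)) (hij ▸ hT1 j (hg1 j hj))
  have hba' : BA (fun i => ⋃ j ∈ T i, Y j) := by
    intro K
    have h2 := hba (⋃ i ∈ K, T i)
    refine (congrArg _ ?_).mp h2
    ext x
    simp only [mem_iUnion, exists_prop]
    constructor
    · rintro ⟨j, ⟨i, hi, hj⟩, hx⟩
      exact ⟨i, hi, j, hj, hx⟩
    · rintro ⟨i, hi, j, hj, hx⟩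
      exact ⟨j, ⟨i, hi, hj⟩, hx⟩
  obtain ⟨e⟩ : Nonempty (Om ↪ (ℕ → Bool)) := by
    rw [← Cardinal.le_def, mk_Om]
    refine aleph_one_le_continuum.trans ?_
    simp
  obtain ⟨δ, hδ1, hδ2, hδ3⟩ := bounded_members hC hpf' hba' e e.injective
  obtain ⟨i, hi⟩ := exists_rho hδ2
  apply hT2 i
  rw [hi]
  exact hC.mono hδ1 (Order.le_succ δ) (succ_lt_w1 hδ2) (hδ3 i)

theorem satIdeal (hC : Hier C) {ι : Type v} {Y : ι → Set X} (hpf : PF Y) (hba : BA Y) :
    SatIdeal (Bdd C Y) := by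
  refine ⟨?_, ?_, ?_, bdd_saturated hC hpf hba⟩
  · rintro A B ⟨α, h1, h2, h3⟩ hAB
    exact ⟨α, h1, h2, fun T hT => h3 T (hT.trans hAB)⟩
  · intro A hA
    choose α h1 h2 h3 using hA
    obtain ⟨b, hb, hb'⟩ := sup_lt_w1 α h2
    have hb1 : 1 ≤ b := (h1 0).trans (hb' 0)
    refine ⟨b, hb1, hb, fun T hT => ?_⟩
    have h4 : (⋃ i ∈ T, Y i) = ⋃ n, ⋃ i ∈ T ∩ A n, Y i := by
      ext x
      simp only [mem_iUnion, exists_prop, mem_inter_iff]
      constructor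
      · rintro ⟨i, hi, hx⟩
        obtain ⟨n, hn⟩ := mem_iUnion.1 (hT hi)
        exact ⟨n, i, ⟨hi, hn⟩, hx⟩
      · rintro ⟨n, i, ⟨hi, -⟩, hx⟩
        exact ⟨i, hi, hx⟩
    rw [h4]
    exact hC.iUnion hb1 hb fun n => hC.mono (h1 n) (hb' n) hb (h3 n _ inter_subset_right)
  · intro s
    obtain ⟨α, h1, h2, h3⟩ := hC.borel (hba {s})
    refine ⟨α, h1, h2, fun T hT => ?_⟩
    rcases subset_singleton_iff_eq.1 hT with rfl | rfl
    · have : (⋃ i ∈ (∅ : Set ι), Y i) = ∅ := by simp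
      rw [this]
      exact hC.mono le_rfl h1 h2 (by rw [hC.one]; exact isOpen_empty)
    · exact h3

/-- No atoms if the ideal is `ω₂`-complete. -/
theorem no_atom (hC : Hier C) {ι : Type v} {Y : ι → Set X} (hpf : PF Y) (hba : BA Y)
    (hcomp : ∀ F : Om → Set ι, (∀ i, Bdd C Y (F i)) → Bdd C Y (⋃ i, F i)) {A : Set ι}
    (hA : ∀ T ⊆ A, Bdd C Y T ∨ Bdd C Y (A \ T)) : Bdd C Y A := by
  classical
  have hI := satIdeal hC hpf hba
  -- a common bound for the members of the ideal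
  obtain ⟨b0, hb1, hb2, hb3⟩ : ∃ b0, 1 ≤ b0 ∧ b0 < w1 ∧ ∀ T, Bdd C Y T → (⋃ i ∈ T, Y i) ∈ C b0 := by
    by_contra hc
    push Not at hc
    have h1 : ∀ i : Om, ∃ T, Bdd C Y T ∧ (⋃ j ∈ T, Y j) ∉ C (rho i + 1) := fun i =>
      hc (rho i + 1) (by simp) (succ_lt_w1 (rho_lt i))
    choose T hT1 hT2 using h1
    obtain ⟨a, ha1, ha2, ha3⟩ := hcomp T hT1
    obtain ⟨i, hi⟩ := exists_rho ha2
    apply hT2 i
    rw [hi]
    exact hC.mono ha1 (Order.le_succ a) (succ_lt_w1 ha2) (ha3 _ (subset_iUnion _ _))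
  by_contra hc
  have h1 : ∀ i : Om, ∃ T ⊆ A, (⋃ j ∈ T, Y j) ∉ C (max b0 (rho i + 1)) := by
    intro i
    by_contra hc'
    push Not at hc'
    exact hc ⟨max b0 (rho i + 1), hb1.trans (le_max_left _ _),
      max_lt hb2 (succ_lt_w1 (rho_lt i)), hc'⟩
  choose T hT1 hT2 using h1
  have h2 : ∀ i, Bdd C Y (A \ T i) := by
    intro i
    rcases hA (T i) (hT1 i) with h | h
    · exact absurd (hC.mono hb1 (le_max_left _ _) (max_lt hb2 (succ_lt_w1 (rho_lt i)))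
        (hb3 _ h)) (hT2 i)
    · exact h
  have hN := hcomp _ h2
  obtain ⟨g, hg1, hg2, hg3⟩ := hC.borel (hba (A \ ⋃ i, A \ T i))
  obtain ⟨i, hi⟩ := exists_rho hg2
  apply hT2 i
  rw [hi]
  have h3 : (⋃ j ∈ T i, Y j) = (⋃ j ∈ A \ ⋃ i, A \ T i, Y j) ∪
      ⋃ j ∈ T i ∩ ⋃ i, A \ T i, Y j := by
    ext x
    constructor
    · intro hx
      obtain ⟨j, hj, hx⟩ := mem_iUnion₂.1 hx
      by_cases h : j ∈ ⋃ i, A \ T i
      · exact Or.inr (mem_iUnion₂.2 ⟨j, ⟨hj, h⟩, hx⟩)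
      · exact Or.inl (mem_iUnion₂.2 ⟨j, ⟨hT1 i hj, h⟩, hx⟩)
    · rintro (hx | hx)
      · obtain ⟨j, ⟨h4, h5⟩, hx⟩ := mem_iUnion₂.1 hx
        refine mem_iUnion₂.2 ⟨j, ?_, hx⟩
        by_contra h6
        exact h5 (mem_iUnion.2 ⟨i, h4, h6⟩)
      · obtain ⟨j, ⟨h4, -⟩, hx⟩ := mem_iUnion₂.1 hx
        exact mem_iUnion₂.2 ⟨j, h4, hx⟩
  have hlt : max b0 (g + 1) < w1 := max_lt hb2 (succ_lt_w1 hg2)
  rw [h3]
  refine hC.union (hb1.trans (le_max_left _ _)) hlt ?_ ?_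
  · exact hC.mono hg1 ((Order.le_succ g).trans (le_max_right _ _)) hlt hg3
  · exact hC.mono hb1 (le_max_left _ _) hlt (hb3 _ (hI.mono _ _ hN inter_subset_right))

/-- The main dichotomy. -/
theorem dichotomy (hC : Hier C) {ι : Type u} {Y : ι → Set X} (hpf : PF Y) (hba : BA Y) :
    Bdd C Y Set.univ ∨ ∃ κ : Cardinal.{u}, ℵ₀ < κ ∧ κ ≤ 𝔠 ∧ κ ≤ #ι ∧ κ.IsRegular ∧
      (∀ μ, κ ≠ succ μ) ∧
      ∃ J : Set κ.ord.ToType → Prop, SatIdeal J ∧ Comp J κ ∧ ¬ J Set.univ := by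
  by_contra hcon
  push Not at hcon
  obtain ⟨hne, hcon⟩ := hcon
  have hI := satIdeal hC hpf hba
  obtain ⟨κ, h1, h0, h2, h3, h4, J, h5, h6, h7⟩ := exists_kappa hI hne
  have hlt : 𝔠 < κ := by
    by_contra hc
    exact h7 (hcon κ h1 (not_lt.1 hc) h0 h2 h3 J h5 h6)
  have hcomp : Comp (Bdd C Y) (succ 𝔠) := fun G hG => h4 G (hG.trans_le (succ_le_of_lt hlt))
  obtain ⟨A, hA1, hA2⟩ := exists_atom hI hcomp hne
  refine hA1 (no_atom hC hpf hba (fun F hF => h4.iUnion_lift F ?_ hF) hA2)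
  rw [mk_Om]
  simpa using aleph_one_le_continuum.trans_lt hlt

end Pool.Agent.H650R2.Bf
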