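import Pool.Agent.H650R2.BfUlam

/-!
# Borel classes
-/

set_option autoImplicit false
open Cardinal Set Order

universe u

namespace Pool.Agent.H650R2.Bf

/-- `ω₁` as an ordinal. -/
noncomputable abbrev w1 : Ordinal.{0} := (Cardinal.aleph 1).ord

theorem one_lt_w1 : (1 : Ordinal.{0}) < w1 := by
  have h : (1 : Ordinal.{0}) < Ordinal.omega0 := Ordinal.one_lt_omega0
  refine h.trans_le ?_
  rw [← Cardinal.ord_aleph0]
  exact Cardinal.ord_le_ord.2 (Cardinal.aleph0_le_aleph 1)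

theorem succ_lt_w1 {a : Ordinal.{0}} (h : a < w1) : a + 1 < w1 := by
  have := (Cardinal.isSuccLimit_ord (Cardinal.aleph0_le_aleph 1)).succ_lt h
  simpa using this

theorem sup_lt_w1 (f : ℕ → Ordinal.{0}) (h : ∀ n, f n < w1) : ∃ b, b < w1 ∧ ∀ n, f n ≤ b := by
  have hcof : (w1).cof = ℵ₁ := (Cardinal.isRegular_aleph_one).cof_ord
  refine ⟨⨆ n, f n, ?_, fun n => le_ciSup Ordinal.bddAbove_of_small n⟩
  refine Ordinal.iSup_lt_of_lt_cof ?_ h
  rw [hcof]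
  simp

theorem sup_lt_w1' {ι : Type} [Countable ι] (f : ι → Ordinal.{0}) (h : ∀ n, f n < w1) :
    ∃ b, b < w1 ∧ ∀ n, f n ≤ b := by
  rcases isEmpty_or_nonempty ι with h1 | h1
  · exact ⟨1, one_lt_w1, fun n => h1.elim n⟩
  · obtain ⟨g, hg⟩ := exists_surjective_nat ι
    obtain ⟨b, hb, h2⟩ := sup_lt_w1 (fun n => f (g n)) fun n => h _
    refine ⟨b, hb, fun n => ?_⟩
    obtain ⟨m, rfl⟩ := hg n
    exact h2 m

variable {X : Type u} [MetricSpace X]

/-- The hierarchy of additive Borel classes. -/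
structure Hier (C : Ordinal.{0} → Set (Set X)) : Prop where
  one : C 1 = {U : Set X | IsOpen U}
  gt : ∀ α : Ordinal.{0}, 1 < α → α < w1 →
    C α = {A : Set X | ∃ f : ℕ → Set X, A = (⋃ n, f n) ∧
      ∀ n, ∃ β : Ordinal.{0}, 1 ≤ β ∧ β < α ∧ (f n)ᶜ ∈ C β}

variable {C : Ordinal.{0} → Set (Set X)}

theorem Hier.compl (hC : Hier C) {α β : Ordinal.{0}} (h1 : 1 ≤ α) (h2 : α < β) (h3 : β < w1)
    {A : Set X} (hA : A ∈ C α) : Aᶜ ∈ C β := by
  rw [hC.gt β (h1.trans_lt h2) h3]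
  exact ⟨fun _ => Aᶜ, by rw [iUnion_const], fun _ => ⟨α, h1, h2, by rwa [compl_compl]⟩⟩

theorem Hier.mono (hC : Hier C) {α β : Ordinal.{0}} (h1 : 1 ≤ α) (h2 : α ≤ β) (h3 : β < w1)
    {A : Set X} (hA : A ∈ C α) : A ∈ C β := by
  rcases eq_or_lt_of_le h2 with h | h
  · rwa [← h]
  rcases eq_or_lt_of_le h1 with h' | h'
  · rw [← h', hC.one] at hA
    rw [hC.gt β (h1.trans_lt h) h3]
    obtain ⟨F, hF1, hF2, hF3, -⟩ := IsOpen.exists_iUnion_isClosed (U := A) hA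
    exact ⟨F, hF3.symm, fun n => ⟨1, le_rfl, h1.trans_lt h, by
      rw [hC.one]; exact (hF1 n).isOpen_compl⟩⟩
  · rw [hC.gt α h' (h.trans h3)] at hA
    obtain ⟨f, hf1, hf2⟩ := hA
    rw [hC.gt β (h1.trans_lt h) h3]
    refine ⟨f, hf1, fun n => ?_⟩
    obtain ⟨γ, hγ1, hγ2, hγ3⟩ := hf2 n
    exact ⟨γ, hγ1, hγ2.trans h, hγ3⟩

theorem Hier.iUnion (hC : Hier C) {α : Ordinal.{0}} (h1 : 1 ≤ α) (h3 : α < w1)
    {A : ℕ → Set X} (hA : ∀ n, A n ∈ C α) : (⋃ n, A n) ∈ C α := by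
  rcases eq_or_lt_of_le h1 with h' | h'
  · rw [← h', hC.one] at hA ⊢
    exact isOpen_iUnion hA
  · rw [hC.gt α h' h3] at hA ⊢
    choose f hf1 hf2 using hA
    refine ⟨fun k => f k.unpair.1 k.unpair.2, ?_, fun k => hf2 _ _⟩
    ext x
    simp only [mem_iUnion]
    constructor
    · rintro ⟨n, hn⟩
      rw [hf1 n] at hn
      obtain ⟨m, hm⟩ := mem_iUnion.1 hn
      exact ⟨Nat.pair n m, by simpa using hm⟩
    · rintro ⟨k, hk⟩
      refine ⟨k.unpair.1, ?_⟩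
      rw [hf1]
      exact mem_iUnion.2 ⟨_, hk⟩

theorem Hier.iUnion' (hC : Hier C) {α : Ordinal.{0}} (h1 : 1 ≤ α) (h3 : α < w1)
    {ι : Type} [Countable ι] [Nonempty ι] {A : ι → Set X} (hA : ∀ n, A n ∈ C α) :
    (⋃ n, A n) ∈ C α := by
  obtain ⟨g, hg⟩ := exists_surjective_nat ι
  rw [← hg.iUnion_comp]
  exact hC.iUnion h1 h3 fun n => hA _

theorem Hier.union (hC : Hier C) {α : Ordinal.{0}} (h1 : 1 ≤ α) (h3 : α < w1)
    {A B : Set X} (hA : A ∈ C α) (hB : B ∈ C α) : A ∪ B ∈ C α := by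
  have := hC.iUnion' h1 h3 (A := fun b : Bool => bif b then A else B) (by
    intro b; cases b
    · exact hB
    · exact hA)
  rw [show A ∪ B = ⋃ b : Bool, bif b then A else B by
    ext x; simp only [mem_union, mem_iUnion, Bool.exists_bool, cond_false, cond_true]; tauto]
  exact this

/-- Every Borel set has a countable class. -/
theorem Hier.borel (hC : Hier C) {A : Set X} (hA : @MeasurableSet X (borel X) A) :
    ∃ α, 1 ≤ α ∧ α < w1 ∧ A ∈ C α := by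
  have hA' : MeasurableSpace.GenerateMeasurable {s : Set X | IsOpen s} A := hA
  induction hA' with
  | basic U hU => exact ⟨1, le_rfl, one_lt_w1, by rw [hC.one]; exact hU⟩
  | empty => exact ⟨1, le_rfl, one_lt_w1, by rw [hC.one]; exact isOpen_empty⟩
  | compl t ht ih =>
    obtain ⟨α, h1, h2, h3⟩ := ih ht
    refine ⟨α + 1, h1.trans (by simp), succ_lt_w1 h2, hC.compl h1 ?_ (succ_lt_w1 h2) h3⟩
    exact Order.lt_add_one_iff.2 le_rfl
  | iUnion f hf ih =>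
    choose α h1 h2 h3 using fun n => ih n (hf n)
    obtain ⟨b, hb, hb'⟩ := sup_lt_w1 α h2
    exact ⟨b, (h1 0).trans (hb' 0), hb, hC.iUnion ((h1 0).trans (hb' 0)) hb fun n =>
      hC.mono (h1 n) (hb' n) hb (h3 n)⟩

end Pool.Agent.H650R2.Bf
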