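import Pool.Agent.H650R2.BfIdeal

/-!
# Ulam matrices and the additivity of a saturated ideal
-/

set_option autoImplicit false
open Cardinal Set Order

universe u

namespace Pool.Agent.H650R2.Bf

variable {S : Type u}

theorem mk_Iio_lt' {κ : Cardinal.{u}} (x : κ.ord.ToType) : #(Iio x) < κ := by
  have := Cardinal.mk_Iio_lt x (by simp)
  simpa using this

theorem mk_Iic_lt' {κ : Cardinal.{u}} (hκ : ℵ₀ ≤ κ) (x : κ.ord.ToType) : #(Iic x) < κ := by
  have h : Iic x = Iio x ∪ {x} := by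
    ext j; simp [le_iff_lt_or_eq, or_comm]
  rw [h]
  refine (mk_union_le _ _).trans_lt (add_lt_of_lt hκ (mk_Iio_lt' x) ?_)
  simpa using one_lt_aleph0.trans_le hκ

/-- The additivity of a saturated ideal is not a successor (Ulam). -/
theorem ulam {κ : Cardinal.{u}} (hκ : κ.IsRegular) (hκ0 : ℵ₀ < κ) {J : Set κ.ord.ToType → Prop}
    (hJ : SatIdeal J) (hC : Comp J κ) (hne : ¬ J univ) (μ : Cardinal.{u}) : κ ≠ succ μ := by
  classical
  intro hκμ
  have hμκ : μ < κ := by rw [hκμ]; exact Order.lt_succ μ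
  have hM : #(μ.ord.ToType) = μ := by simp
  have hemb : ∀ x : κ.ord.ToType, Nonempty (Iio x ↪ μ.ord.ToType) := by
    intro x
    rw [← Cardinal.le_def, hM]
    have := mk_Iio_lt' x
    exact Order.lt_succ_iff.1 (lt_of_lt_of_le this hκμ.le)
  let g : ∀ x : κ.ord.ToType, Iio x ↪ μ.ord.ToType := fun x => (hemb x).some
  let U : μ.ord.ToType → κ.ord.ToType → Set κ.ord.ToType :=
    fun a y => {x | ∃ h : y < x, g x ⟨y, h⟩ = a}
  have h1 : ∀ y, ∃ a, ¬ J (U a y) := by
    intro y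
    by_contra hc
    push Not at hc
    have h2 : J (⋃ a, U a y) := hC.iUnion _ (by rw [hM]; exact hμκ) hc
    have h3 : J (⋃ x : Iic y, {(x : κ.ord.ToType)}) :=
      hC.iUnion _ (mk_Iic_lt' hκ0.le y) fun x => hJ.single _
    apply hne
    refine hJ.mono _ _ (hJ.sig (fun n => if n = 0 then (⋃ a, U a y) else
      (⋃ x : Iic y, {(x : κ.ord.ToType)})) ?_) ?_
    · intro n
      split_ifs
      · exact h2
      · exact h3
    · intro x _
      rcases le_or_gt x y with h | h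
      · refine mem_iUnion.2 ⟨1, ?_⟩
        simp only [one_ne_zero, if_false]
        exact mem_iUnion.2 ⟨⟨x, h⟩, rfl⟩
      · refine mem_iUnion.2 ⟨0, ?_⟩
        simp only [if_true]
        exact mem_iUnion.2 ⟨g x ⟨y, h⟩, h, rfl⟩
  choose al hal using h1
  obtain ⟨a, ha⟩ := Cardinal.infinite_pigeonhole_card al κ (by simp) hκ0.le
    (by rw [hM]; exact hμκ.trans_le hκ.2)
  have h4 : Nonempty (Om ↪ (al ⁻¹' {a} : Set κ.ord.ToType)) := by
    rw [← Cardinal.lift_mk_le']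
    rw [mk_Om]
    have h5 : ℵ₁ ≤ κ := by
      rw [← succ_aleph0]; exact Order.succ_le_of_lt hκ0
    simpa using h5.trans ha
  obtain ⟨i⟩ := h4
  obtain ⟨j, hj⟩ := hJ.sat (fun j => U a (i j)) (by
    intro j j' hjj
    rw [Set.disjoint_left]
    rintro x ⟨h5, h6⟩ ⟨h7, h8⟩
    apply hjj
    have h9 := (g x).injective (h6.trans h8.symm)
    exact i.injective (Subtype.ext (Subtype.mk.inj h9)))
  have h5 : al (i j) = a := (i j).2
  exact hal (i j) (by rw [h5]; exact hj)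

/-- The additivity. -/
theorem exists_kappa {I : Set S → Prop} (hI : SatIdeal I) (hne : ¬ I univ) :
    ∃ κ : Cardinal.{u}, ℵ₀ < κ ∧ κ ≤ #S ∧ κ.IsRegular ∧ (∀ μ, κ ≠ succ μ) ∧ Comp I κ ∧
      ∃ J : Set κ.ord.ToType → Prop, SatIdeal J ∧ Comp J κ ∧ ¬ J univ := by
  classical
  let bad : Set Cardinal.{u} := {c | ∃ (ι : Type u) (A : ι → Set S), #ι = c ∧ (∀ i, I (A i)) ∧
    ¬ I (⋃ i, A i)}
  have hbadS : #S ∈ bad := by
    refine ⟨S, fun s => {s}, rfl, hI.single, ?_⟩
    have : (⋃ s : S, ({s} : Set S)) = Set.univ := by ext; simp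
    rw [this]; exact hne
  have hbad : bad.Nonempty := ⟨_, hbadS⟩
  have hle : sInf bad ≤ #S := csInf_le' hbadS
  obtain ⟨ι, A, hι, hA, hnA⟩ := csInf_mem hbad
  generalize hκ : sInf bad = κ at hι hle
  have hempty : I ∅ := by
    obtain ⟨i, hi⟩ := hI.sat (fun _ => ∅) (by intro i j _; exact disjoint_bot_left)
    exact hi
  have hC : Comp I κ := by
    intro G hG hGI
    by_contra hc
    have h1 : #G ∈ bad := ⟨G, fun A => A, rfl, fun A => hGI _ A.2, by
      rw [← sUnion_eq_iUnion]; exact hc⟩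
    exact absurd (csInf_le' h1) (not_le.2 (by rw [hκ]; exact hG))
  have hcnt : ∀ (ι' : Type u) (A' : ι' → Set S), #ι' ≤ ℵ₀ → (∀ i, I (A' i)) → I (⋃ i, A' i) := by
    intro ι' A' hι' hA'
    have : Countable ι' := mk_le_aleph0_iff.1 hι'
    rcases isEmpty_or_nonempty ι' with h | h
    · rw [iUnion_of_empty]; exact hempty
    · obtain ⟨f, hf⟩ := exists_surjective_nat ι'
      rw [← hf.iUnion_comp]
      exact hI.sig _ fun n => hA' _
  have hκ0 : ℵ₀ < κ := by
    by_contra hc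
    rw [not_lt] at hc
    exact hnA (hcnt ι A (hι.trans_le hc) hA)
  have hK : #(κ.ord.ToType) = κ := by simp
  obtain ⟨e⟩ := Cardinal.eq.1 (hK.trans hι.symm)
  let A' : κ.ord.ToType → Set S := fun x => A (e x)
  have hA' : ∀ x, I (A' x) := fun x => hA _
  have hnA' : ¬ I (⋃ x, A' x) := by
    rw [show (⋃ x, A' x) = ⋃ i, A i from e.surjective.iUnion_comp _]
    exact hnA
  let T : κ.ord.ToType → Set S := fun x => A' x \ ⋃ y : Iio x, A' y
  have hT : ∀ x, I (T x) := fun x => hI.mono _ _ (hA' x) sdiff_subset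
  have hdis : ∀ x y, x ≠ y → Disjoint (T x) (T y) := by
    have key : ∀ x y, x < y → Disjoint (T x) (T y) := by
      intro x y hxy
      rw [Set.disjoint_left]
      rintro s ⟨hs, _⟩ ⟨_, hs'⟩
      exact hs' (mem_iUnion.2 ⟨⟨x, hxy⟩, hs⟩)
    intro x y hxy
    rcases lt_or_gt_of_ne hxy with h | h
    · exact key x y h
    · exact (key y x h).symm
  have hun : (⋃ x, A' x) ⊆ ⋃ x, T x := by
    intro s hs
    have h1 : {x | s ∈ A' x}.Nonempty := by
      obtain ⟨x, hx⟩ := mem_iUnion.1 hs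
      exact ⟨x, hx⟩
    obtain ⟨x, hx, hmin⟩ := (wellFounded_lt (α := κ.ord.ToType)).has_min _ h1
    refine mem_iUnion.2 ⟨x, hx, fun hc => ?_⟩
    obtain ⟨y, hy⟩ := mem_iUnion.1 hc
    exact hmin y hy y.2
  have hnT : ¬ I (⋃ x, T x) := fun h => hnA' (hI.mono _ _ h hun)
  -- regularity
  have hreg : κ.IsRegular := by
    refine ⟨hκ0.le, ?_⟩
    by_contra hc
    rw [not_le] at hc
    obtain ⟨s, hs, hs'⟩ := Order.exists_cof_eq (α := κ.ord.ToType)
    rw [Ordinal.cof_toType] at hs'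
    apply hnA'
    have h1 : I (⋃ c : s, ⋃ x : Iic (c : κ.ord.ToType), A' x) := by
      refine hC.iUnion _ (by rw [hs']; exact hc) fun c => ?_
      exact hC.iUnion _ (mk_Iic_lt' hκ0.le _) fun x => hA' _
    refine hI.mono _ _ h1 fun t ht => ?_
    obtain ⟨x, hx⟩ := mem_iUnion.1 ht
    obtain ⟨c, hc1, hc2⟩ := hs x
    exact mem_iUnion.2 ⟨⟨c, hc1⟩, mem_iUnion.2 ⟨⟨x, hc2⟩, hx⟩⟩
  -- the ideal on `κ`
  let J : Set κ.ord.ToType → Prop := fun K => I (⋃ x ∈ K, T x)
  have hJC : Comp J κ := by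
    intro G hG hGJ
    have h1 : I (⋃ K : G, ⋃ x ∈ (K : Set κ.ord.ToType), T x) :=
      hC.iUnion _ hG fun K => hGJ _ K.2
    refine hI.mono _ _ h1 ?_
    intro t ht
    simp only [mem_iUnion, exists_prop, mem_sUnion] at ht ⊢
    obtain ⟨x, ⟨K, hK1, hK2⟩, hx⟩ := ht
    exact ⟨⟨K, hK1⟩, x, hK2, hx⟩
  have hJ : SatIdeal J := by
    refine ⟨?_, ?_, ?_, ?_⟩
    · intro A B hB hAB
      exact hI.mono _ _ hB (biUnion_subset_biUnion_left hAB)
    · intro B hB
      refine hI.mono _ _ (hI.sig _ hB) ?_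
      intro t ht
      simp only [mem_iUnion, exists_prop] at ht ⊢
      obtain ⟨x, ⟨n, hn⟩, hx⟩ := ht
      exact ⟨n, x, hn, hx⟩
    · intro x
      change I (⋃ y ∈ ({x} : Set _), T y)
      rw [biUnion_singleton]
      exact hT x
    · intro B hB
      obtain ⟨i, hi⟩ := hI.sat (fun i => ⋃ x ∈ B i, T x) (by
        intro i j hij
        rw [Set.disjoint_left]
        intro t ht ht'
        simp only [mem_iUnion, exists_prop] at ht ht'
        obtain ⟨x, hx1, hx2⟩ := ht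
        obtain ⟨y, hy1, hy2⟩ := ht'
        by_cases hxy : x = y
        · subst hxy
          exact Set.disjoint_left.1 (hB hij) hx1 hy1
        · exact Set.disjoint_left.1 (hdis x y hxy) hx2 hy2)
      exact ⟨i, hi⟩
  have hJne : ¬ J univ := by
    intro h
    apply hnT
    refine hI.mono _ _ h ?_
    rw [biUnion_univ]
  exact ⟨κ, hκ0, hle, hreg, ulam hreg hκ0 hJ hJC hJne, hC, J, hJ, hJC, hJne⟩

end Pool.Agent.H650R2.Bf
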