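import Mathlib
import Pool.Agent.Helper669.Forcing2

set_option autoImplicit false

/-!
# Forcing with the measure algebra of a probability space
-/

namespace Pool.Agent.H650R2.Rand

open MeasureTheory Cardinal Pool.Agent.Helper669.Forcing Pool.Agent.Helper669.Forcing2

/-- A condition of the measure algebra forcing: a measurable set of positive measure. -/
structure MA {Ω : Type} [MeasurableSpace Ω] (μ : Measure Ω) where
  /-- the set -/
  s : Set Ω
  meas : MeasurableSet s
  pos : μ s ≠ 0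

/-- `p ≤ q` iff `p` is contained in `q` up to a null set. -/
instance {Ω : Type} [MeasurableSpace Ω] (μ : Measure Ω) : Preorder (MA μ) where
  le p q := μ (p.s \ q.s) = 0
  le_refl p := by simp
  le_trans p q r h h' := by
    refine measure_mono_null (t := (p.s \ q.s) ∪ (q.s \ r.s)) ?_ (measure_union_null h h')
    intro x hx
    by_cases hq : x ∈ q.s
    · exact Or.inr ⟨hq, hx.2⟩
    · exact Or.inl ⟨hx.1, hq⟩

section

variable {Ω : Type} [MeasurableSpace Ω] {μ : Measure Ω}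

theorem MA.le_iff {p q : MA μ} : p ≤ q ↔ μ (p.s \ q.s) = 0 := Iff.rfl

theorem MA.le_of_subset {p q : MA μ} (h : p.s ⊆ q.s) : p ≤ q := by
  rw [MA.le_iff, Set.sdiff_eq_empty.2 h, measure_empty]

/-- the intersection of a condition with a measurable set -/
def MA.inter (p : MA μ) (U : Set Ω) (hU : MeasurableSet U) (h : μ (p.s ∩ U) ≠ 0) : MA μ :=
  ⟨p.s ∩ U, p.meas.inter hU, h⟩

theorem MA.inter_le (p : MA μ) (U : Set Ω) (hU : MeasurableSet U) (h : μ (p.s ∩ U) ≠ 0) :
    p.inter U hU h ≤ p := MA.le_of_subset Set.inter_subset_left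

theorem ccc_set [IsFiniteMeasure μ] (A : Set (MA μ))
    (h : ∀ p ∈ A, ∀ q ∈ A, p ≠ q → μ (p.s ∩ q.s) = 0) : A.Countable := by
  have key := Measure.countable_meas_pos_of_disjoint_iUnion₀ (μ := μ)
    (As := fun p : A => p.1.s) (fun p => p.1.meas.nullMeasurableSet)
    (fun p q hpq => h p.1 p.2 q.1 q.2 (fun e => hpq (Subtype.ext e)))
  have h2 : {i : A | 0 < μ i.1.s} = Set.univ := by
    ext i
    simp only [Set.mem_univ, iff_true]
    exact pos_iff_ne_zero.2 i.1.pos
  rw [h2] at key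
  exact Set.countable_coe_iff.1 (Set.countable_univ_iff.1 key)

/-- the value of a name: an essential supremum -/
theorem exists_val [IsFiniteMeasure μ] (N : Set (MA μ)) : ∃ U : Set Ω, MeasurableSet U ∧
    (∀ s ∈ N, μ (s.s \ U) = 0) ∧
    ∀ V : Set Ω, MeasurableSet V → μ (V ∩ U) ≠ 0 → ∃ s ∈ N, μ (V ∩ s.s) ≠ 0 := by
  classical
  let T : Set (Set (MA μ)) := {A | (∀ p ∈ A, ∃ s ∈ N, p ≤ s) ∧
    ∀ p ∈ A, ∀ q ∈ A, p ≠ q → μ (p.s ∩ q.s) = 0}
  obtain ⟨A, hA⟩ : ∃ A, Maximal (· ∈ T) A := by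
    refine zorn_subset T fun c hc hchain => ⟨⋃₀ c, ⟨?_, ?_⟩, fun s hs => Set.subset_sUnion_of_mem hs⟩
    · rintro p ⟨t, ht, hp⟩
      exact (hc ht).1 p hp
    · rintro p ⟨t, ht, hp⟩ q ⟨t', ht', hq⟩ hpq
      rcases hchain.total ht ht' with h | h
      · exact (hc ht').2 p (h hp) q hq hpq
      · exact (hc ht).2 p hp q (h hq) hpq
  have hAc : A.Countable := ccc_set A hA.1.2
  refine ⟨⋃ a ∈ A, a.s, MeasurableSet.biUnion hAc fun a _ => a.meas, ?_, ?_⟩
  · intro s hs
    by_contra hne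
    let r : MA μ := ⟨s.s \ ⋃ a ∈ A, a.s, s.meas.diff (MeasurableSet.biUnion hAc fun a _ => a.meas),
      hne⟩
    have hr : ∀ a ∈ A, r.s ∩ a.s = ∅ := by
      intro a ha
      ext x
      simp only [r, Set.mem_inter_iff, Set.mem_sdiff, Set.mem_iUnion, Set.mem_empty_iff_false,
        iff_false, not_and]
      intro h1 h2
      exact h1.2 ⟨a, ha, h2⟩
    have hmem : insert r A ∈ T := by
      refine ⟨?_, ?_⟩
      · rintro p (rfl | hp)
        · exact ⟨s, hs, MA.le_of_subset Set.sdiff_subset⟩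
        · exact hA.1.1 p hp
      · rintro p (rfl | hp) q (rfl | hq) hpq
        · exact absurd rfl hpq
        · rw [hr q hq, measure_empty]
        · rw [Set.inter_comm, hr p hp, measure_empty]
        · exact hA.1.2 p hp q hq hpq
    have hrA : r ∈ A := hA.2 hmem (Set.subset_insert r A) (Set.mem_insert r A)
    have h0 := hr r hrA
    rw [Set.inter_self] at h0
    exact r.pos (by rw [h0, measure_empty])
  · intro V hV hne
    by_contra hcon
    push Not at hcon
    apply hne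
    rw [Set.inter_iUnion₂]
    refine (measure_biUnion_null_iff hAc).2 fun a ha => ?_
    obtain ⟨s, hs, has⟩ := hA.1.1 a ha
    refine measure_mono_null (t := (V ∩ s.s) ∪ (a.s \ s.s)) ?_
      (measure_union_null (hcon s hs) has)
    intro x hx
    by_cases hx' : x ∈ s.s
    · exact Or.inl ⟨hx.1, hx'⟩
    · exact Or.inr ⟨hx.2, hx'⟩

/-- the value of a name -/
noncomputable def val [IsFiniteMeasure μ] (N : Set (MA μ)) : Set Ω := (exists_val N).choose

variable [IsFiniteMeasure μ]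

theorem measurableSet_val (N : Set (MA μ)) : MeasurableSet (val N) := (exists_val N).choose_spec.1

theorem mem_meets {N : Set (MA μ)} {p : MA μ} : p ∈ meets N ↔ μ (p.s \ val N) = 0 := by
  obtain ⟨h1, h2, h3⟩ := (exists_val N).choose_spec
  change MeasurableSet (val N) at h1
  change ∀ s ∈ N, μ (s.s \ val N) = 0 at h2
  change ∀ V : Set Ω, MeasurableSet V → μ (V ∩ val N) ≠ 0 → ∃ s ∈ N, μ (V ∩ s.s) ≠ 0 at h3
  constructor
  · intro h
    by_contra hne
    obtain ⟨r, hr, s, hs, hrs⟩ := h ⟨p.s \ val N, p.meas.diff h1, hne⟩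
      (MA.le_of_subset Set.sdiff_subset)
    apply r.pos
    refine measure_mono_null (t := (r.s \ (p.s \ val N)) ∪ (r.s \ s.s) ∪ (s.s \ val N)) ?_
      (measure_union_null (measure_union_null hr hrs) (h2 s hs))
    intro x hx
    by_cases hxs : x ∈ s.s
    · by_cases hxv : x ∈ val N
      · exact Or.inl (Or.inl ⟨hx, fun h => h.2 hxv⟩)
      · exact Or.inr ⟨hxs, hxv⟩
    · exact Or.inl (Or.inr ⟨hx, hxs⟩)
  · intro h q hq
    have hqv : μ (q.s ∩ val N) ≠ 0 := by
      intro h0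
      apply q.pos
      refine measure_mono_null (t := (q.s ∩ val N) ∪ ((q.s \ p.s) ∪ (p.s \ val N))) ?_
        (measure_union_null h0 (measure_union_null hq h))
      intro x hx
      by_cases hxv : x ∈ val N
      · exact Or.inl ⟨hx, hxv⟩
      · by_cases hxp : x ∈ p.s
        · exact Or.inr (Or.inr ⟨hxp, hxv⟩)
        · exact Or.inr (Or.inl ⟨hx, hxp⟩)
    obtain ⟨s, hs, hne⟩ := h3 q.s q.meas hqv
    exact ⟨⟨q.s ∩ s.s, q.meas.inter s.meas, hne⟩, MA.le_of_subset Set.inter_subset_left, s, hs,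
      MA.le_of_subset Set.inter_subset_right⟩

/-- a condition meeting the value of a name can be strengthened to force it -/
theorem exists_le_meets {N : Set (MA μ)} {p : MA μ} (h : μ (p.s ∩ val N) ≠ 0) :
    p.inter (val N) (measurableSet_val N) h ∈ meets N := by
  rw [mem_meets]
  have : (p.inter (val N) (measurableSet_val N) h).s \ val N = ∅ :=
    Set.sdiff_eq_empty.2 Set.inter_subset_right
  rw [this, measure_empty]

/-- a total name: the values cover -/
theorem cover_of_fex {ι : Type} [Countable ι] (N : ι → Set (MA μ)) {p : MA μ}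
    (h : p ∈ fex fun i => meets (N i)) : μ (p.s \ ⋃ i, val (N i)) = 0 := by
  by_contra hne
  obtain ⟨r, hr, i, hi⟩ := mem_fex.1 h ⟨p.s \ ⋃ i, val (N i),
    p.meas.diff (MeasurableSet.iUnion fun i => measurableSet_val _), hne⟩
      (MA.le_of_subset Set.sdiff_subset)
  rw [mem_meets] at hi
  apply r.pos
  refine measure_mono_null (t := (r.s \ (p.s \ ⋃ i, val (N i))) ∪ (r.s \ val (N i))) ?_
    (measure_union_null hr hi)
  intro x hx
  by_cases hxv : x ∈ val (N i)
  · exact Or.inl ⟨hx, fun h => h.2 (Set.mem_iUnion.2 ⟨i, hxv⟩)⟩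
  · exact Or.inr ⟨hx, hxv⟩

theorem ccc {ι : Type} (f : ι → MA μ) (hι : ℵ₀ < #ι) :
    ∃ i j, i ≠ j ∧ ∃ r, r ≤ f i ∧ r ≤ f j := by
  by_contra hcon
  push Not at hcon
  have h0 : ∀ i j, i ≠ j → μ ((f i).s ∩ (f j).s) = 0 := by
    intro i j hij
    by_contra hne
    exact hcon i j hij ⟨(f i).s ∩ (f j).s, (f i).meas.inter (f j).meas, hne⟩
      (MA.le_of_subset Set.inter_subset_left) (MA.le_of_subset Set.inter_subset_right)
  have hinj : Function.Injective f := by
    intro i j hij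
    by_contra hne
    have h1 := h0 i j hne
    rw [hij, Set.inter_self] at h1
    exact (f j).pos h1
  have hcount : (Set.range f).Countable := by
    refine ccc_set _ ?_
    rintro _ ⟨i, rfl⟩ _ ⟨j, rfl⟩ hne
    exact h0 i j fun e => hne (by rw [e])
  have h2 : #ι ≤ ℵ₀ := by
    rw [← Cardinal.mk_range_eq f hinj]
    exact Cardinal.le_aleph0_iff_set_countable.2 hcount
  exact absurd h2 (not_le.2 hι)

end

/-! ### Consequences of the countable chain condition -/

theorem cardinalsPreserved_of_ccc {Q : Type} [Preorder Q]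
    (hcc : ∀ (ι : Type) (f : ι → Q), ℵ₀ < #ι → ∃ i j, i ≠ j ∧ ∃ r, r ≤ f i ∧ r ≤ f j) (q : Q) :
    q ∈ CardinalsPreserved.{0, 0} Q := by
  intro μ ν hμν hν q1 hq1 hex
  obtain ⟨q2, hq2, R, hfun, honto⟩ := mem_fex.1 hex q1 le_rfl
  let V : μ.out → Set ν.out := fun x => {y | ∃ r ≤ q2, r ∈ meets (R x y)}
  have hV : ∀ x, #(V x) ≤ ℵ₀ := by
    intro x
    by_contra hc
    rw [not_le] at hc
    have hch : ∀ y : V x, ∃ r ≤ q2, r ∈ meets (R x y.1) := fun y => y.2
    choose f hf1 hf2 using hch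
    obtain ⟨i, j, hij, r, hri, hrj⟩ := hcc (V x) f hc
    apply hij
    apply Subtype.ext
    have hr : r ∈ IsFun R := down_IsFun R _ hfun r (hri.trans (hf1 i))
    exact IsFun.unique hr (down_meets _ _ (hf2 i) r hri) (down_meets _ _ (hf2 j) r hrj)
  have hU : (⋃ x, V x) = Set.univ := by
    rw [Set.eq_univ_iff_forall]
    intro y
    obtain ⟨r, hr, x, h⟩ := mem_fex.1 (honto y) q2 le_rfl
    exact Set.mem_iUnion.2 ⟨x, r, hr, h⟩
  have h1 : ν ≤ μ * ℵ₀ := by
    calc ν = #(ν.out) := (Cardinal.mk_out ν).symm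
      _ = #(Set.univ : Set ν.out) := Cardinal.mk_univ.symm
      _ = #(⋃ x, V x) := by rw [hU]
      _ ≤ Cardinal.sum fun x => #(V x) := Cardinal.mk_iUnion_le_sum_mk
      _ ≤ Cardinal.sum fun _ : μ.out => ℵ₀ := Cardinal.sum_le_sum _ _ hV
      _ = μ * ℵ₀ := by rw [Cardinal.sum_const', Cardinal.mk_out]
  exact absurd h1 (not_le.2 (Cardinal.mul_lt_of_lt hν.le hμν hν))

/-- A set of full size of an uncountable set is not covered by a countable ground model set. -/
theorem not_fullSize {Q : Type} [Preorder Q]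
    (hcc : ∀ (ι : Type) (f : ι → Q), ℵ₀ < #ι → ∃ i j, i ≠ j ∧ ∃ r, r ≤ f i ∧ r ≤ f j)
    {K : Type} (hK : ℵ₀ < #K) (A : K → Set Q) (q : Q) (hq : q ∈ HasFullSize A)
    (S : Set K) (hS : S.Countable) (hA : ∀ k ∉ S, ∀ r ≤ q, r ∉ meets (A k)) : False := by
  obtain ⟨q1, hq1, R, hfun, hinj, hin⟩ := mem_fex.1 hq q le_rfl
  have hch : ∀ k : K, ∃ r ≤ q1, ∃ s : S, r ∈ meets (R k s.1) := by
    intro k
    obtain ⟨r, hr, y, hy⟩ := IsFun.total hfun k
    obtain ⟨r2, hr2, h2⟩ := mem_fimp.1 (hin k y) r hr hy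
    refine ⟨r2, hr2.trans hr, ⟨y, ?_⟩, down_meets _ _ hy _ hr2⟩
    by_contra hy'
    exact hA y hy' r2 ((hr2.trans hr).trans hq1) h2
  choose f hf1 g hf2 using hch
  have hfib : ∃ s : S, ℵ₀ < #(g ⁻¹' {s}) := by
    by_contra hcon
    push Not at hcon
    have h1 : (Set.univ : Set K) = ⋃ s : S, g ⁻¹' {s} := by
      ext x
      simp
    have h2 : (Set.univ : Set K).Countable := by
      rw [h1]
      have : Countable S := hS
      exact Set.countable_iUnion fun s => Cardinal.le_aleph0_iff_set_countable.1 (hcon s)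
    have h3 := Cardinal.le_aleph0_iff_set_countable.2 h2
    rw [Cardinal.mk_univ] at h3
    exact absurd h3 (not_le.2 hK)
  obtain ⟨s, hs⟩ := hfib
  obtain ⟨i, j, hij, r, hri, hrj⟩ := hcc _ (fun k : g ⁻¹' {s} => f k.1) hs
  apply hij
  apply Subtype.ext
  have hr : r ∈ IsInj R := down_IsInj R _ hinj r (hri.trans (hf1 i.1))
  have h1 := down_meets _ _ (hf2 i.1) r hri
  have h2 := down_meets _ _ (hf2 j.1) r hrj
  rw [show g i.1 = s from i.2] at h1
  rw [show g j.1 = s from j.2] at h2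
  exact IsInj.eq hr h1 h2

end Pool.Agent.H650R2.Rand
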