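import Mathlib
import Pool.Agent.H650R2.RandBase
import Pool.Agent.Helper669.Dom

set_option autoImplicit false

/-!
# Adding random reals
-/

namespace Pool.Agent.H650R2.Rand

open MeasureTheory ProbabilityTheory Cardinal Filter
open Pool.Agent.Helper669.Forcing Pool.Agent.Helper669.Forcing2 Pool.Agent.Helper669.Dom

/-- The uniform probability measure on `{false, true}`. -/
noncomputable def coin : Measure Bool := (PMF.uniformOfFintype Bool).toMeasure

instance : IsProbabilityMeasure coin := by unfold coin; infer_instance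

/-- The product measure on `2 ^ (L × ω)`. -/
noncomputable def mu (L : Type) : Measure (L × ℕ → Bool) := Measure.infinitePi fun _ => coin

instance (L : Type) : IsProbabilityMeasure (mu L) := by unfold mu; infer_instance

theorem coin_singleton (c : Bool) : coin {c} = 2⁻¹ := by
  rw [coin, PMF.toMeasure_apply_singleton _ _ (MeasurableSet.singleton c),
    PMF.uniformOfFintype_apply]
  simp

section

variable {L : Type}

/-- the sub-σ-algebra of a set of coordinates -/
@[instance_reducible]
def sig (S : Set (L × ℕ)) : MeasurableSpace (L × ℕ → Bool) :=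
  ⨆ i ∈ S, MeasurableSpace.comap (fun x : L × ℕ → Bool => x i) inferInstance

theorem sig_mono {S S' : Set (L × ℕ)} (h : S ⊆ S') : sig S ≤ sig S' :=
  biSup_mono fun _ hi => h hi

theorem exists_support {A : Set (L × ℕ → Bool)} (hA : MeasurableSet A) :
    ∃ S : Set (L × ℕ), S.Countable ∧ MeasurableSet[sig S] A := by
  have h1 : (MeasurableSpace.pi : MeasurableSpace (L × ℕ → Bool)) = MeasurableSpace.generateFrom
      {s | ∃ i : L × ℕ, MeasurableSet[MeasurableSpace.comap (fun x : L × ℕ → Bool => x i)
        inferInstance] s} := by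
    unfold MeasurableSpace.pi
    rw [MeasurableSpace.measurableSpace_iSup_eq]
  rw [h1] at hA
  refine MeasurableSpace.generateFrom_induction _
    (fun A _ => ∃ S : Set (L × ℕ), S.Countable ∧ MeasurableSet[sig S] A) ?_ ?_ ?_ ?_ A hA
  · rintro t ⟨i, hi⟩ _
    refine ⟨{i}, Set.countable_singleton i, ?_⟩
    have : MeasurableSpace.comap (fun x : L × ℕ → Bool => x i) inferInstance ≤ sig {i} := by
      unfold sig
      exact le_biSup (fun i => MeasurableSpace.comap (fun x : L × ℕ → Bool => x i) inferInstance)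
        (Set.mem_singleton i)
    exact this _ hi
  · exact ⟨∅, Set.countable_empty, @MeasurableSet.empty _ (sig ∅)⟩
  · rintro t _ ⟨S, hS, h⟩
    exact ⟨S, hS, @MeasurableSet.compl _ _ (sig S) h⟩
  · intro s _ h
    choose S hS h using h
    refine ⟨⋃ n, S n, Set.countable_iUnion hS, ?_⟩
    exact @MeasurableSet.iUnion _ _ (sig _) _ _ fun n =>
      sig_mono (Set.subset_iUnion S n) _ (h n)

theorem indep_sig {S T : Set (L × ℕ)} (h : Disjoint S T) : Indep (sig S) (sig T) (mu L) := by
  have h1 : iIndepFun (fun (i : L × ℕ) (ω : L × ℕ → Bool) => id (ω i)) (mu L) :=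
    iIndepFun_infinitePi (P := fun _ : L × ℕ => coin) (X := fun _ => id) fun _ => measurable_id
  refine indep_iSup_of_disjoint (m := fun i => MeasurableSpace.comap
    (fun x : L × ℕ → Bool => x i) inferInstance) (fun i => ?_) h1 h
  exact (measurable_pi_apply i).comap_le

theorem mu_cyl (k : L) (c : Bool) (T : Finset ℕ) :
    mu L {x | ∀ n ∈ T, x (k, n) = c} = (2⁻¹ : ENNReal) ^ T.card := by
  classical
  have h1 : {x : L × ℕ → Bool | ∀ n ∈ T, x (k, n) = c} =
      ((T.map ⟨fun n => (k, n), fun a b h => (Prod.ext_iff.1 h).2⟩ : Finset (L × ℕ)) :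
        Set (L × ℕ)).pi fun _ => {c} := by
    ext x
    simp only [Set.mem_pi, Finset.mem_coe, Finset.mem_map, Set.mem_ofPred_eq,
      Set.mem_singleton_iff]
    constructor
    · rintro h _ ⟨n, hn, rfl⟩
      exact h n hn
    · intro h n hn
      exact h (k, n) ⟨n, hn, rfl⟩
  rw [h1, mu, Measure.infinitePi_pi _ (fun _ _ => MeasurableSet.singleton c), Finset.prod_map]
  simp [coin_singleton]

theorem measurableSet_cyl (k : L) (c : Bool) (T : Finset ℕ) :
    MeasurableSet[sig {i : L × ℕ | i.1 = k}] {x | ∀ n ∈ T, x (k, n) = c} := by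
  have h1 : {x : L × ℕ → Bool | ∀ n ∈ T, x (k, n) = c} =
      ⋂ n ∈ T, (fun x : L × ℕ → Bool => x (k, n)) ⁻¹' {c} := by
    ext x
    simp
  rw [h1]
  refine @Finset.measurableSet_biInter _ _ (sig _) _ T fun n _ => ?_
  have : MeasurableSpace.comap (fun x : L × ℕ → Bool => x (k, n)) inferInstance ≤
      sig {i : L × ℕ | i.1 = k} := by
    unfold sig
    exact le_biSup (f := fun i => MeasurableSpace.comap (fun x : L × ℕ → Bool => x i)
      inferInstance) (i := (k, n)) rfl
  exact this _ ⟨{c}, MeasurableSet.singleton c, rfl⟩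

/-- The key estimate: a fresh real is not constant on an infinite set that does not depend
on it. -/
theorem mu_const (k : L) (c : Bool) (b : ℕ → Set (L × ℕ → Bool)) (S : Set (L × ℕ))
    (hb : ∀ n, MeasurableSet[sig S] (b n)) (hk : ∀ n, (k, n) ∉ S) :
    mu L {x | (∀ m, ∃ n, m ≤ n ∧ x ∈ b n) ∧ ∀ n, x ∈ b n → x (k, n) = c} = 0 := by
  classical
  -- the trace below `M`
  let tr : ℕ → (L × ℕ → Bool) → Finset ℕ := fun M x => (Finset.range M).filter fun n => x ∈ b n
  have hle : sig S ≤ (MeasurableSpace.pi : MeasurableSpace (L × ℕ → Bool)) := by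
    unfold sig
    exact iSup₂_le fun i _ => (measurable_pi_apply i).comap_le
  have hle' : sig {i : L × ℕ | i.1 = k} ≤
      (MeasurableSpace.pi : MeasurableSpace (L × ℕ → Bool)) := by
    unfold sig
    exact iSup₂_le fun i _ => (measurable_pi_apply i).comap_le
  have htr : ∀ M T, MeasurableSet[sig S] (tr M ⁻¹' {T}) := by
    intro M T
    by_cases hT : T ⊆ Finset.range M
    · have h1 : tr M ⁻¹' {T} = ⋂ n ∈ Finset.range M, if n ∈ T then b n else (b n)ᶜ := by
        ext x
        simp only [tr, Set.mem_preimage, Set.mem_singleton_iff, Set.mem_iInter]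
        constructor
        · intro h n hn
          by_cases hnT : n ∈ T
          · rw [if_pos hnT]
            rw [← h] at hnT
            exact (Finset.mem_filter.1 hnT).2
          · rw [if_neg hnT]
            intro hx
            exact hnT (h ▸ Finset.mem_filter.2 ⟨hn, hx⟩)
        · intro h
          ext n
          rw [Finset.mem_filter]
          constructor
          · rintro ⟨hn, hx⟩
            by_contra hnT
            have := h n hn
            rw [if_neg hnT] at this
            exact this hx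
          · intro hnT
            have := h n (hT hnT)
            rw [if_pos hnT] at this
            exact ⟨hT hnT, this⟩
      rw [h1]
      refine @Finset.measurableSet_biInter _ _ (sig _) _ _ fun n _ => ?_
      by_cases hnT : n ∈ T
      · rw [if_pos hnT]; exact hb n
      · rw [if_neg hnT]; exact @MeasurableSet.compl _ _ (sig S) (hb n)
    · have h1 : tr M ⁻¹' {T} = ∅ := by
        ext x
        simp only [tr, Set.mem_preimage, Set.mem_singleton_iff, Set.mem_empty_iff_false, iff_false]
        rintro rfl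
        exact hT (Finset.filter_subset _ _)
      rw [h1]
      exact @MeasurableSet.empty _ (sig S)
  have hdisj : Disjoint S {i : L × ℕ | i.1 = k} := by
    rw [Set.disjoint_left]
    rintro ⟨a, n⟩ h1 h2
    have h2' : a = k := h2
    subst h2'
    exact hk n h1
  -- the estimate for a fixed trace
  have hfix : ∀ M T, mu L (tr M ⁻¹' {T} ∩ {x | ∀ n ∈ T, x (k, n) = c}) =
      mu L (tr M ⁻¹' {T}) * (2⁻¹ : ENNReal) ^ T.card := by
    intro M T
    rw [← mu_cyl k c T]
    exact (Indep_iff _ _ _).1 (indep_sig hdisj) _ _ (htr M T) (measurableSet_cyl k c T)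
  -- the estimate for a fixed `M`
  have hM : ∀ N M, mu L {x | N ≤ (tr M x).card ∧ ∀ n, x ∈ b n → x (k, n) = c} ≤
      (2⁻¹ : ENNReal) ^ N := by
    intro N M
    calc mu L {x | N ≤ (tr M x).card ∧ ∀ n, x ∈ b n → x (k, n) = c}
        ≤ mu L (⋃ T ∈ (Finset.range M).powerset.filter (fun T => N ≤ T.card),
            (tr M ⁻¹' {T} ∩ {x | ∀ n ∈ T, x (k, n) = c})) := by
          refine measure_mono ?_
          rintro x ⟨h1, h2⟩
          simp only [Set.mem_iUnion]
          refine ⟨tr M x, Finset.mem_filter.2 ⟨Finset.mem_powerset.2 (Finset.filter_subset _ _), h1⟩,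
            rfl, fun n hn => h2 n (Finset.mem_filter.1 hn).2⟩
      _ ≤ ∑ T ∈ (Finset.range M).powerset.filter (fun T => N ≤ T.card),
            mu L (tr M ⁻¹' {T} ∩ {x | ∀ n ∈ T, x (k, n) = c}) := measure_biUnion_finset_le _ _
      _ ≤ ∑ T ∈ (Finset.range M).powerset.filter (fun T => N ≤ T.card),
            mu L (tr M ⁻¹' {T}) * (2⁻¹ : ENNReal) ^ N := by
          refine Finset.sum_le_sum fun T hT => ?_
          rw [hfix]
          refine mul_le_mul_right ?_ _
          exact pow_le_pow_right_of_le_one' (by simp) (Finset.mem_filter.1 hT).2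
      _ = (∑ T ∈ (Finset.range M).powerset.filter (fun T => N ≤ T.card),
            mu L (tr M ⁻¹' {T})) * (2⁻¹ : ENNReal) ^ N := by rw [Finset.sum_mul]
      _ ≤ 1 * (2⁻¹ : ENNReal) ^ N := by
          refine mul_le_mul_left ?_ _
          rw [sum_measure_preimage_singleton _ fun T _ => hle _ (htr M T)]
          exact prob_le_one
      _ = (2⁻¹ : ENNReal) ^ N := one_mul _
  have hN : ∀ N, mu L {x | (∀ m, ∃ n, m ≤ n ∧ x ∈ b n) ∧ ∀ n, x ∈ b n → x (k, n) = c} ≤
      (2⁻¹ : ENNReal) ^ N := by
    intro N
    have hmono : Monotone fun M => {x | N ≤ (tr M x).card ∧ ∀ n, x ∈ b n → x (k, n) = c} := by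
      intro M M' hMM' x hx
      refine ⟨hx.1.trans (Finset.card_le_card ?_), hx.2⟩
      exact Finset.filter_subset_filter _ (Finset.range_mono hMM')
    calc mu L {x | (∀ m, ∃ n, m ≤ n ∧ x ∈ b n) ∧ ∀ n, x ∈ b n → x (k, n) = c}
        ≤ mu L (⋃ M, {x | N ≤ (tr M x).card ∧ ∀ n, x ∈ b n → x (k, n) = c}) := by
          refine measure_mono ?_
          rintro x ⟨h1, h2⟩
          have hinf : {n | x ∈ b n}.Infinite := by
            refine Set.infinite_of_forall_exists_gt fun m => ?_
            obtain ⟨n, hn, hx⟩ := h1 (m + 1)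
            exact ⟨n, hx, by omega⟩
          obtain ⟨F, hF, hcard⟩ := hinf.exists_subset_card_eq N
          obtain ⟨M, hFM⟩ := F.exists_nat_subset_range
          refine Set.mem_iUnion.2 ⟨M, ?_, h2⟩
          rw [← hcard]
          refine Finset.card_le_card fun n hn => ?_
          exact Finset.mem_filter.2 ⟨hFM hn, hF hn⟩
      _ = ⨆ M, mu L {x | N ≤ (tr M x).card ∧ ∀ n, x ∈ b n → x (k, n) = c} := by
          exact hmono.measure_iUnion
      _ ≤ (2⁻¹ : ENNReal) ^ N := iSup_le fun M => hM N M
  have hlim : Tendsto (fun N : ℕ => (2⁻¹ : ENNReal) ^ N) atTop (nhds 0) :=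
    ENNReal.tendsto_pow_atTop_nhds_zero_of_lt_one (by simp)
  exact le_antisymm (ge_of_tendsto' hlim hN) zero_le

end

end Pool.Agent.H650R2.Rand
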