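import Mathlib
import Pool.Agent.H650R2.RandReal

set_option autoImplicit false

/-!
# The strong polarized relation and the dominating number after adding random reals
-/

namespace Pool.Agent.H650R2.Rand

open MeasureTheory Cardinal Filter
open Pool.Agent.Helper669.Forcing Pool.Agent.Helper669.Forcing2 Pool.Agent.Helper669.Dom

universe u v

/-- Adding random reals indexed by `L`: forcing with the measure algebra of the product measure
on `2 ^ (L × ω)`. -/
abbrev RandomForcing (L : Type) : Type := MA (mu L)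

section

variable {P : Type u} [Preorder P]

/-- The function from `ℕ` to `ℕ` named by `x` is eventually bounded by the one named by `y`:
for some `N`, `x n ≤ y n` for all `n ≥ N`. -/
def LeStar (x y : ℕ → ℕ → Set P) : Set P :=
  fex fun N : ℕ => fall fun n : ℕ => fall fun _ : N ≤ n => fall fun a : ℕ => fall fun b : ℕ =>
    fimp (fand (meets (x n a)) (meets (y n b))) (fground (a ≤ b))

/-- In the extension there is a dominating family (a family of functions from `ℕ` to `ℕ` such
that every function from `ℕ` to `ℕ` is eventually bounded by a member) indexed by `Y`. -/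
def DominatingLe (P : Type u) [Preorder P] (Y : Type v) : Set P :=
  fex fun E : Y → ℕ → ℕ → Set P =>
    fand (fall fun y => IsFun (E y))
      (fall fun x : ℕ → ℕ → Set P => fimp (IsFun x) (fex fun y => LeStar x (E y)))

/-- In the extension the dominating number is `κ`: there is a dominating family indexed by `κ`
and there is none indexed by a smaller ground model cardinal. -/
def DominatingNumberIs (P : Type u) [Preorder P] (κ : Cardinal.{v}) : Set P :=
  fand (DominatingLe P κ.out)
    (fall fun ν : Cardinal.{v} => fall fun _ : ν < κ => fnot (DominatingLe P ν.out))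

/-- the name of a ground model function -/
def chk (P : Type u) (f : ℕ → ℕ) : ℕ → ℕ → Set P := fun n a => {_q | f n = a}

theorem mem_chk {f : ℕ → ℕ} {n a : ℕ} {p : P} : p ∈ meets (chk P f n a) ↔ f n = a := by
  constructor
  · intro h
    obtain ⟨_, _, s, hs, _⟩ := h p le_rfl
    exact hs
  · intro h
    exact meets_of_mem h

theorem isFun_chk (f : ℕ → ℕ) (p : P) : p ∈ IsFun (chk P f) := by
  refine ⟨fun n => ?_, fun n a b => ?_⟩
  · exact mem_fex_of_mem (f n) (down_meets _) (mem_chk.2 rfl)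
  · refine mem_fimp.2 fun q _ hq' => ⟨q, le_rfl, ?_⟩
    exact (mem_chk.1 hq'.1).symm.trans (mem_chk.1 hq'.2)

theorem down_LeStar (x y : ℕ → ℕ → Set P) : Down (LeStar x y) := down_fex _

end

section

variable {Ω : Type} [MeasurableSpace Ω] {μ : Measure Ω} [IsFiniteMeasure μ]

/-- Measure algebra forcing is `ω^ω`-bounding. -/
theorem exists_bound {x : ℕ → ℕ → Set (MA μ)} {p : MA μ} (hp : p ∈ IsFun x) :
    ∃ g : ℕ → ℕ, ∀ r ≤ p, ∃ r' ≤ r, ∃ N : ℕ, ∀ n ≥ N, ∀ s ≤ r', ∀ a, s ∈ meets (x n a) →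
      a ≤ g n := by
  classical
  -- the values cover `p`
  have hcov : ∀ n, μ (p.s \ ⋃ m, val (x n m)) = 0 := fun n => cover_of_fex _ (hp.1 n)
  have hstep : ∀ n : ℕ, ∃ M : ℕ, μ (p.s \ ⋃ m ∈ Finset.range (M + 1), val (x n m)) ≤
      (2⁻¹ : ENNReal) ^ n := by
    intro n
    have h1 : Tendsto (fun M : ℕ => μ (p.s \ ⋃ m ∈ Finset.range (M + 1), val (x n m))) atTop
        (nhds (μ (⋂ M : ℕ, p.s \ ⋃ m ∈ Finset.range (M + 1), val (x n m)))) := by
      refine tendsto_measure_iInter_atTop ?_ ?_ ⟨0, measure_ne_top _ _⟩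
      · intro M
        exact (p.meas.diff (Finset.measurableSet_biUnion _ fun m _ =>
          measurableSet_val _)).nullMeasurableSet
      · intro M M' hMM'
        refine Set.sdiff_subset_sdiff_right ?_
        refine Set.biUnion_subset_biUnion_left fun m hm => ?_
        have hm' : m ∈ Finset.range (M + 1) := hm
        rw [Finset.mem_range] at hm'
        exact Finset.mem_coe.2 (Finset.mem_range.2 (by omega))
    have h2 : μ (⋂ M : ℕ, p.s \ ⋃ m ∈ Finset.range (M + 1), val (x n m)) = 0 := by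
      refine measure_mono_null ?_ (hcov n)
      intro z hz
      rw [Set.mem_iInter] at hz
      refine ⟨(hz 0).1, fun h => ?_⟩
      obtain ⟨m, hm⟩ := Set.mem_iUnion.1 h
      refine (hz m).2 (Set.mem_iUnion₂.2 ⟨m, ?_, hm⟩)
      exact Finset.mem_range.2 (Nat.lt_succ_self m)
    rw [h2] at h1
    have h3 : (0 : ENNReal) < (2⁻¹ : ENNReal) ^ n := by
      exact ENNReal.pow_pos (by simp) n
    obtain ⟨M, hM⟩ := (h1.eventually (gt_mem_nhds h3)).exists
    exact ⟨M, hM.le⟩
  choose g hg using hstep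
  refine ⟨g, fun r hr => ?_⟩
  let D : ℕ → Set Ω := fun n => p.s \ ⋃ m ∈ Finset.range (g n + 1), val (x n m)
  have hD : μ (limsup D atTop) = 0 := by
    refine measure_limsup_atTop_eq_zero ?_
    refine ne_top_of_le_ne_top ?_ (ENNReal.tsum_le_tsum hg)
    rw [ENNReal.tsum_geometric, ENNReal.one_sub_inv_two, inv_inv]
    exact ENNReal.ofNat_ne_top
  -- some tail is avoided on a set of positive measure
  have h1 : ∃ N : ℕ, μ (r.s \ ⋃ n ∈ Set.Ici N, D n) ≠ 0 := by
    by_contra hcon
    push Not at hcon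
    apply r.pos
    have h2 : r.s ⊆ (⋃ N : ℕ, r.s \ ⋃ n ∈ Set.Ici N, D n) ∪ limsup D atTop := by
      intro z hz
      by_cases hz' : z ∈ limsup D atTop
      · exact Or.inr hz'
      · left
        rw [mem_limsup_iff_frequently_mem, not_frequently] at hz'
        obtain ⟨N, hN⟩ := eventually_atTop.1 hz'
        refine Set.mem_iUnion.2 ⟨N, hz, fun h => ?_⟩
        obtain ⟨n, hn, hn'⟩ := Set.mem_iUnion₂.1 h
        exact hN n hn hn'
    exact measure_mono_null h2 (measure_union_null (measure_iUnion_null hcon) hD)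
  obtain ⟨N, hN⟩ := h1
  have hDm : ∀ n, MeasurableSet (D n) := fun n => p.meas.diff
    (Finset.measurableSet_biUnion _ fun m _ => measurableSet_val _)
  let r' : MA μ := ⟨r.s \ ⋃ n ∈ Set.Ici N, D n,
    r.meas.diff (MeasurableSet.biUnion (Set.to_countable _) fun n _ => hDm n), hN⟩
  have hr' : r' ≤ r := MA.le_of_subset Set.sdiff_subset
  refine ⟨r', hr', N, fun n hn s hs a hsa => ?_⟩
  -- `s` meets one of the values up to `g n`
  have hex : ∃ m ∈ Finset.range (g n + 1), μ (s.s ∩ val (x n m)) ≠ 0 := by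
    by_contra hcon
    push Not at hcon
    apply s.pos
    have hsp : μ (s.s \ p.s) = 0 := hs.trans (hr'.trans hr)
    have hsr : μ (s.s \ r'.s) = 0 := hs
    refine measure_mono_null (t := (⋃ m ∈ Finset.range (g n + 1), s.s ∩ val (x n m)) ∪
      ((s.s \ p.s) ∪ (s.s \ r'.s))) ?_ (measure_union_null
        ((measure_biUnion_null_iff (Finset.countable_toSet _)).2 hcon)
        (measure_union_null hsp hsr))
    intro z hz
    by_cases h1 : z ∈ ⋃ m ∈ Finset.range (g n + 1), val (x n m)
    · left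
      obtain ⟨m, hm, hm'⟩ := Set.mem_iUnion₂.1 h1
      exact Set.mem_iUnion₂.2 ⟨m, hm, hz, hm'⟩
    · right
      by_cases h2 : z ∈ p.s
      · right
        refine ⟨hz, fun h3 => h3.2 (Set.mem_iUnion₂.2 ⟨n, hn, h2, h1⟩)⟩
      · exact Or.inl ⟨hz, h2⟩
  obtain ⟨m, hm, hne⟩ := hex
  have hs2 := s.inter_le (val (x n m)) (measurableSet_val _) hne
  have h3 := exists_le_meets hne
  have h4 := down_meets _ _ hsa _ hs2
  have h5 := down_IsFun _ _ hp _ (hs2.trans (hs.trans (hr'.trans hr)))
  rw [IsFun.unique h5 h4 h3]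
  exact Nat.lt_succ_iff.1 (Finset.mem_range.1 hm)

theorem dominatingNumberIs (p : MA μ) : p ∈ DominatingNumberIs (MA μ) dNum := by
  refine ⟨?_, ?_⟩
  · obtain ⟨F, hF, hcard⟩ := exists_dominating
    obtain ⟨e⟩ : Nonempty (dNum.out ≃ F) := Cardinal.eq.1 ((mk_out _).trans hcard.symm)
    refine mem_fex_of_mem (fun y => chk _ (e y).1) ?_ ⟨fun y => isFun_chk _ _, fun x => ?_⟩
    · exact down_fand (down_fall fun _ => down_IsFun _) (down_fall fun _ => down_fimp _ _)
    · refine mem_fimp.2 fun q hq hx => ⟨q, le_rfl, ?_⟩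
      obtain ⟨g, hg⟩ := exists_bound hx
      obtain ⟨f, hf, hgf⟩ := hF g
      obtain ⟨y, hy⟩ := e.surjective ⟨f, hf⟩
      obtain ⟨N0, hN0⟩ := eventually_atTop.1 hgf
      refine mem_fex.2 fun r hr => ?_
      obtain ⟨r', hr', N, hN⟩ := hg r hr
      refine ⟨r', hr', y, ?_⟩
      refine mem_fex_of_mem (max N N0) ?_ fun n hn a b => ?_
      · exact down_fall fun _ => down_fall fun _ => down_fall fun _ => down_fall fun _ =>
          down_fimp _ _
      · refine mem_fimp.2 fun s hs hab => ⟨s, le_rfl, ?_⟩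
        have h1 := hN n ((le_max_left _ _).trans hn) s hs a hab.1
        have h2 : (e y).1 n = b := mem_chk.1 hab.2
        rw [hy] at h2
        show a ≤ b
        rw [← h2]
        exact h1.trans (hN0 n ((le_max_right _ _).trans hn))
  · intro ν hν q hq hdom
    obtain ⟨r, hr, E, hE, hx⟩ := mem_fex.1 hdom q le_rfl
    have hch : ∀ y, _ := fun y => exists_bound (hE y)
    choose g hg using hch
    obtain ⟨f, hf⟩ := not_dominating (ι := ν.out) (by rw [mk_out]; exact hν) g
    obtain ⟨r1, hr1, h1⟩ := mem_fimp.1 (hx (chk _ f)) r le_rfl (isFun_chk f r)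
    obtain ⟨r2, hr2, y, h2⟩ := mem_fex.1 h1 r1 le_rfl
    obtain ⟨r3, hr3, N, h3⟩ := mem_fex.1 h2 r2 le_rfl
    obtain ⟨r4, hr4, N', h4⟩ := hg y r3 (hr3.trans (hr2.trans hr1))
    obtain ⟨n, hn, hnN⟩ := ((hf y).and_eventually (eventually_ge_atTop (max N N'))).exists
    obtain ⟨r5, hr5, b, h5⟩ := IsFun.total (down_IsFun _ _ (hE y) r4
      (hr4.trans (hr3.trans (hr2.trans hr1)))) n
    have h6 : b ≤ g y n := h4 n ((le_max_right _ _).trans hnN) r5 hr5 b h5
    have h7 := h3 n ((le_max_left _ _).trans hnN) (f n) b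
    obtain ⟨_, _, h8⟩ := mem_fimp.1 h7 r5 (hr5.trans hr4) ⟨mem_chk.2 rfl, h5⟩
    have h9 : f n ≤ b := h8
    omega

end

/-! ### The failure of the polarized relation -/

section

variable {L K : Type}

/-- the condition which says that the random real with index `k` takes the value `1` at `n` -/
noncomputable def gcond (k : L) (n : ℕ) : MA (mu L) :=
  ⟨{x | ∀ m ∈ ({n} : Finset ℕ), x (k, m) = true}, by
    have hle : sig {i : L × ℕ | i.1 = k} ≤
        (MeasurableSpace.pi : MeasurableSpace (L × ℕ → Bool)) := by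
      unfold sig
      exact iSup₂_le fun i _ => (measurable_pi_apply i).comap_le
    exact hle _ (measurableSet_cyl k true {n}), by rw [mu_cyl]; simp⟩

theorem mem_gcond {k : L} {n : ℕ} {x : L × ℕ → Bool} : x ∈ (gcond k n).s ↔ x (k, n) = true := by
  simp [gcond]

theorem measurableSet_ne (k : L) (n : ℕ) (v : Bool) :
    MeasurableSet {x : L × ℕ → Bool | x (k, n) ≠ v} := by
  have h : Measurable fun x : L × ℕ → Bool => x (k, n) := measurable_pi_apply (k, n)
  exact h (MeasurableSet.singleton v).compl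

theorem not_polarized (hK : ℵ₀ < #K) (hKL : #K ≤ #L) (p : MA (mu L)) :
    p ∈ fnot (Polarized (MA (mu L)) K ℕ) := by
  intro q0 _ hpol
  obtain ⟨e, he⟩ : ∃ e : K → L, Function.Injective e := by
    obtain ⟨e⟩ := (Cardinal.le_def _ _).1 hKL
    exact ⟨e, e.injective⟩
  let c : K → ℕ → Set (MA (mu L)) := fun k n => {gcond (e k) n}
  obtain ⟨q1, _, A, h1⟩ := mem_fex.1 (hpol c) q0 le_rfl
  obtain ⟨q2, _, B, hA, hB, h2⟩ := mem_fex.1 h1 q1 le_rfl
  obtain ⟨q, hq, h3⟩ := mem_for.1 h2 q2 le_rfl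
  replace hA := down_HasFullSize _ _ hA q hq
  replace hB := down_HasFullSize _ _ hB q hq
  -- the value of the homogeneous colour
  obtain ⟨v, hv⟩ : ∃ v : Bool, ∀ k n, ∀ r ≤ q, r ∈ meets (A k) → r ∈ meets (B n) →
      mu L (r.s ∩ {x | x (e k, n) ≠ v}) = 0 := by
    rcases h3 with h3 | h3
    · refine ⟨true, fun k n r hr hrA hrB => ?_⟩
      have hmem : r ∈ meets (c k n) := by
        refine meets_of_dense fun r' hr' => ?_
        exact mem_fimp.1 (h3 k n) r' (hr'.trans hr) ⟨down_meets _ _ hrA r' hr',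
          down_meets _ _ hrB r' hr'⟩
      by_contra hne
      obtain ⟨r1, hr1, s, hs, hrs⟩ := hmem ⟨r.s ∩ {x | x (e k, n) ≠ true}, r.meas.inter
        (measurableSet_ne (e k) n true), hne⟩
          (MA.le_of_subset Set.inter_subset_left)
      have hs' : s = gcond (e k) n := hs
      subst hs'
      apply r1.pos
      refine measure_mono_null (t := (r1.s \ (r.s ∩ {x | x (e k, n) ≠ true})) ∪
        (r1.s \ (gcond (e k) n).s)) ?_ (measure_union_null hr1 hrs)
      intro x hx
      by_cases hxe : x (e k, n) = true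
      · exact Or.inl ⟨hx, fun h => h.2 hxe⟩
      · exact Or.inr ⟨hx, fun h => hxe (mem_gcond.1 h)⟩
    · refine ⟨false, fun k n r hr hrA hrB => ?_⟩
      by_contra hne
      let r1 : MA (mu L) := ⟨r.s ∩ {x | x (e k, n) ≠ false}, r.meas.inter
        (measurableSet_ne (e k) n false), hne⟩
      have hr1 : r1 ≤ r := MA.le_of_subset Set.inter_subset_left
      obtain ⟨r2, hr2, h4⟩ := mem_fimp.1 (h3 k n) r1 (hr1.trans hr)
        ⟨down_meets _ _ hrA r1 hr1, down_meets _ _ hrB r1 hr1⟩
      refine h4 r2 le_rfl (meets_of_le rfl (hr2.trans (MA.le_of_subset ?_)))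
      intro x hx
      rw [mem_gcond]
      have := hx.2
      simpa using this
  -- the values of the name of `B` and their support
  have hsup : ∀ n, ∃ S : Set (L × ℕ), S.Countable ∧ MeasurableSet[sig S] (val (B n)) :=
    fun n => exists_support (measurableSet_val (B n))
  choose S hSc hSm using hsup
  let T : Set (L × ℕ) := ⋃ n, S n
  have hTc : T.Countable := Set.countable_iUnion hSc
  let K' : Set K := {k | ∃ n, (e k, n) ∈ T}
  have hK' : K'.Countable := by
    have h4 : K' ⊆ e ⁻¹' (Prod.fst '' T) := by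
      rintro k ⟨n, hn⟩
      exact ⟨(e k, n), hn, rfl⟩
    exact ((hTc.image _).preimage he).mono h4
  refine not_fullSize (fun ι f hι => ccc f hι) hK A q hA K' hK' fun k hk r hr hrA => ?_
  -- the contradiction for a fresh index
  have hB' : r ∈ HasFullSize B := down_HasFullSize _ _ hB r hr
  have hinf : ∀ m, mu L (r.s \ ⋃ n ∈ Set.Ici m, val (B n)) = 0 := by
    intro m
    by_contra hne
    let r1 : MA (mu L) := ⟨r.s \ ⋃ n ∈ Set.Ici m, val (B n), r.meas.diff
      (MeasurableSet.biUnion (Set.to_countable _) fun n _ => measurableSet_val _), hne⟩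
    have hr1 : r1 ≤ r := MA.le_of_subset Set.sdiff_subset
    obtain ⟨r2, hr2, n, hn, h4⟩ := exists_mem_ge (down_HasFullSize _ _ hB' r1 hr1) m
    rw [mem_meets] at h4
    apply r2.pos
    refine measure_mono_null (t := (r2.s \ r1.s) ∪ (r2.s \ val (B n))) ?_
      (measure_union_null hr2 h4)
    intro x hx
    by_cases hxn : x ∈ val (B n)
    · exact Or.inl ⟨hx, fun h => h.2 (Set.mem_iUnion₂.2 ⟨n, hn, hxn⟩)⟩
    · exact Or.inr ⟨hx, hxn⟩
  have hcon : ∀ n, mu L (r.s ∩ (val (B n) ∩ {x | x (e k, n) ≠ v})) = 0 := by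
    intro n
    by_contra hne
    let r1 : MA (mu L) := ⟨r.s ∩ (val (B n) ∩ {x | x (e k, n) ≠ v}), r.meas.inter
      ((measurableSet_val _).inter
        (measurableSet_ne (e k) n v)), hne⟩
    have hr1 : r1 ≤ r := MA.le_of_subset Set.inter_subset_left
    have hr1B : r1 ∈ meets (B n) := by
      rw [mem_meets]
      have : r1.s \ val (B n) = ∅ := Set.sdiff_eq_empty.2 fun x hx => hx.2.1
      rw [this, measure_empty]
    have h4 := hv k n r1 (hr1.trans hr) (down_meets _ _ hrA r1 hr1) hr1B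
    have h5 : r1.s ∩ {x | x (e k, n) ≠ v} = r1.s :=
      Set.inter_eq_left.2 fun x hx => hx.2.2
    rw [h5] at h4
    exact r1.pos h4
  have hzero := mu_const (e k) v (fun n => val (B n)) T
    (fun n => sig_mono (Set.subset_iUnion S n) _ (hSm n)) (fun n hn => hk ⟨n, hn⟩)
  apply r.pos
  refine measure_mono_null (t := ((⋃ m, r.s \ ⋃ n ∈ Set.Ici m, val (B n)) ∪
    (⋃ n, r.s ∩ (val (B n) ∩ {x | x (e k, n) ≠ v}))) ∪
      {x | (∀ m, ∃ n, m ≤ n ∧ x ∈ val (B n)) ∧ ∀ n, x ∈ val (B n) → x (e k, n) = v}) ?_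
    (measure_union_null (measure_union_null (measure_iUnion_null hinf)
      (measure_iUnion_null hcon)) hzero)
  intro x hx
  by_cases h1 : ∀ m, ∃ n, m ≤ n ∧ x ∈ val (B n)
  · by_cases h2 : ∀ n, x ∈ val (B n) → x (e k, n) = v
    · exact Or.inr ⟨h1, h2⟩
    · push Not at h2
      obtain ⟨n, hn, hne⟩ := h2
      exact Or.inl (Or.inr (Set.mem_iUnion.2 ⟨n, hx, hn, hne⟩))
  · push Not at h1
    obtain ⟨m, hm⟩ := h1
    refine Or.inl (Or.inl (Set.mem_iUnion.2 ⟨m, hx, fun h => ?_⟩))
    obtain ⟨n, hn, hn'⟩ := Set.mem_iUnion₂.1 h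
    exact hm n hn hn'

end

end Pool.Agent.H650R2.Rand
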