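import Mathlib

set_option autoImplicit false

/-!
# The relation `λ² → (λ², 3)²`: order types and the passage to the cofinality
-/

namespace Pool.Agent.H650R2.Sq

open Cardinal Ordinal Set

universe u

/-- The ordinal partition relation `κ → (α, β)²`: for every colouring `f` of the pairs `x < y` of
elements of `κ` with two colours there is a set `H` of order type `α` all of whose pairs get the
first colour, or a set `H` of order type `β` all of whose pairs get the second colour. -/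
def Arrow (κ α β : Ordinal.{u}) : Prop :=
  ∀ f : κ.ToType → κ.ToType → Bool,
    (∃ H : Set κ.ToType, typeLT H = α ∧ ∀ x ∈ H, ∀ y ∈ H, x < y → f x y = false) ∨
    (∃ H : Set κ.ToType, typeLT H = β ∧ ∀ x ∈ H, ∀ y ∈ H, x < y → f x y = true)

/-- a graph without triangles -/
structure TF {X : Type u} (G : X → X → Prop) : Prop where
  symm : ∀ x y, G x y → G y x
  tri : ∀ x y z, G x y → G y z → G x z → False

/-- an unbounded set -/
def Unb {I : Type u} [LinearOrder I] (H : Set I) : Prop := ∀ b, ∃ x ∈ H, b < x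

/-- the relation in terms of cardinalities -/
def Rect (lam : Cardinal.{u}) : Prop := ∀ W : Type u, #W = lam → ∀ G : W × W → W × W → Prop,
  TF G → ∃ A : Set W, #A = lam ∧ ∃ Hs : W → Set W, (∀ a ∈ A, #(Hs a) = lam) ∧
    ∀ a ∈ A, ∀ b ∈ Hs a, ∀ a' ∈ A, ∀ b' ∈ Hs a', ¬ G (a, b) (a', b')

/-- the relation in terms of unbounded sets -/
def RectO (I : Type u) [LinearOrder I] : Prop := ∀ G : I × I → I × I → Prop,
  TF G → ∃ A : Set I, Unb A ∧ ∃ Hs : I → Set I, (∀ a ∈ A, Unb (Hs a)) ∧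
    ∀ a ∈ A, ∀ b ∈ Hs a, ∀ a' ∈ A, ∀ b' ∈ Hs a', ¬ G (a, b) (a', b')

theorem ord_mk_toType (c : Cardinal.{u}) : (#c.ord.ToType).ord = typeLT c.ord.ToType := by simp

section

variable {W : Type u} [LinearOrder W] [WellFoundedLT W]

theorem mk_Iic_lt (hW : (#W).ord = typeLT W) (hinf : ℵ₀ ≤ #W) (x : W) : #(Iic x) < #W := by
  have h1 : Iic x = insert x (Iio x) := (Iio_insert).symm
  rw [h1]
  exact mk_insert_le.trans_lt (add_lt_of_lt hinf (mk_Iio_lt x hW)
    (one_lt_aleph0.trans_le hinf))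

theorem unb_of_card (hW : (#W).ord = typeLT W) (hinf : ℵ₀ ≤ #W) {H : Set W} (hH : #H = #W) :
    Unb H := by
  intro b
  by_contra hcon
  push Not at hcon
  have h1 : #H ≤ #(Iic b) := mk_le_mk_of_subset hcon
  rw [hH] at h1
  exact absurd h1 (not_le.2 (mk_Iic_lt hW hinf b))

theorem Unb.isCofinal {H : Set W} (hH : Unb H) : IsCofinal H := fun b => by
  obtain ⟨x, hx, hb⟩ := hH b
  exact ⟨x, hx, hb.le⟩

theorem card_of_unb (hreg : Order.cof W = #W) {H : Set W} (hH : Unb H) : #H = #W :=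
  le_antisymm (mk_set_le H) (hreg ▸ Order.cof_le hH.isCofinal)

theorem exists_strictMono (hW : (#W).ord = typeLT W) {A : Set W} (hA : #A = #W) :
    ∃ g : W → W, StrictMono g ∧ ∀ x, g x ∈ A := by
  have h1 : typeLT W ≤ typeLT A := by
    rw [← hW, ← hA]
    exact ord_le_type (· < · : A → A → Prop)
  obtain ⟨g⟩ := Ordinal.type_le_iff'.1 h1
  exact ⟨fun x => (g x).1, fun x y hxy => g.map_rel_iff.2 hxy, fun x => (g x).2⟩

theorem bddBelow_of_lt_cof {S : Set W} (hS : #S < Order.cof W) : ∃ b, ∀ x ∈ S, x < b := by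
  have h1 : ¬ IsCofinal S := fun h => absurd (Order.cof_le h) (not_le.2 hS)
  exact not_isCofinal_iff.1 h1

end

theorem type_range {X Y : Type u} [LinearOrder X] [WellFoundedLT X] [LinearOrder Y]
    [WellFoundedLT Y] {φ : X → Y} (hφ : StrictMono φ) : typeLT (Set.range φ) = typeLT X :=
  (OrderIso.ordinalType_congr (hφ.orderIso φ)).symm

theorem type_lex (W : Type u) [LinearOrder W] [WellFoundedLT W] :
    typeLT (W ×ₗ W) = (typeLT W) * (typeLT W) := type_prod_lex _ _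

/-- a set with three elements has order type three -/
theorem type_three {X : Type u} [LinearOrder X] [WellFoundedLT X] {x y z : X} (h : x < y)
    (h' : y < z) : typeLT ({x, y, z} : Set X) = 3 := by
  have h1 : StrictMono (fun i : ULift.{u} (Fin 3) => (![x, y, z] i.down : X)) := by
    rintro ⟨i⟩ ⟨j⟩ hij
    have hij' : i < j := hij
    fin_cases i <;> fin_cases j <;> simp_all
    exact h.trans h'
  have h2 : Set.range (fun i : ULift.{u} (Fin 3) => (![x, y, z] i.down : X)) = {x, y, z} := by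
    ext w
    simp only [mem_range, mem_insert_iff, mem_singleton_iff]
    constructor
    · rintro ⟨⟨i⟩, rfl⟩
      fin_cases i <;> simp
    · rintro (rfl | rfl | rfl)
      · exact ⟨⟨0⟩, rfl⟩
      · exact ⟨⟨1⟩, rfl⟩
      · exact ⟨⟨2⟩, rfl⟩
  have h3 := type_range h1
  rw [h2] at h3
  rw [h3, type_fintype]
  simp

/-- three elements of a set of order type three -/
theorem exists_three {X : Type u} [LinearOrder X] [WellFoundedLT X] {H : Set X}
    (hH : typeLT H = 3) : ∃ x ∈ H, ∃ y ∈ H, ∃ z ∈ H, x < y ∧ y < z := by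
  have h1 : typeLT (ULift.{u} (Fin 3)) = 3 := by
    rw [type_fintype]
    simp
  obtain ⟨e⟩ := type_eq.1 (h1.trans hH.symm)
  refine ⟨_, (e ⟨0⟩).2, _, (e ⟨1⟩).2, _, (e ⟨2⟩).2, ?_, ?_⟩
  · exact e.map_rel_iff.2 (show (0 : Fin 3) < 1 by decide)
  · exact e.map_rel_iff.2 (show (1 : Fin 3) < 2 by decide)

/-! ### From the cardinal form to the ordinal form -/

theorem arrow_of_rect {lam : Cardinal.{u}} (h : Rect lam) :
    Arrow (lam.ord * lam.ord) (lam.ord * lam.ord) 3 := by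
  intro f
  let W : Type u := lam.ord.ToType
  have hWt : typeLT W = lam.ord := type_toType _
  have hWc : #W = lam := by simp [W]
  obtain ⟨e⟩ : Nonempty (W ×ₗ W ≃o (lam.ord * lam.ord).ToType) := by
    have h1 : typeLT (W ×ₗ W) = typeLT (lam.ord * lam.ord).ToType := by
      rw [type_lex, hWt, type_toType]
    obtain ⟨e⟩ := type_eq.1 h1
    exact ⟨OrderIso.ofRelIsoLT e⟩
  let E : (lam.ord * lam.ord).ToType → (lam.ord * lam.ord).ToType → Prop :=
    fun x y => (x < y ∧ f x y = true) ∨ (y < x ∧ f y x = true)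
  have hEs : ∀ x y, E x y → E y x := fun x y h => h.symm
  have h3 : ∀ a b c, a < b → b < c → f a b = true → f b c = true → f a c = true →
      ∃ H : Set (lam.ord * lam.ord).ToType, typeLT H = 3 ∧
        ∀ x ∈ H, ∀ y ∈ H, x < y → f x y = true := by
    intro a b c hab hbc h1 h2 h3
    refine ⟨{a, b, c}, type_three hab hbc, ?_⟩
    rintro x (rfl | rfl | rfl) y (rfl | rfl | rfl) hxy
    · exact absurd hxy (lt_irrefl _)
    · exact h1
    · exact h3
    · exact absurd hxy (not_lt.2 hab.le)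
    · exact absurd hxy (lt_irrefl _)
    · exact h2
    · exact absurd hxy (not_lt.2 (hab.trans hbc).le)
    · exact absurd hxy (not_lt.2 hbc.le)
    · exact absurd hxy (lt_irrefl _)
  by_cases hT : ∃ x y z, E x y ∧ E y z ∧ E x z
  · right
    obtain ⟨x, y, z, h1, h2, h4⟩ := hT
    rcases h1 with ⟨hxy, h1⟩ | ⟨hxy, h1⟩ <;> rcases h2 with ⟨hyz, h2⟩ | ⟨hyz, h2⟩ <;>
      rcases h4 with ⟨hxz, h4⟩ | ⟨hxz, h4⟩
    · exact h3 x y z hxy hyz h1 h2 h4
    · exact absurd (hxy.trans hyz) (not_lt.2 hxz.le)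
    · exact h3 x z y hxz hyz h4 h2 h1
    · exact h3 z x y hxz hxy h4 h1 h2
    · exact h3 y x z hxy hxz h1 h4 h2
    · exact h3 y z x hyz hxz h2 h4 h1
    · exact absurd (hyz.trans hxy) (not_lt.2 hxz.le)
    · exact h3 z y x hyz hxy h2 h1 h4
  · left
    push Not at hT
    have hG : TF (fun p q : W × W => E (e (toLex p)) (e (toLex q))) :=
      ⟨fun p q h => hEs _ _ h, fun p q r h1 h2 h3 => hT _ _ _ h1 h2 h3⟩
    obtain ⟨A, hA, Hs, hHs, hind⟩ := h W hWc _ hG
    have hW : (#W).ord = typeLT W := ord_mk_toType lam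
    obtain ⟨g, hg, hgA⟩ := exists_strictMono hW (hA.trans hWc.symm)
    have hch : ∀ x : W, ∃ k : W → W, StrictMono k ∧ ∀ y, k y ∈ Hs (g x) := fun x =>
      exists_strictMono hW ((hHs _ (hgA x)).trans hWc.symm)
    choose k hk hkH using hch
    let φ : W ×ₗ W → (lam.ord * lam.ord).ToType := fun p =>
      e (toLex (g (ofLex p).1, k (ofLex p).1 (ofLex p).2))
    have hφ : StrictMono φ := by
      intro p q hpq
      refine e.strictMono ?_
      rw [Prod.Lex.lt_iff] at hpq ⊢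
      rcases hpq with hpq | ⟨hpq, hpq'⟩
      · exact Or.inl (hg hpq)
      · right
        refine ⟨by simp [hpq], ?_⟩
        have : k (ofLex p).1 (ofLex p).2 < k (ofLex p).1 (ofLex q).2 := hk _ hpq'
        simpa [hpq] using this
    refine ⟨Set.range φ, ?_, ?_⟩
    · rw [type_range hφ, type_lex, hWt]
    · rintro _ ⟨p, rfl⟩ _ ⟨q, rfl⟩ hlt
      by_contra hne
      rw [Bool.not_eq_false] at hne
      exact hind _ (hgA _) _ (hkH _ _) _ (hgA _) _ (hkH _ _) (Or.inl ⟨hlt, hne⟩)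

/-! ### Passing to the cofinality -/

/-- A set of type `λ²` projects onto a large subset of the square of the cofinality. -/
theorem project {W I : Type u} [LinearOrder W] [WellFoundedLT W] [LinearOrder I]
    [WellFoundedLT I] (hW : (#W).ord = typeLT W) (hinf : ℵ₀ ≤ #W) (π : W → I)
    (hmono : Monotone π) (hunb : ∀ i, ∃ w, i < π w)
    (hreg : ∀ S : Set I, #S < #I → ∃ b, ∀ x ∈ S, x < b) (hI : ∀ i : I, #(Iic i) < #I)
    (g : W ×ₗ W → W ×ₗ W) (hg : StrictMono g) :
    Unb {i : I | Unb {k : I | ∃ p : W ×ₗ W, π (ofLex (g p)).1 = i ∧ π (ofLex (g p)).2 = k}} := by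
  classical
  intro i0
  by_contra hcon
  push Not at hcon
  -- choose a row beyond `i0`
  obtain ⟨a0, ha0⟩ := hunb i0
  have hbd : ∀ i : I, ∃ k : I, i0 < i →
      ∀ p : W ×ₗ W, π (ofLex (g p)).1 = i → π (ofLex (g p)).2 ≤ k := by
    intro i
    by_cases hi : i0 < i
    · have h1 : ¬ Unb {k : I | ∃ p : W ×ₗ W, π (ofLex (g p)).1 = i ∧ π (ofLex (g p)).2 = k} :=
        fun h => absurd hi (not_lt.2 (hcon i h))
      unfold Unb at h1
      push Not at h1
      obtain ⟨k, hk⟩ := h1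
      exact ⟨k, fun _ p hp => hk _ ⟨p, hp, rfl⟩⟩
    · exact ⟨i, fun h => absurd h hi⟩
  choose k hk using hbd
  obtain ⟨z, hz⟩ : ∃ z : W, ∀ w, z ≤ w := by
    obtain ⟨z, _, hz⟩ := WellFounded.has_min (wellFounded_lt (α := W)) Set.univ ⟨a0, mem_univ _⟩
    exact ⟨z, fun w => not_lt.1 (hz w (mem_univ w))⟩
  obtain ⟨a1, ha1⟩ : ∃ a1 : W, a0 < a1 := by
    by_contra hno
    push Not at hno
    have h1 : #W ≤ #(Iic a0) := by
      rw [← mk_univ]
      exact mk_le_mk_of_subset fun x _ => hno x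
    exact absurd h1 (not_le.2 (mk_Iic_lt hW hinf a0))
  -- the bound of the rows up to the row of `g (a1, z)`
  set q : W ×ₗ W := g (toLex (a1, z)) with hq
  obtain ⟨kk, hkk⟩ := hreg (k '' Iic (π (ofLex q).1)) (mk_image_le.trans_lt (hI _))
  have hsub : ∀ y : W, g (toLex (a0, y)) ∈
      {p : W ×ₗ W | (ofLex p).1 ∈ Iic (ofLex q).1 ∧ (ofLex p).2 ∈ {w | π w < kk}} := by
    intro y
    have h1 : g (toLex (a0, y)) < q := by
      refine hg ?_
      rw [Prod.Lex.lt_iff]
      exact Or.inl ha1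
    have h2 : (ofLex (g (toLex (a0, y)))).1 ≤ (ofLex q).1 := by
      rw [Prod.Lex.lt_iff] at h1
      rcases h1 with h1 | ⟨h1, _⟩
      · exact h1.le
      · exact h1.le
    have h3 : toLex (a0, y) ≤ g (toLex (a0, y)) := hg.id_le _
    have h4 : a0 ≤ (ofLex (g (toLex (a0, y)))).1 := by
      rw [Prod.Lex.le_iff] at h3
      rcases h3 with h3 | ⟨h3, _⟩
      · exact h3.le
      · exact h3.le
    refine ⟨h2, ?_⟩
    have h5 := hk (π (ofLex (g (toLex (a0, y)))).1) (ha0.trans_le (hmono h4)) _ rfl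
    exact h5.trans_lt (hkk _ ⟨_, hmono h2, rfl⟩)
  have hcard1 : #W ≤ #{p : W ×ₗ W | (ofLex p).1 ∈ Iic (ofLex q).1 ∧ (ofLex p).2 ∈ {w | π w < kk}} := by
    refine mk_le_of_injective (f := fun y => ⟨g (toLex (a0, y)), hsub y⟩) ?_
    intro y y' hyy'
    have h1 : g (toLex (a0, y)) = g (toLex (a0, y')) := congrArg Subtype.val hyy'
    have h2 := hg.injective h1
    have h3 : ((a0, y) : W × W) = (a0, y') := toLex.injective h2
    exact (Prod.ext_iff.1 h3).2
  obtain ⟨w1, hw1⟩ := hunb kk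
  have hcard2 : #{p : W ×ₗ W | (ofLex p).1 ∈ Iic (ofLex q).1 ∧ (ofLex p).2 ∈ {w | π w < kk}} ≤
      #(Iic (ofLex q).1) * #(Iic w1) := by
    have h1 : #(Iic (ofLex q).1 × Iic w1) = #(Iic (ofLex q).1) * #(Iic w1) := by
      rw [mk_prod, Cardinal.lift_id, Cardinal.lift_id]
    rw [← h1]
    have h2 : ∀ w, π w < kk → w ∈ Iic w1 := by
      intro w hw
      by_contra hlt
      have h3 : w1 ≤ w := (not_le.1 hlt).le
      exact absurd ((hmono h3).trans_lt hw) (not_lt.2 hw1.le)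
    refine mk_le_of_injective (f := fun p => (⟨(ofLex p.1).1, p.2.1⟩,
      ⟨(ofLex p.1).2, h2 _ p.2.2⟩)) ?_
    intro p p' hpp'
    have h3 : (ofLex p.1).1 = (ofLex p'.1).1 := congrArg (fun z => z.1.1) hpp'
    have h4 : (ofLex p.1).2 = (ofLex p'.1).2 := congrArg (fun z => z.2.1) hpp'
    exact Subtype.ext (ofLex.injective (Prod.ext h3 h4))
  have := hcard1.trans hcard2
  exact absurd this (not_le.2 (mul_lt_of_lt hinf (mk_Iic_lt hW hinf _) (mk_Iic_lt hW hinf _)))

theorem exists_proj (W : Type u) [LinearOrder W] [WellFoundedLT W] [NoMaxOrder W] (I : Type u)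
    [LinearOrder I] [WellFoundedLT I] (hI : typeLT I = (Order.cof W).ord) :
    ∃ π : W → I, Monotone π ∧ (∀ i, ∃ w, i < π w) := by
  obtain ⟨s, hs, hst⟩ := exists_ord_cof_eq W
  classical
  obtain ⟨e⟩ := type_eq.1 (hst.trans hI.symm)
  have hmin : ∀ w : W, ∃ i : s, w ≤ i.1 ∧ ∀ j : s, w ≤ j.1 → i ≤ j := by
    intro w
    obtain ⟨y, hy, hwy⟩ := hs w
    obtain ⟨i, hi, hi'⟩ := WellFounded.has_min (wellFounded_lt (α := s)) {j | w ≤ j.1}
      ⟨⟨y, hy⟩, hwy⟩
    exact ⟨i, hi, fun j hj => not_lt.1 (hi' j hj)⟩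
  choose π hπ hπ' using hmin
  let e' : s ≃o I := OrderIso.ofRelIsoLT e
  refine ⟨fun w => e' (π w), fun w w' h => e'.monotone (hπ' w _ (h.trans (hπ w'))), fun i => ?_⟩
  obtain ⟨w, hw⟩ := exists_gt (e'.symm i).1
  refine ⟨w, ?_⟩
  have h1 : e'.symm i < π w := hw.trans_le (hπ w)
  exact (OrderIso.symm_apply_lt e').1 h1

/-- facts about the well-order of a regular cardinal -/
theorem reg_facts {mu : Cardinal.{u}} (hmu : mu.IsRegular) :
    ℵ₀ ≤ #(mu.ord.ToType) ∧ (#(mu.ord.ToType)).ord = typeLT mu.ord.ToType ∧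
    Order.cof mu.ord.ToType = #(mu.ord.ToType) ∧
    (∀ S : Set mu.ord.ToType, #S < #(mu.ord.ToType) → ∃ b, ∀ x ∈ S, x < b) := by
  have h1 : Order.cof mu.ord.ToType = #(mu.ord.ToType) := by
    rw [cof_toType, hmu.cof_ord]
    simp
  refine ⟨by simpa using hmu.aleph0_le, ord_mk_toType mu, h1, fun S hS => ?_⟩
  exact bddBelow_of_lt_cof (h1.symm ▸ hS)

/-- If `λ² → (λ², 3)²` then the relation holds for the cofinality of `λ`. -/
theorem rectO_of_arrow {lam : Cardinal.{u}} (hinf : ℵ₀ ≤ lam)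
    (h : Arrow (lam.ord * lam.ord) (lam.ord * lam.ord) 3) :
    RectO lam.ord.cof.ord.ToType := by
  classical
  intro G hG
  let W : Type u := lam.ord.ToType
  have hWt : typeLT W = lam.ord := type_toType _
  have hWc : #W = lam := by simp [W]
  have hWi : ℵ₀ ≤ #W := hWc.symm ▸ hinf
  have : NoMaxOrder W := noMaxOrder hinf
  obtain ⟨e⟩ : Nonempty (W ×ₗ W ≃o (lam.ord * lam.ord).ToType) := by
    have h1 : typeLT (W ×ₗ W) = typeLT (lam.ord * lam.ord).ToType := by
      rw [type_lex, hWt, type_toType]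
    obtain ⟨e⟩ := type_eq.1 h1
    exact ⟨OrderIso.ofRelIsoLT e⟩
  have hreg : lam.ord.cof.IsRegular := isRegular_cof (isSuccLimit_ord hinf)
  obtain ⟨hI1, hI2, hI3, hI4⟩ := reg_facts hreg
  obtain ⟨π, hπ, hπ'⟩ := exists_proj W lam.ord.cof.ord.ToType (by
    rw [type_toType, cof_toType])
  let π2 : (lam.ord * lam.ord).ToType → lam.ord.cof.ord.ToType × lam.ord.cof.ord.ToType :=
    fun x => (π (ofLex (e.symm x)).1, π (ofLex (e.symm x)).2)
  rcases h (fun x y => decide (G (π2 x) (π2 y))) with ⟨H, hH, hf⟩ | ⟨H, hH, hf⟩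
  · -- the independent set
    have h1 : typeLT (W ×ₗ W) = typeLT H := by rw [type_lex, hWt, hH]
    obtain ⟨k⟩ := type_eq.1 h1
    let k' : W ×ₗ W ≃o H := OrderIso.ofRelIsoLT k
    let g : W ×ₗ W → W ×ₗ W := fun p => e.symm (k' p).1
    have hg : StrictMono g := fun p q hpq => e.symm.strictMono (k'.strictMono hpq)
    have hproj := project (ord_mk_toType lam) hWi π hπ hπ' hI4
      (fun i => mk_Iic_lt hI2 hI1 i) g hg
    refine ⟨_, hproj, fun i => {k | ∃ p : W ×ₗ W, π (ofLex (g p)).1 = i ∧ π (ofLex (g p)).2 = k},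
      fun a ha => ha, ?_⟩
    rintro a _ b ⟨p, hp1, hp2⟩ a' _ b' ⟨p', hp1', hp2'⟩ hGab
    have h2 : π2 (k' p).1 = (a, b) := Prod.ext hp1 hp2
    have h3 : π2 (k' p').1 = (a', b') := Prod.ext hp1' hp2'
    rcases lt_trichotomy (k' p).1 (k' p').1 with hlt | heq | hgt
    · have h4 := hf _ (k' p).2 _ (k' p').2 hlt
      rw [decide_eq_false_iff_not, h2, h3] at h4
      exact h4 hGab
    · rw [heq, h3] at h2
      rw [← h2] at hGab
      exact hG.tri _ _ _ hGab hGab hGab
    · have h4 := hf _ (k' p').2 _ (k' p).2 hgt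
      rw [decide_eq_false_iff_not, h2, h3] at h4
      exact h4 (hG.symm _ _ hGab)
  · obtain ⟨x, hx, y, hy, z, hz, hxy, hyz⟩ := exists_three hH
    have h1 := hf x hx y hy hxy
    have h2 := hf y hy z hz hyz
    have h3 := hf x hx z hz (hxy.trans hyz)
    rw [decide_eq_true_iff] at h1 h2 h3
    exact (hG.tri _ _ _ h1 h2 h3).elim

/-- for a regular cardinal the two forms agree -/
theorem rect_of_rectO {mu : Cardinal.{u}} (hmu : mu.IsRegular) (h : RectO mu.ord.ToType) :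
    Rect mu := by
  intro W hW G hG
  obtain ⟨hI1, hI2, hI3, hI4⟩ := reg_facts hmu
  obtain ⟨e⟩ : Nonempty (mu.ord.ToType ≃ W) := Cardinal.eq.1 (by rw [hW]; simp)
  have hmuc : #(mu.ord.ToType) = mu := by simp
  obtain ⟨A, hA, Hs, hHs, hind⟩ := h (fun p q => G (e p.1, e p.2) (e q.1, e q.2))
    ⟨fun p q hpq => hG.symm _ _ hpq, fun p q r h1 h2 h3 => hG.tri _ _ _ h1 h2 h3⟩
  refine ⟨e '' A, ?_, fun w => e '' (Hs (e.symm w)), ?_, ?_⟩
  · rw [mk_image_eq e.injective, card_of_unb hI3 hA, hmuc]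
  · rintro _ ⟨a, ha, rfl⟩
    show #(e '' (Hs (e.symm (e a)))) = mu
    rw [e.symm_apply_apply, mk_image_eq e.injective, card_of_unb hI3 (hHs a ha), hmuc]
  · rintro _ ⟨a, ha, rfl⟩ b hb _ ⟨a', ha', rfl⟩ b' hb' hGab
    change b ∈ e '' (Hs (e.symm (e a))) at hb
    change b' ∈ e '' (Hs (e.symm (e a'))) at hb'
    rw [e.symm_apply_apply] at hb hb'
    obtain ⟨b, hb, rfl⟩ := hb
    obtain ⟨b', hb', rfl⟩ := hb'
    exact hind a ha b hb a' ha' b' hb' hGab

end Pool.Agent.H650R2.Sq
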