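import Mathlib
import Pool.Agent.H650R2.SqBase

set_option autoImplicit false

/-!
# Tools: transfinite choices, closure points, nested intervals
-/

namespace Pool.Agent.H650R2.Sq

open Cardinal Ordinal Set

universe u v

/-- transfinite choices -/
theorem exists_rec {M : Type u} [LinearOrder M] [WellFoundedLT M] {X : Type v}
    (P : (l : M) → ((m : M) → m < l → X) → X → Prop) (h : ∀ l f, ∃ x, P l f x) :
    ∃ q : M → X, ∀ l, P l (fun m _ => q m) (q l) := by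
  classical
  let q : M → X := WellFounded.fix (wellFounded_lt (α := M)) fun l f => (h l f).choose
  refine ⟨q, fun l => ?_⟩
  have h1 : q l = (h l (fun m _ => q m)).choose := by
    show WellFounded.fix _ _ l = _
    rw [WellFounded.fix_eq]
  rw [h1]
  exact (h l (fun m _ => q m)).choose_spec

section

variable {I : Type u} [LinearOrder I] [WellFoundedLT I]

/-- Closure points of prescribed cofinality. -/
theorem exists_closure (hreg : ∀ S : Set I, #S < #I → ∃ b, ∀ x ∈ S, x < b)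
    {θ : Cardinal.{u}} (hθ : θ.IsRegular) (hθI : θ < #I) (g : I → I) (b0 : I) :
    ∃ σ, b0 < σ ∧ ∀ L : Set I, #L < θ → (∀ x ∈ L, x < σ) →
      ∃ y < σ, (∀ x ∈ L, x < y) ∧ g y < σ := by
  classical
  let Θ : Type u := θ.ord.ToType
  have hΘ : #Θ = θ := by simp [Θ]
  obtain ⟨hΘ1, hΘ2, hΘ3, hΘ4⟩ := reg_facts hθ
  have hΘlt : ∀ ι : Θ, #(Iio ι) < θ := fun ι => by
    have := mk_Iio_lt ι hΘ2
    rwa [show #θ.ord.ToType = θ from hΘ] at this
  obtain ⟨x, hx⟩ := exists_rec (M := Θ) (X := I)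
    (fun ι f y => b0 < y ∧ ∀ κ (hκ : κ < ι), f κ hκ < y ∧ g (f κ hκ) < y) (by
      intro ι f
      let S : Set I := insert b0 ((Set.range fun κ : Iio ι => f κ.1 κ.2) ∪
        (Set.range fun κ : Iio ι => g (f κ.1 κ.2)))
      have hS : #S < #I := by
        refine lt_of_le_of_lt (mk_insert_le.trans (add_le_add (mk_union_le _ _) le_rfl)) ?_
        have h1 : #(Set.range fun κ : Iio ι => f κ.1 κ.2) < θ := mk_range_le.trans_lt (hΘlt ι)
        have h2 : #(Set.range fun κ : Iio ι => g (f κ.1 κ.2)) < θ := mk_range_le.trans_lt (hΘlt ι)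
        exact ((add_lt_of_lt hθ.aleph0_le (add_lt_of_lt hθ.aleph0_le h1 h2)
          (one_lt_aleph0.trans_le hθ.aleph0_le))).trans hθI
      obtain ⟨b, hb⟩ := hreg S hS
      refine ⟨b, hb _ (mem_insert _ _), fun κ hκ => ⟨hb _ ?_, hb _ ?_⟩⟩
      · exact mem_insert_of_mem _ (Or.inl ⟨⟨κ, hκ⟩, rfl⟩)
      · exact mem_insert_of_mem _ (Or.inr ⟨⟨κ, hκ⟩, rfl⟩))
  obtain ⟨b, hb⟩ := hreg (Set.range x) (mk_range_le.trans_lt (hΘ.trans_lt hθI))
  obtain ⟨σ, hσ, hmin⟩ := WellFounded.has_min (wellFounded_lt (α := I))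
    {y | ∀ ι, x ι < y} ⟨b, fun ι => hb _ ⟨ι, rfl⟩⟩
  have hσ' : ∀ ι, x ι < σ := hσ
  have hne : Nonempty Θ := by
    rw [← mk_ne_zero_iff, hΘ]
    exact hθ.ne_zero
  obtain ⟨ι0⟩ := hne
  have : NoMaxOrder Θ := noMaxOrder hθ.aleph0_le
  refine ⟨σ, (hx ι0).1.trans (hσ' ι0), fun L hL hLσ => ?_⟩
  have h1 : ∀ l : L, ∃ ι, l.1 ≤ x ι := by
    intro l
    by_contra hcon
    push Not at hcon
    exact hmin l.1 hcon (hLσ l.1 l.2)
  choose k hk using h1
  obtain ⟨ι, hι⟩ := hΘ4 (Set.range k) (mk_range_le.trans_lt (by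
    rw [show #θ.ord.ToType = θ from hΘ]; exact hL))
  refine ⟨x ι, hσ' ι, fun y hy => ?_, ?_⟩
  · exact (hk ⟨y, hy⟩).trans_lt ((hx ι).2 _ (hι _ ⟨⟨y, hy⟩, rfl⟩)).1
  · obtain ⟨ι', hι'⟩ := exists_gt ι
    exact ((hx ι').2 ι hι').2.trans (hσ' ι')

/-- `p` is an inner neighbour of `q` -/
def Inner (N : I → Set (I × I)) (p q : I × I) : Prop :=
  q.1 < p.1 ∧ p.1 < p.2 ∧ p.2 < q.2 ∧ p ∈ N q.2

theorem tf_of_inner (N : I → Set (I × I))
    (h : ∀ δ, ∀ p ∈ N δ, ∀ q ∈ N δ, q.1 < p.1 → p.2 < q.2 → p ∉ N q.2) :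
    TF fun p q => Inner N p q ∨ Inner N q p := by
  have core : ∀ p p' q, Inner N p q → Inner N p' q → Inner N p p' → False :=
    fun p p' q h1 h2 h3 => h q.2 p h1.2.2.2 p' h2.2.2.2 h3.1 h3.2.2.1 h3.2.2.2
  refine ⟨fun p q h => h.symm, fun x y z h1 h2 h3 => ?_⟩
  rcases h1 with h1 | h1 <;> rcases h2 with h2 | h2 <;> rcases h3 with h3 | h3
  · exact core x y z h3 h2 h1
  · exact lt_irrefl _ (h1.2.2.1.trans (h2.2.2.1.trans h3.2.2.1))
  · exact core x z y h1 h2 h3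
  · exact core z x y h2 h1 h3
  · exact core y x z h2 h3 h1
  · exact core y z x h1 h3 h2
  · exact lt_irrefl _ (h3.2.2.1.trans (h2.2.2.1.trans h1.2.2.1))
  · exact core z y x h3 h1 h2

end

end Pool.Agent.H650R2.Sq
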