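import Mathlib
import Pool.Agent.H650R2.SqTools

set_option autoImplicit false

/-!
# Singular cardinals: the final assembly from a canonical system of blocks
-/

namespace Pool.Agent.H650R2.Sq

open Cardinal Ordinal Set

universe u

theorem tf_of_lt {X : Type u} [LinearOrder X] (R : X → X → Prop) (hlt : ∀ x y, R x y → x < y)
    (core : ∀ x y z, R x y → R y z → R x z → False) : TF fun x y => R x y ∨ R y x := by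
  refine ⟨fun p q h => h.symm, fun x y z h1 h2 h3 => ?_⟩
  rcases h1 with h1 | h1 <;> rcases h2 with h2 | h2 <;> rcases h3 with h3 | h3
  · exact core x y z h1 h2 h3
  · exact lt_irrefl _ ((hlt _ _ h1).trans ((hlt _ _ h2).trans (hlt _ _ h3)))
  · exact core x z y h3 h2 h1
  · exact core z x y h3 h1 h2
  · exact core y x z h1 h3 h2
  · exact core y z x h2 h3 h1
  · exact lt_irrefl _ ((hlt _ _ h3).trans ((hlt _ _ h2).trans (hlt _ _ h1)))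
  · exact core z y x h2 h1 h3

/-- three elements of an infinite set with a prescribed order pattern -/
theorem exists_three_cmp {W : Type u} [LinearOrder W] {A : Set W} (hA : A.Infinite) (o : Ordering) :
    ∃ β1 ∈ A, ∃ β2 ∈ A, ∃ β3 ∈ A, cmp β1 β2 = o ∧ cmp β2 β3 = o ∧ cmp β1 β3 = o := by
  obtain ⟨F, hFA, hF⟩ := hA.exists_subset_card_eq 3
  have e := F.orderEmbOfFin hF
  have he : ∀ k, F.orderEmbOfFin hF k ∈ A := fun k => hFA (Finset.orderEmbOfFin_mem F hF k)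
  have h01 : F.orderEmbOfFin hF 0 < F.orderEmbOfFin hF 1 :=
    (F.orderEmbOfFin hF).strictMono (by decide)
  have h12 : F.orderEmbOfFin hF 1 < F.orderEmbOfFin hF 2 :=
    (F.orderEmbOfFin hF).strictMono (by decide)
  cases o with
  | lt =>
    exact ⟨_, he 0, _, he 1, _, he 2, cmp_eq_lt_iff _ _ |>.2 h01, cmp_eq_lt_iff _ _ |>.2 h12,
      cmp_eq_lt_iff _ _ |>.2 (h01.trans h12)⟩
  | eq => exact ⟨_, he 0, _, he 0, _, he 0, cmp_self_eq_eq _, cmp_self_eq_eq _, cmp_self_eq_eq _⟩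
  | gt =>
    exact ⟨_, he 2, _, he 1, _, he 0, cmp_eq_gt_iff _ _ |>.2 h12, cmp_eq_gt_iff _ _ |>.2 h01,
      cmp_eq_gt_iff _ _ |>.2 (h01.trans h12)⟩

/-- independent sets of full size in triangle-free graphs -/
theorem row_indep {μ : Cardinal.{u}} (hμ : ℵ₀ ≤ μ) (hR : Rect μ) {I : Type u} (hI : #I = μ)
    {g : I → I → Prop} (hg : TF g) (S : Set I) (hS : #S = μ) :
    ∃ M ⊆ S, #M = μ ∧ ∀ x ∈ M, ∀ y ∈ M, ¬ g x y := by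
  obtain ⟨e⟩ : Nonempty (I ≃ S) := Cardinal.eq.1 (hI.trans hS.symm)
  obtain ⟨A, hA, Hs, hHs, hind⟩ := hR I hI (fun p q => p.1 = q.1 ∧ g (e p.2) (e q.2))
    ⟨fun p q h => ⟨h.1.symm, hg.symm _ _ h.2⟩, fun p q r h1 h2 h3 => hg.tri _ _ _ h1.2 h2.2 h3.2⟩
  obtain ⟨a, ha⟩ : A.Nonempty := by
    rw [← Set.nonempty_coe_sort, ← mk_ne_zero_iff, hA]
    exact (aleph0_pos.trans_le hμ).ne'
  refine ⟨(fun x => (e x).1) '' Hs a, ?_, ?_, ?_⟩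
  · rintro _ ⟨x, _, rfl⟩
    exact (e x).2
  · rw [mk_image_eq (fun x y h => e.injective (Subtype.ext h)), hHs a ha]
  · rintro _ ⟨x, hx, rfl⟩ _ ⟨y, hy, rfl⟩ h
    exact hind a ha x hx a ha y hy ⟨rfl, h⟩

theorem assemble {lam : Cardinal.{u}} (hinf : ℵ₀ ≤ lam) (hR : Rect lam.ord.cof)
    {W : Type u} [LinearOrder W] (hW : #W = lam) {G : W × W → W × W → Prop} (hG : TF G)
    (ρ : lam.ord.cof.ord.ToType → lam.ord.cof.ord.ToType)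
    (hρ : ∀ i, #{j | ρ j = i} = lam.ord.cof)
    (A K : lam.ord.cof.ord.ToType → Set W) (hAinf : ∀ i, (A i).Infinite)
    (hKinf : ∀ j, (K j).Infinite)
    (h1 : ∀ j, ∀ α ∈ A (ρ j), ∀ α' ∈ A (ρ j), ∀ β ∈ A (ρ j), ∀ β' ∈ A (ρ j),
      ∀ ξ ∈ K j, ∀ ξ' ∈ K j, ∀ η ∈ K j, ∀ η' ∈ K j, cmp α α' = cmp β β' → cmp ξ ξ' = cmp η η' →
      G (α, ξ) (α', ξ') → G (β, η) (β', η'))
    (h2 : ∀ j j', j ≠ j' → ρ j = ρ j' → ∀ α ∈ A (ρ j), ∀ α' ∈ A (ρ j), ∀ β ∈ A (ρ j),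
      ∀ β' ∈ A (ρ j), cmp α α' = cmp β β' → ∀ ξ ∈ K j, ∀ η ∈ K j, ∀ ξ' ∈ K j', ∀ η' ∈ K j',
      G (α, ξ) (α', ξ') → G (β, η) (β', η'))
    (h3 : ∀ j j', ρ j ≠ ρ j' → ∀ α ∈ A (ρ j), ∀ β ∈ A (ρ j), ∀ α' ∈ A (ρ j'), ∀ β' ∈ A (ρ j'),
      ∀ ξ ∈ K j, ∀ η ∈ K j, ∀ ξ' ∈ K j', ∀ η' ∈ K j', G (α, ξ) (α', ξ') → G (β, η) (β', η'))
    (s : lam.ord.cof.ord.ToType → Cardinal.{u}) (hs : ∀ c < lam, ∃ j, c ≤ s j)
    (hsm : ∀ j j', j < j' → s j < s j') (hsA : ∀ i, s i ≤ #(A i)) (hsK : ∀ j, s j ≤ #(K j)) :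
    ∃ A' : Set W, #A' = lam ∧ ∃ Hs : W → Set W, (∀ a ∈ A', #(Hs a) = lam) ∧
      ∀ a ∈ A', ∀ b ∈ Hs a, ∀ a' ∈ A', ∀ b' ∈ Hs a', ¬ G (a, b) (a', b') := by
  classical
  let I : Type u := lam.ord.cof.ord.ToType
  have hreg : lam.ord.cof.IsRegular := isRegular_cof (isSuccLimit_ord hinf)
  have hIc : #I = lam.ord.cof := by simp [I]
  obtain ⟨hI1, hI2, hI3, hI4⟩ := reg_facts hreg
  -- same level
  have hsame : ∀ j, ∀ α ∈ A (ρ j), ∀ α' ∈ A (ρ j), ∀ ξ ∈ K j, ∀ ξ' ∈ K j,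
      ¬ G (α, ξ) (α', ξ') := by
    intro j α hα α' hα' ξ hξ ξ' hξ' h
    obtain ⟨b1, hb1, b2, hb2, b3, hb3, e12, e23, e13⟩ := exists_three_cmp (hAinf (ρ j)) (cmp α α')
    obtain ⟨c1, hc1, c2, hc2, c3, hc3, f12, f23, f13⟩ := exists_three_cmp (hKinf j) (cmp ξ ξ')
    exact hG.tri (b1, c1) (b2, c2) (b3, c3)
      (h1 j α hα α' hα' b1 hb1 b2 hb2 ξ hξ ξ' hξ' c1 hc1 c2 hc2 e12.symm f12.symm h)
      (h1 j α hα α' hα' b2 hb2 b3 hb3 ξ hξ ξ' hξ' c2 hc2 c3 hc3 e23.symm f23.symm h)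
      (h1 j α hα α' hα' b1 hb1 b3 hb3 ξ hξ ξ' hξ' c1 hc1 c3 hc3 e13.symm f13.symm h)
  -- the graphs on the levels of a row block
  let g0 : I → Ordering → I → I → Prop := fun i o j j' => j < j' ∧ ρ j = i ∧ ρ j' = i ∧
    ∃ α ∈ A i, ∃ α' ∈ A i, cmp α α' = o ∧ ∃ ξ ∈ K j, ∃ ξ' ∈ K j', G (α, ξ) (α', ξ')
  have hg0 : ∀ i o, TF fun j j' => g0 i o j j' ∨ g0 i o j' j := by
    intro i o
    refine tf_of_lt _ (fun x y h => h.1) ?_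
    rintro j1 j2 j3 ⟨l12, r1, r2, α, hα, α', hα', hc, ξ, hξ, ξ', hξ', e1⟩
      ⟨l23, _, r3, γ, hγ, γ', hγ', hc', ζ, hζ, ζ', hζ', e2⟩
      ⟨l13, _, _, δ, hδ, δ', hδ', hc'', χ, hχ, χ', hχ', e3⟩
    subst r1
    obtain ⟨b1, hb1, b2, hb2, b3, hb3, e12, e23, e13⟩ := exists_three_cmp (hAinf (ρ j1)) o
    obtain ⟨c1, hc1⟩ := (hKinf j1).nonempty
    obtain ⟨c2, hc2⟩ := (hKinf j2).nonempty
    obtain ⟨c3, hc3⟩ := (hKinf j3).nonempty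
    refine hG.tri (b1, c1) (b2, c2) (b3, c3) ?_ ?_ ?_
    · exact h2 j1 j2 l12.ne r2.symm α hα α' hα' b1 hb1 b2 hb2 (hc.trans e12.symm) ξ hξ c1 hc1
        ξ' hξ' c2 hc2 e1
    · refine h2 j2 j3 l23.ne (r2.trans r3.symm) γ ?_ γ' ?_ b2 ?_ b3 ?_ (hc'.trans e23.symm) ζ hζ
        c2 hc2 ζ' hζ' c3 hc3 e2
      · rwa [r2]
      · rwa [r2]
      · rwa [r2]
      · rwa [r2]
    · exact h2 j1 j3 l13.ne r3.symm δ hδ δ' hδ' b1 hb1 b3 hb3 (hc''.trans e13.symm) χ hχ c1 hc1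
        χ' hχ' c3 hc3 e3
  have hM : ∀ i : I, ∃ M : Set I, #M = lam.ord.cof ∧ (∀ j ∈ M, ρ j = i) ∧
      ∀ j ∈ M, ∀ j' ∈ M, j ≠ j' → ∀ α ∈ A i, ∀ α' ∈ A i, ∀ ξ ∈ K j, ∀ ξ' ∈ K j',
        ¬ G (α, ξ) (α', ξ') := by
    intro i
    obtain ⟨M1, hM1S, hM1, hi1⟩ := row_indep hreg.aleph0_le hR hIc (hg0 i .lt) _ (hρ i)
    obtain ⟨M2, hM2S, hM2, hi2⟩ := row_indep hreg.aleph0_le hR hIc (hg0 i .eq) _ hM1
    obtain ⟨M3, hM3S, hM3, hi3⟩ := row_indep hreg.aleph0_le hR hIc (hg0 i .gt) _ hM2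
    have hρM : ∀ j ∈ M3, ρ j = i := fun j hj => hM1S (hM2S (hM3S hj))
    have key : ∀ j ∈ M3, ∀ j' ∈ M3, j < j' → ∀ α ∈ A i, ∀ α' ∈ A i, ∀ ξ ∈ K j, ∀ ξ' ∈ K j',
        ¬ G (α, ξ) (α', ξ') := by
      intro j hj j' hj' hlt α hα α' hα' ξ hξ ξ' hξ' h
      have hg : g0 i (cmp α α') j j' := ⟨hlt, hρM j hj, hρM j' hj', α, hα, α', hα', rfl, ξ, hξ,
        ξ', hξ', h⟩
      rcases hc : cmp α α' with _ | _ | _
      · rw [hc] at hg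
        exact hi1 j (hM2S (hM3S hj)) j' (hM2S (hM3S hj')) (Or.inl hg)
      · rw [hc] at hg
        exact hi2 j (hM3S hj) j' (hM3S hj') (Or.inl hg)
      · rw [hc] at hg
        exact hi3 j hj j' hj' (Or.inl hg)
    refine ⟨M3, hM3, hρM, fun j hj j' hj' hne α hα α' hα' ξ hξ ξ' hξ' h => ?_⟩
    rcases lt_or_gt_of_ne hne with hlt | hgt
    · exact key j hj j' hj' hlt α hα α' hα' ξ hξ ξ' hξ' h
    · exact key j' hj' j hj hgt α' hα' α hα ξ' hξ' ξ hξ (hG.symm _ _ h)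
  choose M hMc hMρ hMi using hM
  have hν : ∀ i : I, Nonempty (I ≃ M i) := fun i => Cardinal.eq.1 (hIc.trans (hMc i).symm)
  let ν : ∀ i : I, I ≃ M i := fun i => (hν i).some
  have hρν : ∀ i k, ρ (ν i k).1 = i := fun i k => hMρ i _ (ν i k).2
  have h3' : ∀ i i' j j', ρ j = i → ρ j' = i' → i ≠ i' → ∀ α ∈ A i, ∀ β ∈ A i, ∀ α' ∈ A i',
      ∀ β' ∈ A i', ∀ ξ ∈ K j, ∀ η ∈ K j, ∀ ξ' ∈ K j', ∀ η' ∈ K j',
      G (α, ξ) (α', ξ') → G (β, η) (β', η') := by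
    rintro _ _ j j' rfl rfl
    exact h3 j j'
  let G' : I × I → I × I → Prop := fun p q => p.1 ≠ q.1 ∧ ∃ α ∈ A p.1, ∃ α' ∈ A q.1,
    ∃ ξ ∈ K (ν p.1 p.2).1, ∃ ξ' ∈ K (ν q.1 q.2).1, G (α, ξ) (α', ξ')
  have hG' : TF G' := by
    refine ⟨?_, ?_⟩
    · rintro p q ⟨hne, α, hα, α', hα', ξ, hξ, ξ', hξ', h⟩
      exact ⟨hne.symm, α', hα', α, hα, ξ', hξ', ξ, hξ, hG.symm _ _ h⟩
    · rintro p q t ⟨hpq, α, hα, α', hα', ξ, hξ, ξ', hξ', e1⟩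
        ⟨hqt, γ, hγ, γ', hγ', ζ, hζ, ζ', hζ', e2⟩ ⟨hpt, δ, hδ, δ', hδ', χ, hχ, χ', hχ', e3⟩
      exact hG.tri (α, ξ) (α', ξ') (γ', ζ') e1
        (h3' q.1 t.1 _ _ (hρν _ _) (hρν _ _) hqt γ hγ α' hα' γ' hγ' γ' hγ' ζ hζ ξ' hξ' ζ' hζ' ζ'
          hζ' e2)
        (h3' p.1 t.1 _ _ (hρν _ _) (hρν _ _) hpt δ hδ α hα δ' hδ' γ' hγ' χ hχ ξ hξ χ' hχ' ζ'
          hζ' e3)
  obtain ⟨D, hD, Hs, hHs, hind⟩ := hR I hIc G' hG'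
  have hbig : ∀ B : Set W, (∀ i : I, ∃ j, i < j ∧ s j ≤ #B) → #B = lam := by
    intro B hB
    refine le_antisymm ((mk_set_le B).trans hW.le) (not_lt.1 fun hlt => ?_)
    obtain ⟨j, hj⟩ := hs _ hlt
    obtain ⟨j', hjj', hj'⟩ := hB j
    exact absurd (hj.trans_lt (hsm _ _ hjj')) (not_lt.2 hj')
  have hunbD : Unb D := unb_of_card hI2 hI1 (hD.trans hIc.symm)
  refine ⟨{α | ∃ i ∈ D, α ∈ A i}, hbig _ fun i => ?_,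
    fun α => {ξ | ∃ i ∈ D, α ∈ A i ∧ ∃ k ∈ Hs i, ξ ∈ K (ν i k).1}, ?_, ?_⟩
  · obtain ⟨j, hj, hij⟩ := hunbD i
    exact ⟨j, hij, (hsA j).trans (mk_le_mk_of_subset fun α hα => ⟨j, hj, hα⟩)⟩
  · rintro α ⟨i, hi, hα⟩
    refine hbig _ fun i0 => ?_
    have hcard : #((fun k => (ν i k).1) '' Hs i) = #I := by
      rw [mk_image_eq (fun x y h => (ν i).injective (Subtype.ext h)), hHs i hi, hIc]
    obtain ⟨_, ⟨k, hk, rfl⟩, hlt⟩ := unb_of_card hI2 hI1 hcard i0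
    exact ⟨_, hlt, (hsK _).trans (mk_le_mk_of_subset fun ξ hξ => ⟨i, hi, hα, k, hk, hξ⟩)⟩
  · rintro α _ ξ ⟨i, hi, hα, k, hk, hξ⟩ α' _ ξ' ⟨i', hi', hα', k', hk', hξ'⟩ h
    by_cases hii' : i = i'
    · subst hii'
      by_cases hjj' : (ν i k).1 = (ν i k').1
      · rw [← hjj'] at hξ'
        exact hsame (ν i k).1 α (by rwa [hρν]) α' (by rwa [hρν]) ξ hξ ξ' hξ' h
      · exact hMi i _ (ν i k).2 _ (ν i k').2 hjj' α hα α' hα' ξ hξ ξ' hξ' h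
    · exact hind i hi k hk i' hi' k' hk' ⟨hii', α, hα, α', hα', ξ, hξ, ξ', hξ', h⟩

end Pool.Agent.H650R2.Sq
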