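import Mathlib
import Pool.Agent.H650R2.SqTools

set_option autoImplicit false

/-!
# The pigeonhole principle and the Erdős–Rado theorem for pairs
-/

namespace Pool.Agent.H650R2.Sq

open Cardinal Ordinal Set

universe u

theorem pigeon {X C : Type u} {κ : Cardinal.{u}} (hκ : κ.IsRegular) (S : Set X) (hS : #S = κ)
    (hC : #C < κ) (F : X → C) : ∃ Z ⊆ S, #Z = κ ∧ ∃ c, ∀ x ∈ Z, F x = c := by
  obtain ⟨c, t, ht, hcard, h⟩ := infinite_pigeonhole_set (s := S) (fun x => F x.1) κ hS.ge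
    hκ.aleph0_le (by rwa [hκ.cof_ord])
  exact ⟨t, ht, le_antisymm ((mk_le_mk_of_subset ht).trans hS.le) hcard, c, fun x hx => h hx⟩

/-- a small closed set -/
theorem exists_closed {X D : Type u} {θ : Cardinal.{u}} (hθ : ℵ₀ ≤ θ) (hD : #D ≤ θ) (S : Set X)
    (hS : S.Nonempty) (E : X → X → D) :
    ∃ Y ⊆ S, #Y ≤ 2 ^ θ ∧ ∀ A : Set X, A ⊆ Y → #A ≤ θ → ∀ x ∈ S, x ∉ A →
      ∃ y ∈ Y, y ∉ A ∧ ∀ a ∈ A, E a y = E a x := by
  classical
  obtain ⟨s0, hs0⟩ := hS
  let T : Type u := θ.ord.ToType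
  have hT : #T = θ := by simp [T]
  let Θ : Type u := (Order.succ θ).ord.ToType
  have hΘ : #Θ = Order.succ θ := by simp [Θ]
  obtain ⟨hΘ1, hΘ2, hΘ3, hΘ4⟩ := reg_facts (isRegular_succ hθ)
  have hΘlt : ∀ ι : Θ, #(Iio ι) ≤ θ := fun ι => by
    have := mk_Iio_lt ι hΘ2
    rw [show #(Order.succ θ).ord.ToType = Order.succ θ from hΘ] at this
    exact Order.lt_succ_iff.1 this
  let Wit : (T → Option X) → (T → D) → X → Prop := fun a t y =>
    y ∈ S ∧ ∀ i x, a i = some x → E x y = t i ∧ y ≠ x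
  let w : (T → Option X) → (T → D) → X := fun a t => if h : ∃ y, Wit a t y then h.choose else s0
  have hwS : ∀ a t, w a t ∈ S := by
    intro a t
    by_cases h : ∃ y, Wit a t y
    · simp only [w, dif_pos h]
      exact h.choose_spec.1
    · simp only [w, dif_neg h]
      exact hs0
  have hw : ∀ a t, (∃ y, Wit a t y) → Wit a t (w a t) := by
    intro a t h
    simp only [w, dif_pos h]
    exact h.choose_spec
  obtain ⟨Y, hY⟩ := exists_rec (M := Θ) (X := Set X)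
    (fun α f y => y = Set.range fun p : (T → Option (⋃ β : Iio α, f β.1 β.2 : Set X)) × (T → D) =>
      w (fun i => (p.1 i).map Subtype.val) p.2) (fun α f => ⟨_, rfl⟩)
  have h2θ : θ ≤ 2 ^ θ := (cantor θ).le
  have h2inf : ℵ₀ ≤ (2 : Cardinal.{u}) ^ θ := hθ.trans h2θ
  have hYc : ∀ α, #(Y α) ≤ 2 ^ θ := by
    intro α
    induction α using WellFoundedLT.induction with
    | ind α ih =>
      rw [hY α]
      refine mk_range_le.trans ?_
      have hU : #(⋃ β : Iio α, Y β.1 : Set X) ≤ 2 ^ θ := by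
        refine (mk_iUnion_le_sum_mk).trans ((Cardinal.sum_le_sum (fun β : Iio α => #(Y β.1))
          (fun _ => 2 ^ θ) fun β => ih β.1 β.2).trans ?_)
        rw [Cardinal.sum_const']
        exact (mul_le_mul' ((hΘlt α).trans h2θ) le_rfl).trans (mul_eq_self h2inf).le
      have hopt : #(Option (⋃ β : Iio α, Y β.1 : Set X)) ≤ 2 ^ θ := by
        rw [mk_option]
        exact (add_le_add hU (one_le_aleph0.trans h2inf)).trans (add_eq_self h2inf).le
      rw [mk_prod, Cardinal.lift_id, Cardinal.lift_id]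
      have e1 : #(T → Option (⋃ β : Iio α, Y β.1 : Set X)) ≤ 2 ^ θ := by
        rw [← Cardinal.power_def, hT]
        refine (Cardinal.power_le_power_right hopt).trans ?_
        rw [← Cardinal.power_mul, mul_eq_self hθ]
      have e2 : #(T → D) ≤ 2 ^ θ := by
        rw [← Cardinal.power_def, hT]
        refine (Cardinal.power_le_power_right (hD.trans h2θ)).trans ?_
        rw [← Cardinal.power_mul, mul_eq_self hθ]
      exact (mul_le_mul' e1 e2).trans (mul_eq_self h2inf).le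
  refine ⟨⋃ α, Y α, ?_, ?_, ?_⟩
  · intro y hy
    obtain ⟨α, hα⟩ := mem_iUnion.1 hy
    rw [hY α] at hα
    obtain ⟨p, rfl⟩ := hα
    exact hwS _ _
  · refine (mk_iUnion_le_sum_mk).trans ((Cardinal.sum_le_sum _ (fun _ => 2 ^ θ) hYc).trans ?_)
    rw [Cardinal.sum_const', hΘ]
    exact (mul_le_mul' (Order.succ_le_of_lt (cantor θ)) le_rfl).trans (mul_eq_self h2inf).le
  · intro A hA hAc x hx hxA
    have hch : ∀ a : A, ∃ α : Θ, a.1 ∈ Y α := fun a => mem_iUnion.1 (hA a.2)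
    choose k hk using hch
    obtain ⟨α, hα⟩ := hΘ4 (Set.range k) (mk_range_le.trans_lt (by
      rw [show #(Order.succ θ).ord.ToType = Order.succ θ from hΘ]
      exact Order.lt_succ_iff.2 hAc))
    obtain ⟨j⟩ : Nonempty (A ↪ T) := by
      rw [← Cardinal.le_def, hT]
      exact hAc
    let a' : T → Option (⋃ β : Iio α, Y β.1 : Set X) := fun i =>
      if h : ∃ a : A, j a = i then
        some ⟨h.choose.1, mem_iUnion.2 ⟨⟨k h.choose, hα _ ⟨_, rfl⟩⟩, hk _⟩⟩ else none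
    have ha' : ∀ a : A, a' (j a) = some ⟨a.1, mem_iUnion.2 ⟨⟨k a, hα _ ⟨_, rfl⟩⟩, hk _⟩⟩ := by
      intro a
      have h : ∃ b : A, j b = j a := ⟨a, rfl⟩
      have hch : h.choose = a := j.injective h.choose_spec
      simp only [a', dif_pos h]
      congr 2
      rw [hch]
    have ha'' : ∀ i z, a' i = some z → z.1 ∈ A := by
      intro i z hz
      by_cases h : ∃ b : A, j b = i
      · simp only [a', dif_pos h] at hz
        rw [← Option.some_injective _ hz]
        exact h.choose.2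
      · simp only [a', dif_neg h] at hz
        exact absurd hz (by simp)
    let a : T → Option X := fun i => (a' i).map Subtype.val
    have haA : ∀ i z, a i = some z → z ∈ A := by
      intro i z hz
      simp only [a, Option.map_eq_some_iff] at hz
      obtain ⟨z', hz', rfl⟩ := hz
      exact ha'' i z' hz'
    let t : T → D := fun i => E ((a i).getD x) x
    have hwit : Wit a t x := by
      refine ⟨hx, fun i z hz => ⟨?_, ?_⟩⟩
      · simp only [t, hz, Option.getD_some]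
      · rintro rfl
        exact hxA (haA i _ hz)
    obtain ⟨hw1, hw2⟩ := hw a t ⟨x, hwit⟩
    have haj : ∀ b : A, a (j b) = some b.1 := fun b => by simp only [a, ha' b, Option.map_some]
    refine ⟨w a t, mem_iUnion.2 ⟨α, ?_⟩, fun hmem => ?_, fun b hb => ?_⟩
    · rw [hY α]
      exact ⟨(a', t), rfl⟩
    · exact (hw2 _ _ (haj ⟨_, hmem⟩)).2 rfl
    · have h1 := (hw2 _ _ (haj ⟨b, hb⟩)).1
      rw [h1]
      simp only [t, haj ⟨b, hb⟩, Option.getD_some]

/-- The Erdős–Rado theorem for pairs. -/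
theorem erdos_rado {X C : Type u} [LinearOrder X] [WellFoundedLT X] {θ : Cardinal.{u}}
    (hθ : ℵ₀ ≤ θ) (hC : #C ≤ θ) (S : Set X) (hS : 2 ^ θ < #S) (F : X → X → C) :
    ∃ Z ⊆ S, #Z = Order.succ θ ∧ ∃ c d, ∀ x ∈ Z, F x x = d ∧ ∀ x' ∈ Z, x < x' → F x x' = c := by
  classical
  have hSne : S.Nonempty := by
    rw [← Set.nonempty_coe_sort, ← mk_ne_zero_iff]
    exact (zero_le.trans_lt hS).ne'
  have hD : #(C × C × ULift.{u} Bool) ≤ θ := by
    rw [mk_prod, mk_prod, Cardinal.lift_id, Cardinal.lift_id, Cardinal.lift_id]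
    have h2 : #(ULift.{u} Bool) ≤ θ := by
      have : #(ULift.{u} Bool) < ℵ₀ := mk_lt_aleph0
      exact this.le.trans hθ
    exact (mul_le_mul' hC (mul_le_mul' hC h2)).trans
      ((mul_le_mul' le_rfl (mul_eq_self hθ).le).trans (mul_eq_self hθ).le)
  obtain ⟨Y, hYS, hYc, hYcl⟩ := exists_closed hθ hD S hSne
    fun x y => (F x y, F x x, ULift.up (decide (x < y)))
  obtain ⟨x, hxS, hxY⟩ : ∃ x ∈ S, x ∉ Y := by
    by_contra hcon
    push Not at hcon
    exact absurd ((mk_le_mk_of_subset hcon).trans hYc) (not_le.2 hS)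
  let Θ : Type u := (Order.succ θ).ord.ToType
  have hΘ : #Θ = Order.succ θ := by simp [Θ]
  obtain ⟨hΘ1, hΘ2, hΘ3, hΘ4⟩ := reg_facts (isRegular_succ hθ)
  have hΘlt : ∀ ι : Θ, #(Iio ι) ≤ θ := fun ι => by
    have := mk_Iio_lt ι hΘ2
    rw [show #(Order.succ θ).ord.ToType = Order.succ θ from hΘ] at this
    exact Order.lt_succ_iff.1 this
  obtain ⟨y, hy⟩ := exists_rec (M := Θ) (X := X)
    (fun ξ f y => (∀ η hη, f η hη ∈ Y) → y ∈ Y ∧ ∀ η hη, y ≠ f η hη ∧
      F (f η hη) y = F (f η hη) x ∧ (f η hη < y ↔ f η hη < x)) (by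
    intro ξ f
    by_cases hf : ∀ η hη, f η hη ∈ Y
    · obtain ⟨y, hyY, hyA, hyE⟩ := hYcl (Set.range fun η : Iio ξ => f η.1 η.2) (by
        rintro _ ⟨η, rfl⟩
        exact hf _ _) (mk_range_le.trans (hΘlt ξ)) x hxS (by
        rintro ⟨η, hη⟩
        exact hxY (hη ▸ hf _ _))
      refine ⟨y, fun _ => ⟨hyY, fun η hη => ⟨fun h => hyA ⟨⟨η, hη⟩, h.symm⟩, ?_, ?_⟩⟩⟩
      · exact (Prod.ext_iff.1 (hyE _ ⟨⟨η, hη⟩, rfl⟩)).1
      · have h1 := (Prod.ext_iff.1 (Prod.ext_iff.1 (hyE _ ⟨⟨η, hη⟩, rfl⟩)).2).2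
        have h2 := congrArg ULift.down h1
        simpa using h2
    · exact ⟨x, fun h => absurd h hf⟩)
  have hyY : ∀ ξ, y ξ ∈ Y := by
    intro ξ
    induction ξ using WellFoundedLT.induction with
    | ind ξ ih => exact (hy ξ ih).1
  have hy' := fun ξ => (hy ξ fun η _ => hyY η).2
  have hyinj : Function.Injective y := by
    intro η ξ h
    rcases lt_trichotomy η ξ with h1 | h1 | h1
    · exact absurd h.symm (hy' ξ η h1).1
    · exact h1
    · exact absurd h (hy' η ξ h1).1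
  -- the pigeonhole principle
  obtain ⟨Z0, _, hZ0, c, hc⟩ := pigeon (isRegular_succ hθ) (Set.univ : Set Θ)
    (by rw [mk_univ, hΘ]) (hD.trans_lt (Order.lt_succ θ))
    (fun η => (F (y η) x, F (y η) (y η), ULift.up (decide (y η < x))))
  have hunb : Unb Z0 := unb_of_card hΘ2 hΘ1 (hZ0.trans hΘ.symm)
  have h1 : ∀ η ∈ Z0, ∀ ξ ∈ Z0, η < ξ → F (y η) (y ξ) = c.1 ∧ (y η < y ξ ↔ c.2.2.down = true) := by
    intro η hη ξ hξ hlt
    have h2 := hc η hη
    refine ⟨?_, ?_⟩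
    · rw [(hy' ξ η hlt).2.1, ← h2]
    · rw [(hy' ξ η hlt).2.2, ← h2]
      simp
  have hb : c.2.2.down = true := by
    by_contra hcon
    have hne : (y '' Z0).Nonempty := by
      obtain ⟨η, hη, _⟩ := hunb (Classical.choice (by
        rw [← mk_ne_zero_iff, hΘ]
        exact (Order.succ_ne_bot θ)))
      exact ⟨_, η, hη, rfl⟩
    obtain ⟨_, ⟨η, hη, rfl⟩, hmin⟩ := WellFounded.has_min (wellFounded_lt (α := X)) _ hne
    obtain ⟨ξ, hξ, hlt⟩ := hunb η
    have h2 : ¬ y η < y ξ := fun h => hcon ((h1 η hη ξ hξ hlt).2.1 h)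
    rcases (not_lt.1 h2).lt_or_eq with h3 | h3
    · exact hmin (y ξ) ⟨ξ, hξ, rfl⟩ h3
    · exact hlt.ne (hyinj h3).symm
  refine ⟨y '' Z0, ?_, ?_, c.1, c.2.1, ?_⟩
  · rintro _ ⟨η, _, rfl⟩
    exact hYS (hyY η)
  · rw [mk_image_eq hyinj, hZ0]
  · rintro _ ⟨η, hη, rfl⟩
    refine ⟨?_, ?_⟩
    · rw [← hc η hη]
    · rintro _ ⟨ξ, hξ, rfl⟩ hlt
      rcases lt_trichotomy η ξ with h2 | h2 | h2
      · exact (h1 η hη ξ hξ h2).1
      · subst h2
        exact absurd hlt (lt_irrefl _)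
      · exact absurd ((h1 ξ hξ η hη h2).2.2 hb) (not_lt.2 hlt.le)

end Pool.Agent.H650R2.Sq
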