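import Mathlib
import Pool.Agent.H650R2.SqER

set_option autoImplicit false

/-!
# Singular strong limit cardinals: the sizes of the blocks
-/

namespace Pool.Agent.H650R2.Sq

open Cardinal Ordinal Set

universe u

theorem sum_lt_of_lt_cof {ι : Type u} {lam : Cardinal.{u}} (hlam : ℵ₀ ≤ lam) (g : ι → Cardinal.{u})
    (hι : #ι < lam.ord.cof) (hg : ∀ i, g i < lam) : Cardinal.sum g < lam := by
  refine (Cardinal.sum_le_mk_mul_iSup g).trans_lt ?_
  exact mul_lt_of_lt hlam (hι.trans_le (cof_ord_le lam)) (iSup_lt_of_lt_cof_ord hι hg)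

/-- the successor of the double exponential -/
noncomputable def P2 (c : Cardinal.{u}) : Cardinal.{u} :=
  Order.succ ((2 : Cardinal.{u}) ^ ((2 : Cardinal.{u}) ^ c))

theorem exists_sizes {lam : Cardinal.{u}} (hinf : ℵ₀ ≤ lam) (hsing : lam.ord.cof < lam)
    (hlim : ∀ c < lam, (2 : Cardinal.{u}) ^ c < lam) :
    ∃ s a b : lam.ord.cof.ord.ToType → Cardinal.{u}, (∀ j, lam.ord.cof ≤ s j) ∧
      (∀ j, a j = P2 (s j)) ∧ (∀ j, b j = P2 (a j)) ∧ (∀ j, b j < lam) ∧
      (∀ j, Cardinal.sum (fun j' : Iio j => b j'.1) ≤ s j) ∧ (∀ c < lam, ∃ j, c ≤ s j) := by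
  classical
  set μ := lam.ord.cof with hμ
  let I : Type u := μ.ord.ToType
  have hreg : μ.IsRegular := isRegular_cof (isSuccLimit_ord hinf)
  have hIc : #I = μ := by simp [I]
  obtain ⟨hI1, hI2, hI3, hI4⟩ := reg_facts hreg
  have hIlt : ∀ j : I, #(Iio j) < μ := fun j => by
    have := mk_Iio_lt j hI2
    rwa [show #μ.ord.ToType = μ from hIc] at this
  have hsucc : ∀ c < lam, Order.succ c < lam := fun c hc =>
    (Order.succ_le_of_lt (cantor c)).trans_lt (hlim c hc)
  -- a cofinal sequence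
  obtain ⟨f, hf1, hf2⟩ : ∃ f : I → Cardinal.{u}, (∀ j, f j < lam) ∧ ∀ c < lam, ∃ j, c ≤ f j := by
    let W : Type u := lam.ord.ToType
    obtain ⟨t, ht, htt⟩ := exists_ord_cof_eq W
    have h1 : typeLT I = typeLT t := by
      rw [htt, type_toType, cof_toType]
    obtain ⟨e⟩ := type_eq.1 h1
    refine ⟨fun j => #(Iio (e j).1), fun j => ?_, fun c hc => ?_⟩
    · have := mk_Iio_lt (e j).1 (ord_mk_toType lam)
      rwa [mk_ord_toType] at this
    · have h2 : c.ord < typeLT W := by
        rw [type_toType]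
        exact ord_lt_ord.2 hc
      let w : W := Ordinal.enum (α := W) (· < ·) ⟨c.ord, h2⟩
      have hw : #(Iio w) = c := by
        have h3 : Ordinal.typein (α := W) (· < ·) w = c.ord := Ordinal.typein_enum _ h2
        have h4 := congrArg Ordinal.card h3
        rw [card_ord] at h4
        rw [← h4]
        rfl
      obtain ⟨d, hd, hwd⟩ := ht w
      refine ⟨e.symm ⟨d, hd⟩, ?_⟩
      show c ≤ #(Iio (e (e.symm ⟨d, hd⟩)).1)
      rw [e.apply_symm_apply, ← hw]
      exact mk_le_mk_of_subset (Iio_subset_Iio hwd)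
  obtain ⟨b, hb⟩ := exists_rec (M := I) (X := Cardinal.{u})
    (fun j g y => y = P2 (P2 (μ + f j + Cardinal.sum (fun j' : Iio j => g j'.1 j'.2))))
    (fun j g => ⟨_, rfl⟩)
  have hBlt : ∀ c < lam, P2 c < lam := fun c hc => hsucc _ (hlim _ (hlim _ hc))
  have hblt : ∀ j, b j < lam := by
    intro j
    induction j using WellFoundedLT.induction with
    | ind j ih =>
      rw [hb j]
      refine hBlt _ (hBlt _ (add_lt_of_lt hinf (add_lt_of_lt hinf hsing (hf1 j)) ?_))
      exact sum_lt_of_lt_cof hinf _ (hIlt j) fun j' => ih j'.1 j'.2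
  refine ⟨fun j => μ + f j + Cardinal.sum (fun j' : Iio j => b j'.1), _, b, fun j => ?_,
    fun j => rfl, fun j => hb j, hblt, fun j => ?_, fun c hc => ?_⟩
  · exact (self_le_add_right _ _).trans (self_le_add_right _ _)
  · exact self_le_add_left _ _
  · obtain ⟨j, hj⟩ := hf2 c hc
    exact ⟨j, hj.trans ((self_le_add_left _ _).trans (self_le_add_right _ _))⟩

end Pool.Agent.H650R2.Sq
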