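import Mathlib
import Pool.Agent.H650R2.SqTools

set_option autoImplicit false

/-!
# Successor cardinals: the negative relation when `2 ^ μ = μ⁺`
-/

namespace Pool.Agent.H650R2.Sq

open Cardinal Ordinal Set

universe u

section

variable {I : Type u} [LinearOrder I] [WellFoundedLT I]

/-- at most one point per row -/
def One (x : Set (I × I)) : Prop := ∀ a b b', (a, b) ∈ x → (a, b') ∈ x → b = b'

/-- the set `X` of pairs has large rows, cofinally often below `σ`, relative to the size `c` -/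
def Good (c : Cardinal.{u}) (σ : I) (X : Set (I × I)) : Prop :=
  ∀ L : Set I, #L ≤ c → (∀ x ∈ L, x < σ) → ∃ a < σ, (∀ x ∈ L, x < a) ∧
    c < #{b | a < b ∧ b < σ ∧ (a, b) ∈ X}

variable {M : Type u} [LinearOrder M] [WellFoundedLT M]

/-- the choice of one set `N δ` -/
theorem exists_step (δ : I) (h : Iio δ → M) (hinj : Function.Injective h)
    (S : I → M → I) (X : I → M → Set (I × I)) (N : (b : I) → b < δ → Set (I × I))
    (hN : ∀ b hb, One (N b hb)) :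
    ∃ x : Set (I × I), (∀ p ∈ x, p.1 < p.2 ∧ p.2 < δ) ∧ One x ∧
      (∀ p ∈ x, ∀ q ∈ x, q.1 < p.1 → p.2 < q.2 → ∀ hq : q.2 < δ, p ∉ N q.2 hq) ∧
      ∀ ξ (hξ : ξ < δ), S ξ (h ⟨ξ, hξ⟩) ≤ δ →
        Good #(Iio (h ⟨ξ, hξ⟩)) (S ξ (h ⟨ξ, hξ⟩)) (X ξ (h ⟨ξ, hξ⟩)) →
        ∃ p ∈ x, p ∈ X ξ (h ⟨ξ, hξ⟩) ∧ p.2 < S ξ (h ⟨ξ, hξ⟩) := by
  classical
  -- the task at `l`
  let Task : M → I → Prop := fun l ξ => ∃ hξ : ξ < δ, h ⟨ξ, hξ⟩ = l ∧ S ξ l ≤ δ ∧
    Good #(Iio l) (S ξ l) (X ξ l)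
  have huniq : ∀ l ξ ξ', Task l ξ → Task l ξ' → ξ = ξ' := by
    rintro l ξ ξ' ⟨hξ, h1, _⟩ ⟨hξ', h2, _⟩
    exact congrArg Subtype.val (hinj (h1.trans h2.symm))
  obtain ⟨q, hq⟩ := exists_rec (M := M) (X := Option (I × I))
    (fun l f y => (∀ p, y = some p → ∃ ξ, Task l ξ ∧ p.1 < p.2 ∧ p.2 < S ξ l ∧ p ∈ X ξ l ∧
      ∀ m (hm : m < l) p', f m hm = some p' → (p'.1 < S ξ l → p'.1 < p.1) ∧
        ∀ hb : p'.2 < δ, p ∉ N p'.2 hb) ∧ (∀ ξ, Task l ξ → y ≠ none)) (by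
    intro l f
    by_cases ht : ∃ ξ, Task l ξ
    · obtain ⟨ξ, hξ⟩ := ht
      obtain ⟨hξδ, hl, hS, hgood⟩ := id hξ
      let L : Set I := {x | ∃ m : Iio l, ∃ p', f m.1 m.2 = some p' ∧ p'.1 = x ∧ x < S ξ l}
      have hL : #L ≤ #(Iio l) := by
        have h1 : L ⊆ Set.range fun m : Iio l => ((f m.1 m.2).getD (δ, δ)).1 := by
          rintro x ⟨m, p', hp', rfl, _⟩
          exact ⟨m, by simp [hp']⟩
        exact (mk_le_mk_of_subset h1).trans mk_range_le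
      obtain ⟨a, haσ, haL, hrow⟩ := hgood L hL (fun x ⟨_, _, _, _, hx⟩ => hx)
      -- the forbidden elements of the row
      let F : Set I := {b | ∃ m : Iio l, ∃ p', f m.1 m.2 = some p' ∧ ∃ hb : p'.2 < δ,
        (a, b) ∈ N p'.2 hb}
      have hF : #F ≤ #(Iio l) := by
        have h1 : ∀ b : F, ∃ m : Iio l, ∃ p', f m.1 m.2 = some p' ∧ ∃ hb : p'.2 < δ,
          (a, b.1) ∈ N p'.2 hb := fun b => b.2
        choose m p' hp' hb hN' using h1
        refine mk_le_of_injective (f := m) fun b b' hbb' => ?_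
        have h2 : p' b = p' b' := by
          have h3 := hp' b
          rw [hbb', hp' b'] at h3
          exact (Option.some_injective _ h3).symm
        apply Subtype.ext
        have h4 := hN' b
        have h5 := hN' b'
        have h6 : ∀ (c c' : I) (hc : c < δ) (hc' : c' < δ), c = c' → (a, b.1) ∈ N c hc →
            (a, b'.1) ∈ N c' hc' → b.1 = b'.1 := by
          intro c c' hc hc' hcc'
          subst hcc'
          exact fun h7 h8 => hN c hc _ _ _ h7 h8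
        exact h6 _ _ _ _ (by rw [h2]) h4 h5
      obtain ⟨b, hb, hbF⟩ : ∃ b ∈ {b | a < b ∧ b < S ξ l ∧ (a, b) ∈ X ξ l}, b ∉ F := by
        by_contra hcon
        push Not at hcon
        exact absurd ((mk_le_mk_of_subset hcon).trans hF) (not_le.2 hrow)
      refine ⟨some (a, b), ?_, fun _ _ => by simp⟩
      rintro p hp
      have hp' : p = (a, b) := (Option.some_injective _ hp).symm
      subst hp'
      refine ⟨ξ, hξ, hb.1, hb.2.1, hb.2.2, fun m hm p' hp' => ⟨fun h1 => ?_, fun hb' hmem => ?_⟩⟩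
      · exact haL _ ⟨⟨m, hm⟩, p', hp', rfl, h1⟩
      · exact hbF ⟨⟨m, hm⟩, p', hp', hb', hmem⟩
    · exact ⟨none, fun p hp => by simp at hp, fun ξ hξ => absurd ⟨ξ, hξ⟩ ht⟩)
  refine ⟨{p | ∃ l, q l = some p}, ?_, ?_, ?_, ?_⟩
  · rintro p ⟨l, hl⟩
    obtain ⟨ξ, ⟨_, _, hS, _⟩, h1, h2, _⟩ := (hq l).1 p hl
    exact ⟨h1, h2.trans_le hS⟩
  · rintro a b b' ⟨l, hl⟩ ⟨l', hl'⟩
    rcases lt_trichotomy l l' with hll | hll | hll
    · obtain ⟨ξ, _, h1, h2, _, h3⟩ := (hq l').1 _ hl'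
      have h4 := (h3 l hll _ hl).1 (h1.trans h2)
      exact absurd h4 (lt_irrefl _)
    · subst hll
      rw [hl] at hl'
      exact (Prod.ext_iff.1 (Option.some_injective _ hl')).2
    · obtain ⟨ξ, _, h1, h2, _, h3⟩ := (hq l).1 _ hl
      have h4 := (h3 l' hll _ hl').1 (h1.trans h2)
      exact absurd h4 (lt_irrefl _)
  · rintro p ⟨l, hl⟩ p' ⟨l', hl'⟩ h1 h2 hqδ hmem
    -- `p'` is outer, `p` is inner
    rcases lt_trichotomy l l' with hll | hll | hll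
    · -- `p` was chosen first
      obtain ⟨ξ, _, h3, h4, _, h5⟩ := (hq l').1 _ hl'
      obtain ⟨ξ0, ⟨_, _, hS0, _⟩, h30, h40, _⟩ := (hq l).1 _ hl
      have h6 := (h5 l hll _ hl).1 (h30.trans (h2.trans h4))
      exact lt_irrefl _ (h6.trans h1)
    · subst hll
      rw [hl] at hl'
      have := Option.some_injective _ hl'
      subst this
      exact lt_irrefl _ h1
    · obtain ⟨ξ, _, h3, h4, _, h5⟩ := (hq l).1 _ hl
      exact (h5 l' hll _ hl').2 hqδ hmem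
  · intro ξ hξ hS hgood
    have ht : Task (h ⟨ξ, hξ⟩) ξ := ⟨hξ, rfl, hS, hgood⟩
    obtain ⟨p, hp⟩ := Option.ne_none_iff_exists'.1 ((hq _).2 ξ ht)
    obtain ⟨ξ', hξ', h1, h2, h3, _⟩ := (hq _).1 p hp
    have := huniq _ _ _ hξ' ht
    subst this
    exact ⟨p, ⟨_, hp⟩, h3, h2⟩

end

/-- a list of all sequences of bounded sets -/
theorem exists_tasks {μ : Cardinal.{u}} (hμ : ℵ₀ ≤ μ) (h2 : (2 : Cardinal.{u}) ^ μ = Order.succ μ) :
    ∃ t : (Order.succ μ).ord.ToType → μ.ord.ToType →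
      (Order.succ μ).ord.ToType × Set ((Order.succ μ).ord.ToType × (Order.succ μ).ord.ToType),
      ∀ F : μ.ord.ToType →
        (Order.succ μ).ord.ToType × Set ((Order.succ μ).ord.ToType × (Order.succ μ).ord.ToType),
        (∀ l, ∀ p ∈ (F l).2, p.1 < (F l).1 ∧ p.2 < (F l).1) → ∃ ξ, t ξ = F := by
  classical
  set I : Type u := (Order.succ μ).ord.ToType with hI
  set M : Type u := μ.ord.ToType with hM
  have hIc : #I = Order.succ μ := by simp [I]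
  have hMc : #M = μ := by simp [M]
  obtain ⟨hI1, hI2, hI3, hI4⟩ := reg_facts (isRegular_succ hμ)
  have hIio : ∀ x : I, #(Iio x) ≤ μ := fun x => by
    have := mk_Iio_lt x hI2
    rw [show #(Order.succ μ).ord.ToType = Order.succ μ from hIc] at this
    exact Order.lt_succ_iff.1 this
  let B : Type u := Σ σ : I, Set (Iio σ × Iio σ)
  have hB : #B ≤ Order.succ μ := by
    have h1 : #B = Cardinal.sum fun σ : I => #(Set (Iio σ × Iio σ)) := mk_sigma _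
    rw [h1]
    refine (Cardinal.sum_le_sum _ (fun _ => Order.succ μ) fun σ => ?_).trans ?_
    · rw [mk_set]
      refine (Cardinal.power_le_power_left two_ne_zero ?_).trans h2.le
      rw [mk_prod, Cardinal.lift_id]
      exact (mul_le_mul' (hIio σ) (hIio σ)).trans (mul_eq_self hμ).le
    · rw [Cardinal.sum_const', hIc]
      exact (mul_eq_self (hμ.trans (Order.le_succ μ))).le
  have hMB : #(M → B) ≤ #I := by
    have h1 : #(M → B) = #B ^ #M := by simp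
    rw [h1, hMc, hIc]
    calc #B ^ μ ≤ (Order.succ μ) ^ μ := Cardinal.power_le_power_right hB
      _ = (2 ^ μ) ^ μ := by rw [h2]
      _ = 2 ^ (μ * μ) := (Cardinal.power_mul).symm
      _ = Order.succ μ := by rw [mul_eq_self hμ, h2]
  have hne : Nonempty I := by
    rw [← mk_ne_zero_iff, hIc]
    exact (Order.succ_ne_bot μ)
  obtain ⟨i0⟩ := hne
  have : Nonempty (M → B) := ⟨fun _ => ⟨i0, ∅⟩⟩
  obtain ⟨⟨r, hr⟩⟩ := hMB
  let s : I → (M → B) := Function.invFun r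
  have hs : ∀ F, ∃ ξ, s ξ = F := fun F => ⟨r F, Function.leftInverse_invFun hr F⟩
  let dec : B → I × Set (I × I) := fun b => (b.1, {p | ∃ (h : p.1 < b.1) (h' : p.2 < b.1),
    ((⟨p.1, h⟩ : Iio b.1), (⟨p.2, h'⟩ : Iio b.1)) ∈ b.2})
  refine ⟨fun ξ l => dec (s ξ l), fun F hF => ?_⟩
  obtain ⟨ξ, hξ⟩ := hs fun l => ⟨(F l).1, {p | (p.1.1, p.2.1) ∈ (F l).2}⟩
  refine ⟨ξ, ?_⟩
  funext l
  show dec (s ξ l) = F l
  rw [hξ]
  refine Prod.ext rfl ?_
  ext p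
  constructor
  · rintro ⟨h, h', hp⟩
    exact hp
  · intro hp
    exact ⟨(hF l p hp).1, (hF l p hp).2, hp⟩

/-- If `2 ^ μ = μ⁺` then the relation fails for `μ⁺`. -/
theorem not_rectO_succ {μ : Cardinal.{u}} (hμ : ℵ₀ ≤ μ)
    (h2 : (2 : Cardinal.{u}) ^ μ = Order.succ μ) : ¬ RectO (Order.succ μ).ord.ToType := by
  classical
  let I : Type u := (Order.succ μ).ord.ToType
  let M : Type u := μ.ord.ToType
  obtain ⟨t, ht⟩ : ∃ t : I → M → I × Set (I × I), ∀ F : M → I × Set (I × I),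
      (∀ l, ∀ p ∈ (F l).2, p.1 < (F l).1 ∧ p.2 < (F l).1) → ∃ ξ, t ξ = F := exists_tasks hμ h2
  have hIc : #I = Order.succ μ := by simp [I]
  have hMc : #M = μ := by simp [M]
  obtain ⟨hI1, hI2, hI3, hI4⟩ := reg_facts (isRegular_succ hμ)
  have hIio : ∀ x : I, #(Iio x) ≤ μ := fun x => by
    have := mk_Iio_lt x hI2
    rw [show #(Order.succ μ).ord.ToType = Order.succ μ from hIc] at this
    exact Order.lt_succ_iff.1 this
  have hMlt : ∀ l : M, #(Iio l) < μ := fun l => by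
    have := mk_Iio_lt l (ord_mk_toType μ)
    rwa [show #μ.ord.ToType = μ from hMc] at this
  have hbdd : ∀ S : Set I, #S ≤ μ → ∃ b, ∀ x ∈ S, x < b := fun S hS =>
    hI4 S (by rw [show #(Order.succ μ).ord.ToType = Order.succ μ from hIc]
              exact Order.lt_succ_iff.2 hS)
  have hh : ∀ δ : I, ∃ h : Iio δ → M, Function.Injective h := fun δ => by
    have h1 : #(Iio δ) ≤ #M := (hIio δ).trans hMc.ge
    obtain ⟨h⟩ := (Cardinal.le_def _ _).1 h1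
    exact ⟨h, h.injective⟩
  choose h hinj using hh
  obtain ⟨N, hN⟩ := exists_rec (M := I) (X := Set (I × I))
    (fun δ f x => (∀ b hb, One (f b hb)) → (∀ p ∈ x, p.1 < p.2 ∧ p.2 < δ) ∧ One x ∧
      (∀ p ∈ x, ∀ q ∈ x, q.1 < p.1 → p.2 < q.2 → ∀ hq : q.2 < δ, p ∉ f q.2 hq) ∧
      ∀ ξ (hξ : ξ < δ), (t ξ (h δ ⟨ξ, hξ⟩)).1 ≤ δ →
        Good #(Iio (h δ ⟨ξ, hξ⟩)) (t ξ (h δ ⟨ξ, hξ⟩)).1 (t ξ (h δ ⟨ξ, hξ⟩)).2 →
        ∃ p ∈ x, p ∈ (t ξ (h δ ⟨ξ, hξ⟩)).2 ∧ p.2 < (t ξ (h δ ⟨ξ, hξ⟩)).1) (by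
    intro δ f
    by_cases hf : ∀ b hb, One (f b hb)
    · obtain ⟨x, hx⟩ := exists_step δ (h δ) (hinj δ) (fun ξ l => (t ξ l).1)
        (fun ξ l => (t ξ l).2) f hf
      exact ⟨x, fun _ => hx⟩
    · exact ⟨∅, fun h => absurd h hf⟩)
  have hOne : ∀ δ, One (N δ) := by
    intro δ
    induction δ using WellFoundedLT.induction with
    | ind δ ih => exact (hN δ (fun b hb => ih b hb)).2.1
  have hN' := fun δ => hN δ fun b _ => hOne b
  intro hR
  obtain ⟨A, hA, Hs, hHs, hind⟩ := hR _ (tf_of_inner N fun δ p hp q hq h1 h2 =>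
    (hN' δ).2.2.1 p hp q hq h1 h2 ((hN' δ).1 q hq).2)
  have hneI : Nonempty I := by
    rw [← mk_ne_zero_iff, hIc]
    exact (Order.succ_ne_bot μ)
  obtain ⟨i0⟩ := hneI
  obtain ⟨γ, hγ, _⟩ := hA i0
  let H : Set (I × I) := {p | p.1 ∈ A ∧ p.2 ∈ Hs p.1 ∧ γ < p.1 ∧ p.1 < p.2}
  -- bounds for the rows
  have hg : ∀ y : I, ∃ z, ∃ a ∈ A, y < a ∧ a < z ∧ γ < a ∧ μ ≤ #{b | b ∈ Hs a ∧ a < b ∧ b < z} := by
    intro y
    obtain ⟨a, ha, hya⟩ := hA (max y γ)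
    have h1 : Unb {b | b ∈ Hs a ∧ a < b} := by
      intro b
      obtain ⟨x, hx, hbx⟩ := hHs a ha (max a b)
      exact ⟨x, ⟨hx, (le_max_left _ _).trans_lt hbx⟩, (le_max_right _ _).trans_lt hbx⟩
    have h3 : #{b | b ∈ Hs a ∧ a < b} = Order.succ μ := (card_of_unb hI3 h1).trans hIc
    obtain ⟨s, hs, hsc⟩ := le_mk_iff_exists_subset.1 ((Order.le_succ μ).trans h3.ge)
    obtain ⟨z, hz⟩ := hbdd (insert a s) (mk_insert_le.trans (by
      rw [hsc]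
      exact (add_le_add le_rfl (one_le_aleph0.trans hμ)).trans (add_eq_self hμ).le))
    refine ⟨z, a, ha, (le_max_left _ _).trans_lt hya, hz a (mem_insert _ _),
      (le_max_right _ _).trans_lt hya, ?_⟩
    exact hsc.ge.trans (mk_le_mk_of_subset fun b hb =>
      ⟨(hs hb).1, (hs hb).2, hz b (mem_insert_of_mem _ hb)⟩)
  choose g hg using hg
  -- closure points
  have hσ : ∀ l : M, ∃ σ : I, Good #(Iio l) σ {p | p ∈ H ∧ p.1 < σ ∧ p.2 < σ} := by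
    intro l
    obtain ⟨θ, hθ, hlθ, hθμ⟩ : ∃ θ : Cardinal.{u}, θ.IsRegular ∧ #(Iio l) < θ ∧ θ ≤ μ := by
      rcases lt_or_ge #(Iio l) ℵ₀ with h1 | h1
      · exact ⟨ℵ₀, isRegular_aleph0, h1, hμ⟩
      · exact ⟨_, isRegular_succ h1, Order.lt_succ _, Order.succ_le_of_lt (hMlt l)⟩
    obtain ⟨σ, _, hσ⟩ := exists_closure (I := I) hI4 hθ
      (by rw [hIc]; exact Order.lt_succ_iff.2 hθμ) g i0
    refine ⟨σ, fun L hL hLσ => ?_⟩
    obtain ⟨y, hyσ, hLy, hgy⟩ := hσ L (hL.trans_lt hlθ) hLσ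
    obtain ⟨a, ha, hya, haz, hγa, hcard⟩ := hg y
    refine ⟨a, haz.trans hgy, fun x hx => (hLy x hx).trans hya, (hMlt l).trans_le (hcard.trans ?_)⟩
    refine mk_le_mk_of_subset fun b hb => ⟨hb.2.1, hb.2.2.trans hgy, ?_⟩
    exact ⟨⟨ha, hb.1, hγa, hb.2.1⟩, haz.trans hgy, hb.2.2.trans hgy⟩
  choose σ hσ using hσ
  obtain ⟨ξ, hξ⟩ := ht (fun l => (σ l, {p | p ∈ H ∧ p.1 < σ l ∧ p.2 < σ l}))
    fun l p hp => ⟨hp.2.1, hp.2.2⟩
  obtain ⟨b, hb⟩ := hbdd (Set.range σ) (mk_range_le.trans hMc.le)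
  obtain ⟨δ, hδ, hδ'⟩ := hHs γ hγ (max (max ξ b) γ)
  have hξδ : ξ < δ := (le_max_left _ _).trans_lt ((le_max_left _ _).trans_lt hδ')
  have hbδ : b < δ := (le_max_right _ _).trans_lt ((le_max_left _ _).trans_lt hδ')
  have h5 := (hN' δ).2.2.2 ξ hξδ
  rw [hξ] at h5
  obtain ⟨p, hp, hpX, hpσ⟩ := h5 ((hb _ ⟨_, rfl⟩).trans hbδ).le (hσ _)
  have hpH : p ∈ H := hpX.1
  refine hind p.1 hpH.1 p.2 hpH.2.1 γ hγ δ hδ (Or.inl ⟨hpH.2.2.1, hpH.2.2.2, ?_, hp⟩)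
  exact ((hN' δ).1 p hp).2

end Pool.Agent.H650R2.Sq
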