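import Mathlib
import Pool.Agent.H650R2.SqSucc

set_option autoImplicit false

/-!
# Regular cardinals with a nonreflecting stationary set which carries a diamond sequence
-/

namespace Pool.Agent.H650R2.Sq

open Cardinal Ordinal Set

universe u

section

variable {I : Type u} [LinearOrder I] [WellFoundedLT I]

/-- limit elements -/
def IsLim (x : I) : Prop := (∃ y, y < x) ∧ ∀ y < x, ∃ z, y < z ∧ z < x

/-- the set `X` of pairs has infinite rows cofinally often below `σ` -/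
def GoodI (σ : I) (X : Set (I × I)) : Prop :=
  ∀ c < σ, ∃ a, c < a ∧ a < σ ∧ {b | a < b ∧ b < σ ∧ (a, b) ∈ X}.Infinite

/-- gaps of a closed unbounded set -/
theorem exists_gaps {ε : I} (hε : IsLim ε) (C : Set I) (hCε : ∀ c ∈ C, c < ε)
    (hCcof : ∀ y < ε, ∃ c ∈ C, y < c)
    (hCcl : ∀ t : Set I, t ⊆ C → t.Nonempty → ∀ x < ε, IsLUB t x → x ∈ C)
    (nx : I → I) (hnx : ∀ y < ε, y < nx y ∧ nx y < ε) :
    ∃ (Θ : Type u) (_ : LinearOrder Θ) (c : Θ → I), (∀ i, c i ∈ C) ∧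
      (∀ i j : Θ, i < j → nx (c i) ≤ c j) ∧ (∀ y < ε, ∃ i, y < c i) ∧ (∀ i : Θ, ∃ j, i < j) ∧
      ∀ y < ε, (∃ x ∈ C, x ≤ y) → ∃ i, c i ≤ y ∧ ∀ j : Θ, i < j → y < c j := by
  classical
  obtain ⟨s, hs, hst⟩ := exists_ord_cof_eq (Iio ε)
  have hne : Nonempty (Iio ε) := by
    obtain ⟨y, hy⟩ := hε.1
    exact ⟨⟨y, hy⟩⟩
  have hnomax : NoMaxOrder (Iio ε) := ⟨fun a => by
    obtain ⟨z, hz, hz'⟩ := hε.2 a.1 a.2
    exact ⟨⟨z, hz'⟩, hz⟩⟩
  have hcof : ℵ₀ ≤ Order.cof (Iio ε) := Order.aleph0_le_cof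
  have hsc : #s = Order.cof (Iio ε) := by
    have := congrArg Ordinal.card hst
    rwa [card_type, card_ord] at this
  have hsW : (#s).ord = typeLT s := by rw [hst, hsc]
  have hsnm : NoMaxOrder s := ⟨fun a => by
    obtain ⟨b, hb⟩ := exists_gt a.1
    obtain ⟨d, hd, hbd⟩ := hs b
    exact ⟨⟨d, hd⟩, hb.trans_le hbd⟩⟩
  -- the recursion
  obtain ⟨c, hc⟩ := exists_rec (M := s) (X := I)
    (fun i f y => (∀ j hj, f j hj < ε) → y ∈ C ∧ (∀ j hj, nx (f j hj) ≤ y ∧ j.1.1 < y) ∧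
      ∀ z ∈ C, (∀ j hj, nx (f j hj) ≤ z ∧ j.1.1 < z) → y ≤ z) (by
    intro i f
    by_cases hf : ∀ j hj, f j hj < ε
    · let T : Set (Iio ε) := (Set.range fun j : Iio i => ⟨nx (f j.1 j.2), (hnx _ (hf _ _)).2⟩) ∪
        (Set.range fun j : Iio i => j.1.1)
      have hT : #T < Order.cof (Iio ε) := by
        refine (mk_union_le _ _).trans_lt (add_lt_of_lt hcof ?_ ?_) <;>
        · refine mk_range_le.trans_lt ?_
          have := mk_Iio_lt i hsW
          rwa [hsc] at this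
      obtain ⟨b, hb⟩ := bddBelow_of_lt_cof hT
      obtain ⟨c0, hc0, hbc0⟩ := hCcof b.1 b.2
      obtain ⟨y, ⟨hyC, hy⟩, hmin⟩ := WellFounded.has_min (wellFounded_lt (α := I))
        {y | y ∈ C ∧ ∀ j (hj : j < i), nx (f j hj) ≤ y ∧ j.1.1 < y} ⟨c0, hc0, fun j hj => by
          have h1 : nx (f j hj) < b.1 := hb ⟨nx (f j hj), (hnx _ (hf _ _)).2⟩
            (Or.inl ⟨⟨j, hj⟩, rfl⟩)
          have h2 : j.1.1 < b.1 := hb j.1 (Or.inr ⟨⟨j, hj⟩, rfl⟩)
          exact ⟨(h1.trans hbc0).le, h2.trans hbc0⟩⟩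
      exact ⟨y, fun _ => ⟨hyC, hy, fun z hz hz' => not_lt.1 (hmin z ⟨hz, hz'⟩)⟩⟩
    · exact ⟨ε, fun h => absurd h hf⟩)
  have hcε : ∀ i, c i < ε := by
    intro i
    induction i using WellFoundedLT.induction with
    | ind i ih => exact hCε _ (hc i (fun j hj => ih j hj)).1
  have hc' := fun i => hc i fun j _ => hcε j
  refine ⟨s, inferInstance, c, fun i => (hc' i).1, fun i j hij => ((hc' j).2.1 i hij).1,
    fun y hy => ?_, fun i => exists_gt i, fun y hy hi => ?_⟩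
  · obtain ⟨d, hd, hyd⟩ := hs ⟨y, hy⟩
    obtain ⟨j, hj⟩ := exists_gt (⟨d, hd⟩ : s)
    have hyd' : y ≤ d.1 := hyd
    exact ⟨j, hyd'.trans_lt ((hc' j).2.1 ⟨d, hd⟩ hj).2⟩
  · have hcm : ∀ i j, i < j → c i < c j := fun i j hij =>
      (hnx _ (hcε i)).1.trans_le ((hc' j).2.1 i hij).1
    obtain ⟨i0, hi0⟩ : ∃ i, c i ≤ y := by
      obtain ⟨x, hx, hxy⟩ := hi
      obtain ⟨b, hb, _⟩ := hs (Classical.arbitrary (Iio ε))
      obtain ⟨i, _, hi⟩ := WellFounded.has_min (wellFounded_lt (α := s)) Set.univ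
        ⟨⟨b, hb⟩, mem_univ _⟩
      exact ⟨i, ((hc' i).2.2 x hx fun j hj => absurd hj (hi j (mem_univ j))).trans hxy⟩
    have hJ : {j | y < c j}.Nonempty := by
      obtain ⟨d, hd, hyd⟩ := hs ⟨y, hy⟩
      obtain ⟨j, hj⟩ := exists_gt (⟨d, hd⟩ : s)
      have hyd' : y ≤ d.1 := hyd
      exact ⟨j, hyd'.trans_lt ((hc' j).2.1 ⟨d, hd⟩ hj).2⟩
    obtain ⟨j, hj, hmin⟩ := WellFounded.has_min (wellFounded_lt (α := s)) _ hJ
    have hle : ∀ i, i < j → c i ≤ y := fun i hij => not_lt.1 fun h => hmin i h hij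
    -- `j` has a predecessor
    by_cases hmax : ∃ i, i < j ∧ ∀ i', i' < j → i' ≤ i
    · obtain ⟨i, hij, hi⟩ := hmax
      refine ⟨i, hle i hij, fun k hk => ?_⟩
      by_contra hcon
      have hkj : k < j := by
        by_contra hkj
        rcases (not_lt.1 hkj).lt_or_eq with h1 | h1
        · exact hcon (lt_trans hj (hcm _ _ h1))
        · exact hcon (h1 ▸ hj)
      exact absurd hk (not_lt.2 (hi k hkj))
    · exfalso
      push Not at hmax
      obtain ⟨x, hx, hxmin⟩ := WellFounded.has_min (wellFounded_lt (α := I))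
        {x | ∀ i, i < j → c i ≤ x} ⟨y, hle⟩
      have hi0j : i0 < j := by
        by_contra hcon
        rcases (not_lt.1 hcon).lt_or_eq with h1 | h1
        · exact absurd (lt_trans hj (hcm _ _ h1)) (not_lt.2 hi0)
        · exact absurd (h1 ▸ hj : y < c i0) (not_lt.2 hi0)
      have hxy : x ≤ y := not_lt.1 (hxmin y hle)
      have hxC : x ∈ C := by
        refine hCcl (c '' Iio j) ?_ ⟨c i0, i0, hi0j, rfl⟩ x (hxy.trans_lt hy) ⟨?_, ?_⟩
        · rintro _ ⟨i, _, rfl⟩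
          exact (hc' i).1
        · rintro _ ⟨i, hi, rfl⟩
          exact hx i hi
        · intro z hz
          exact not_lt.1 (hxmin z fun i hi => hz ⟨i, hi, rfl⟩)
      have hcj : c j ≤ x := by
        refine (hc' j).2.2 x hxC fun i hi => ?_
        obtain ⟨i', hi', hii'⟩ := hmax i hi
        have h1 := (hc' i').2.1 i hii'
        exact ⟨h1.1.trans (hx i' hi'), h1.2.trans_le (hx i' hi')⟩
      exact absurd (hcj.trans hxy) (not_le.2 hj)

/-- The main lemma: small sets can be avoided. -/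
theorem exists_avoid (N : I → Set (I × I)) (hN : ∀ b, One (N b)) (S : Set I)
    (hS : ∀ σ ∈ S, IsLim σ) (X : I → Set (I × I))
    (hclub : ∀ ε, IsLim ε → ∃ C : Set I, (∀ c ∈ C, c < ε) ∧ (∀ y < ε, ∃ c ∈ C, y < c) ∧
      (∀ t : Set I, t ⊆ C → t.Nonempty → ∀ x < ε, IsLUB t x → x ∈ C) ∧
      (∀ c ∈ C, c ∉ S) ∧ ∀ y < ε, ∃ x ∈ C, x ≤ y) (η : I) :
    ∀ Z : Set (I × I), (∀ a, {b | (a, b) ∈ Z}.Finite) →
      ∃ M : Set (I × I), (∀ p ∈ M, p.1 < p.2 ∧ p.2 < η) ∧ (∀ p ∈ M, p ∉ Z) ∧ One M ∧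
        (∀ p ∈ M, ∀ q ∈ M, q.1 < p.1 → p.2 < q.2 → p ∉ N q.2) ∧
        ∀ σ ∈ S, σ ≤ η → GoodI σ (X σ) → ∀ e < σ, ∃ p ∈ M, p ∈ X σ ∧ e < p.1 ∧ p.2 < σ := by
  classical
  induction η using WellFoundedLT.induction with
  | ind η ih =>
    intro Z hZ
    by_cases hη : IsLim η
    · obtain ⟨C, hC1, hC2, hC3, hC4, hC5⟩ := hclub η hη
      -- the set to be met at `η`
      let Q : Set (I × I) := if GoodI η (X η) then X η else Set.univ
      have hQ : ∀ c < η, ∃ a, c < a ∧ a < η ∧ {b | a < b ∧ b < η ∧ (a, b) ∈ Q}.Infinite := by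
        by_cases hg : GoodI η (X η)
        · simp only [Q, if_pos hg]
          exact hg
        · simp only [Q, if_neg hg]
          intro c hc
          obtain ⟨a, ha, haη⟩ := hη.2 c hc
          refine ⟨a, ha, haη, fun hfin => ?_⟩
          have hne : {b | a < b ∧ b < η ∧ (a, b) ∈ (Set.univ : Set (I × I))}.Nonempty := by
            obtain ⟨b, hb, hbη⟩ := hη.2 a haη
            exact ⟨b, hb, hbη, mem_univ _⟩
          obtain ⟨m, hm, hmax⟩ := Set.exists_max_image _ id hfin hne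
          obtain ⟨b, hb, hbη⟩ := hη.2 m hm.2.1
          exact absurd (hmax b ⟨hm.1.trans hb, hbη, mem_univ _⟩) (not_le.2 hb)
      have hpair : ∀ y : I, ∃ q : I × I, y < η → y < q.1 ∧ q.1 < q.2 ∧ q.2 < η ∧ q ∈ Q ∧ q ∉ Z := by
        intro y
        by_cases hy : y < η
        · obtain ⟨a, ha, haη, hinf⟩ := hQ y hy
          obtain ⟨b, hb, hbZ⟩ := hinf.exists_notMem_finite (hZ a)
          exact ⟨(a, b), fun _ => ⟨ha, hb.1, hb.2.1, hb.2.2, hbZ⟩⟩
        · exact ⟨(y, y), fun h => absurd h hy⟩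
      choose q hq using hpair
      have hnx : ∀ y : I, ∃ z, y < η → (q y).2 < z ∧ z < η := by
        intro y
        by_cases hy : y < η
        · obtain ⟨z, hz⟩ := hη.2 _ (hq y hy).2.2.1
          exact ⟨z, fun _ => hz⟩
        · exact ⟨y, fun h => absurd h hy⟩
      choose nx hnx using hnx
      obtain ⟨Θ, _, c, hcC, hcnx, hccof, hΘ, hgap⟩ := exists_gaps hη C hC1 hC2 hC3 nx
        (fun y hy => ⟨((hq y hy).1.trans (hq y hy).2.1).trans (hnx y hy).1, (hnx y hy).2⟩)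
      have hcη : ∀ i, c i < η := fun i => hC1 _ (hcC i)
      -- the chosen pairs
      let a : Θ → I := fun i => (q (c i)).1
      let b : Θ → I := fun i => (q (c i)).2
      have hca : ∀ i, c i < a i := fun i => (hq _ (hcη i)).1
      have hab : ∀ i, a i < b i := fun i => (hq _ (hcη i)).2.1
      have hbη : ∀ i, b i < η := fun i => (hq _ (hcη i)).2.2.1
      have hbc : ∀ i j, i < j → b i < c j := fun i j hij =>
        (hnx _ (hcη i)).1.trans_le (hcnx i j hij)
      have hcm : ∀ i j, i < j → c i < c j := fun i j hij =>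
        (hca i).trans ((hab i).trans (hbc i j hij))
      choose s hs using hΘ
      have h1 := fun i => ih (a i) ((hab i).trans (hbη i)) Z hZ
      have h2 := fun i => ih (b i) (hbη i) (Z ∪ N (b i)) (fun x => by
        have h : {y | (x, y) ∈ Z ∪ N (b i)} = {y | (x, y) ∈ Z} ∪ {y | (x, y) ∈ N (b i)} := rfl
        rw [h]
        refine (hZ x).union (Set.Subsingleton.finite fun y hy y' hy' => hN (b i) x y y' hy hy'))
      have h3 := fun i => ih (c (s i)) (hcη _) Z hZ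
      choose M1 h11 h12 h13 h14 h15 using h1
      choose M2 h21 h22 h23 h24 h25 using h2
      choose M3 h31 h32 h33 h34 h35 using h3
      -- the zones
      let Zo : Θ → Fin 4 → Set (I × I) := fun i k => match k with
        | 0 => {q (c i)}
        | 1 => {p | p ∈ M1 i ∧ c i < p.1}
        | 2 => {p | p ∈ M2 i ∧ a i < p.1}
        | 3 => {p | p ∈ M3 i ∧ b i < p.1 ∧ ∀ j, i < j → p.2 < c j}
      have hzone : ∀ i k, ∀ p ∈ Zo i k, c i < p.1 ∧ p.1 < p.2 ∧ ∀ j, i < j → p.2 < c j := by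
        intro i k p hp
        fin_cases k
        · have hp' : p = q (c i) := hp
          subst hp'
          exact ⟨hca i, hab i, fun j hj => hbc i j hj⟩
        · have hp' : p ∈ M1 i ∧ c i < p.1 := hp
          have h := h11 i p hp'.1
          exact ⟨hp'.2, h.1, fun j hj => h.2.trans ((hab i).trans (hbc i j hj))⟩
        · have hp' : p ∈ M2 i ∧ a i < p.1 := hp
          have h := h21 i p hp'.1
          exact ⟨(hca i).trans hp'.2, h.1, fun j hj => h.2.trans (hbc i j hj)⟩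
        · have hp' : p ∈ M3 i ∧ b i < p.1 ∧ ∀ j, i < j → p.2 < c j := hp
          have h := h31 i p hp'.1
          exact ⟨(hca i).trans ((hab i).trans hp'.2.1), h.1, hp'.2.2⟩
      have hpos : ∀ i k, ∀ p ∈ Zo i k, (k = 0 ∧ p.1 = a i ∧ p.2 = b i) ∨
          (k = 1 ∧ p.2 < a i) ∨ (k = 2 ∧ a i < p.1 ∧ p.2 < b i) ∨ (k = 3 ∧ b i < p.1) := by
        intro i k p hp
        fin_cases k
        · have hp' : p = q (c i) := hp
          subst hp'
          exact Or.inl ⟨rfl, rfl, rfl⟩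
        · have hp' : p ∈ M1 i ∧ c i < p.1 := hp
          exact Or.inr (Or.inl ⟨rfl, (h11 i p hp'.1).2⟩)
        · have hp' : p ∈ M2 i ∧ a i < p.1 := hp
          exact Or.inr (Or.inr (Or.inl ⟨rfl, hp'.2, (h21 i p hp'.1).2⟩))
        · have hp' : p ∈ M3 i ∧ b i < p.1 ∧ ∀ j, i < j → p.2 < c j := hp
          exact Or.inr (Or.inr (Or.inr ⟨rfl, hp'.2.1⟩))
      refine ⟨{p | ∃ i k, p ∈ Zo i k}, ?_, ?_, ?_, ?_, ?_⟩
      · rintro p ⟨i, k, hp⟩
        have h := hzone i k p hp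
        exact ⟨h.2.1, (h.2.2 (s i) (hs i)).trans (hcη _)⟩
      · rintro p ⟨i, k, hp⟩
        fin_cases k
        · have hp' : p = q (c i) := hp
          subst hp'
          exact (hq _ (hcη i)).2.2.2.2
        · have hp' : p ∈ M1 i ∧ c i < p.1 := hp
          exact h12 i p hp'.1
        · have hp' : p ∈ M2 i ∧ a i < p.1 := hp
          exact fun hpZ => h22 i p hp'.1 (Or.inl hpZ)
        · have hp' : p ∈ M3 i ∧ b i < p.1 ∧ ∀ j, i < j → p.2 < c j := hp
          exact h32 i p hp'.1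
      · -- at most one point per row
        rintro x y y' ⟨i, k, hp⟩ ⟨i', k', hp'⟩
        have hi : i = i' := by
          have h := hzone i k _ hp
          have h' := hzone i' k' _ hp'
          rcases lt_trichotomy i i' with hlt | heq | hgt
          · exact absurd (h.2.1.trans (h.2.2 i' hlt)) (not_lt.2 h'.1.le)
          · exact heq
          · exact absurd (h'.2.1.trans (h'.2.2 i hgt)) (not_lt.2 h.1.le)
        subst hi
        have hz := hzone i k _ hp
        have hz' := hzone i k' _ hp'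
        have ho : k = k' := by
          have hba := hab i
          rcases hpos i k _ hp with ⟨hk, h, h'⟩ | ⟨hk, h⟩ | ⟨hk, h, h'⟩ | ⟨hk, h⟩ <;>
            rcases hpos i k' _ hp' with ⟨hk', g, g'⟩ | ⟨hk', g⟩ | ⟨hk', g, g'⟩ | ⟨hk', g⟩ <;>
            first
            | exact hk.trans hk'.symm
            | (exfalso; simp only at *; order)
        subst ho
        fin_cases k
        · have e1 : (x, y) = q (c i) := hp
          have e2 : (x, y') = q (c i) := hp'
          exact (Prod.ext_iff.1 (e1.trans e2.symm)).2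
        · exact h13 i x y y' (show (x, y) ∈ M1 i ∧ _ from hp).1 (show (x, y') ∈ M1 i ∧ _ from hp').1
        · exact h23 i x y y' (show (x, y) ∈ M2 i ∧ _ from hp).1 (show (x, y') ∈ M2 i ∧ _ from hp').1
        · exact h33 i x y y' (show (x, y) ∈ M3 i ∧ _ from hp).1 (show (x, y') ∈ M3 i ∧ _ from hp').1
      · -- independence
        rintro p ⟨i, k, hp⟩ p' ⟨i', k', hp'⟩ hlt1 hlt2
        have hi : i = i' := by
          have h := hzone i k _ hp
          have h' := hzone i' k' _ hp'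
          rcases lt_trichotomy i i' with hlt | heq | hgt
          · have := h.2.2 i' hlt
            exfalso; order
          · exact heq
          · have := h'.2.2 i hgt
            exfalso; order
        subst hi
        have hz := hzone i k _ hp
        have hz' := hzone i k' _ hp'
        have hba := hab i
        have hcases : (k' = 0 ∧ k = 2) ∨ k = k' ∧ k ≠ 0 := by
          rcases hpos i k _ hp with ⟨hk, h, h'⟩ | ⟨hk, h⟩ | ⟨hk, h, h'⟩ | ⟨hk, h⟩ <;>
            rcases hpos i k' _ hp' with ⟨hk', g, g'⟩ | ⟨hk', g⟩ | ⟨hk', g, g'⟩ | ⟨hk', g⟩ <;>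
            first
            | exact Or.inl ⟨hk', hk⟩
            | exact Or.inr ⟨hk.trans hk'.symm, by rw [hk]; decide⟩
            | (exfalso; order)
        rcases hcases with ⟨rfl, rfl⟩ | ⟨rfl, hk0⟩
        · have e1 : p' = q (c i) := hp'
          subst e1
          exact fun hmem => h22 i p (show p ∈ M2 i ∧ _ from hp).1 (Or.inr hmem)
        · fin_cases k
          · exact absurd rfl hk0
          · exact h14 i p (show p ∈ M1 i ∧ _ from hp).1 p' (show p' ∈ M1 i ∧ _ from hp').1 hlt1 hlt2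
          · exact h24 i p (show p ∈ M2 i ∧ _ from hp).1 p' (show p' ∈ M2 i ∧ _ from hp').1 hlt1 hlt2
          · exact h34 i p (show p ∈ M3 i ∧ _ from hp).1 p' (show p' ∈ M3 i ∧ _ from hp').1 hlt1 hlt2
      · -- hitting
        intro σ hσ hση hgood e he
        rcases hση.lt_or_eq with hση | rfl
        · obtain ⟨i, hi, hi'⟩ := hgap σ hση (hC5 σ hση)
          have hci : c i < σ := lt_of_le_of_ne hi fun h => hC4 _ (hcC i) (h ▸ hσ)
          rcases le_or_gt σ (a i) with hσa | hσa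
          · obtain ⟨p, hp, hpX, hp1, hp2⟩ := h15 i σ hσ hσa hgood (max e (c i)) (max_lt he hci)
            exact ⟨p, ⟨i, 1, hp, (le_max_right _ _).trans_lt hp1⟩, hpX,
              (le_max_left _ _).trans_lt hp1, hp2⟩
          rcases le_or_gt σ (b i) with hσb | hσb
          · obtain ⟨p, hp, hpX, hp1, hp2⟩ := h25 i σ hσ hσb hgood (max e (a i)) (max_lt he hσa)
            exact ⟨p, ⟨i, 2, hp, (le_max_right _ _).trans_lt hp1⟩, hpX,
              (le_max_left _ _).trans_lt hp1, hp2⟩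
          · obtain ⟨p, hp, hpX, hp1, hp2⟩ := h35 i σ hσ (hi' _ (hs i)).le hgood (max e (b i))
              (max_lt he hσb)
            exact ⟨p, ⟨i, 3, hp, (le_max_right _ _).trans_lt hp1,
              fun j hj => hp2.trans (hi' j hj)⟩, hpX, (le_max_left _ _).trans_lt hp1, hp2⟩
        · obtain ⟨i, hi⟩ := hccof e he
          have hQX : Q = X σ := if_pos hgood
          refine ⟨q (c i), ⟨i, 0, rfl⟩, ?_, hi.trans (hca i), hbη i⟩
          rw [← hQX]
          exact (hq _ (hcη i)).2.2.2.1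
    · -- `η` is not a limit
      by_cases h0 : ∃ y, y < η
      · have h1 : ∃ y < η, ∀ z, y < z → ¬ z < η := by
          by_contra hcon
          push Not at hcon
          exact hη ⟨h0, hcon⟩
        obtain ⟨y, hy, hy'⟩ := h1
        obtain ⟨M, hM1, hM2, hM3, hM4, hM5⟩ := ih y hy Z hZ
        refine ⟨M, fun p hp => ⟨(hM1 p hp).1, (hM1 p hp).2.trans hy⟩, hM2, hM3, hM4,
          fun σ hσ hση => ?_⟩
        refine hM5 σ hσ (not_lt.1 fun hyσ => ?_)
        rcases hση.lt_or_eq with h2 | h2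
        · exact hy' σ hyσ h2
        · exact hη (h2 ▸ hS σ hσ)
      · refine ⟨∅, fun p hp => absurd hp (notMem_empty p), fun p hp => absurd hp (notMem_empty p),
          fun x y y' hp => absurd hp (notMem_empty _), fun p hp => absurd hp (notMem_empty p),
          fun σ hσ hση => ?_⟩
        obtain ⟨y, hy⟩ := (hS σ hσ).1
        exact absurd ⟨y, hy.trans_le hση⟩ h0

/-- closed cofinal sets which avoid the limit points of a nonreflecting set -/
theorem exists_club (S : Set I) (hS : ∀ δ : I, ℵ₀ < Order.cof (Iio δ) →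
    ¬ IsStationary {x : Iio δ | x.1 ∈ S}) (ε : I) (hε : IsLim ε) :
    ∃ C : Set I, (∀ c ∈ C, c < ε) ∧ (∀ y < ε, ∃ c ∈ C, y < c) ∧
      (∀ t : Set I, t ⊆ C → t.Nonempty → ∀ x < ε, IsLUB t x → x ∈ C) ∧
      (∀ c ∈ C, c ∉ {σ | σ ∈ S ∧ IsLim σ}) ∧ ∀ y < ε, ∃ x ∈ C, x ≤ y := by
  classical
  -- it is enough to ignore the last clause
  suffices h : ∃ C : Set I, (∀ c ∈ C, c < ε) ∧ (∀ y < ε, ∃ c ∈ C, y < c) ∧
      (∀ t : Set I, t ⊆ C → t.Nonempty → ∀ x < ε, IsLUB t x → x ∈ C) ∧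
      (∀ c ∈ C, c ∉ {σ | σ ∈ S ∧ IsLim σ}) by
    obtain ⟨C, h1, h2, h3, h4⟩ := h
    obtain ⟨y0, hy0⟩ := hε.1
    obtain ⟨m, _, hm⟩ := WellFounded.has_min (wellFounded_lt (α := I)) Set.univ ⟨y0, mem_univ _⟩
    have hm' : ∀ y, m ≤ y := fun y => not_lt.1 (hm y (mem_univ y))
    refine ⟨insert m C, ?_, ?_, ?_, ?_, fun y _ => ⟨m, mem_insert _ _, hm' y⟩⟩
    · rintro c (rfl | hc)
      · exact (hm' y0).trans_lt hy0
      · exact h1 c hc
    · intro y hy
      obtain ⟨c, hc, hyc⟩ := h2 y hy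
      exact ⟨c, mem_insert_of_mem _ hc, hyc⟩
    · intro t ht hne x hx hlub
      by_cases hxm : x = m
      · exact hxm ▸ mem_insert _ _
      · right
        have hmx : m < x := lt_of_le_of_ne (hm' x) (Ne.symm hxm)
        refine h3 (t \ {m}) ?_ ?_ x hx ⟨fun z hz => hlub.1 hz.1, fun z hz => ?_⟩
        · rintro z ⟨hz, hzm⟩
          rcases ht hz with h | h
          · exact absurd h hzm
          · exact h
        · by_contra hemp
          rw [Set.not_nonempty_iff_eq_empty, Set.sdiff_eq_empty] at hemp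
          exact absurd (hlub.2 fun z hz => (hemp hz : z = m).le) (not_le.2 hmx)
        · refine hlub.2 fun w hw => ?_
          by_cases hwm : w = m
          · exact hwm ▸ hm' z
          · exact hz ⟨hw, hwm⟩
    · rintro c (rfl | hc)
      · rintro ⟨_, ⟨y, hy⟩, _⟩
        exact absurd hy (not_lt.2 (hm' y))
      · exact h4 c hc
  have hne : Nonempty (Iio ε) := by
    obtain ⟨y, hy⟩ := hε.1
    exact ⟨⟨y, hy⟩⟩
  have hnomax : NoMaxOrder (Iio ε) := ⟨fun a => by
    obtain ⟨z, hz, hz'⟩ := hε.2 a.1 a.2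
    exact ⟨⟨z, hz'⟩, hz⟩⟩
  have hcof : ℵ₀ ≤ Order.cof (Iio ε) := Order.aleph0_le_cof
  rcases hcof.lt_or_eq with hcof | hcof
  · -- uncountable cofinality
    obtain ⟨t, ht, hdisj⟩ := not_isStationary_iff.1 (hS ε hcof)
    refine ⟨Subtype.val '' t, ?_, ?_, ?_, ?_⟩
    · rintro _ ⟨c, _, rfl⟩
      exact c.2
    · intro y hy
      obtain ⟨z, hz, hzε⟩ := hε.2 y hy
      obtain ⟨c, hc, hzc⟩ := ht.isCofinal ⟨z, hzε⟩
      have hzc' : z ≤ c.1 := hzc
      exact ⟨c.1, ⟨c, hc, rfl⟩, hz.trans_le hzc'⟩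
    · intro t' ht' hne' x hx hlub
      refine ⟨⟨x, hx⟩, ht.isLUB_mem (t := {y : Iio ε | y.1 ∈ t'}) ?_ ?_
        ⟨fun z (hz : z.1 ∈ t') => hlub.1 hz, fun z hz => hlub.2 fun w hw => ?_⟩, rfl⟩
      · intro y hy
        obtain ⟨y', hy', hyy'⟩ := ht' hy
        rwa [← Subtype.ext hyy']
      · obtain ⟨w, hw⟩ := hne'
        obtain ⟨w', hw', rfl⟩ := ht' hw
        exact ⟨w', hw⟩
      · obtain ⟨w', hw', rfl⟩ := ht' hw
        exact hz hw
    · rintro _ ⟨c, hc, rfl⟩ hmem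
      exact Set.disjoint_left.1 hdisj (show c ∈ {x : Iio ε | x.1 ∈ S} from hmem.1) hc
  · -- countable cofinality
    obtain ⟨s, hs, hsc⟩ := Order.exists_cof_eq (α := Iio ε)
    have hscount : s.Countable := by
      rw [← Cardinal.le_aleph0_iff_set_countable, hsc, ← hcof]
    have hsne : s.Nonempty := by
      obtain ⟨d, hd, _⟩ := hs (Classical.arbitrary (Iio ε))
      exact ⟨d, hd⟩
    obtain ⟨u, hu⟩ := hscount.exists_eq_range hsne
    -- a successor element above each element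
    have hsucc : ∀ y : Iio ε, ∃ z : Iio ε, y < z ∧ ¬ IsLim z.1 := by
      intro y
      obtain ⟨z, hz, hmin⟩ := WellFounded.has_min (wellFounded_lt (α := Iio ε)) {z | y < z}
        (exists_gt y)
      refine ⟨z, hz, fun hlim => ?_⟩
      obtain ⟨w, hw, hwz⟩ := hlim.2 y.1 hz
      exact hmin ⟨w, hwz.trans z.2⟩ hw hwz
    choose sc hsc1 hsc2 using hsucc
    let v : ℕ → Iio ε := fun n => Nat.rec (sc (u 0)) (fun n x => sc (max x (u (n + 1)))) n
    have hv0 : v 0 = sc (u 0) := rfl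
    have hvs : ∀ n, v (n + 1) = sc (max (v n) (u (n + 1))) := fun n => rfl
    have hvm : StrictMono v := strictMono_nat_of_lt_succ fun n => by
      rw [hvs]
      exact (le_max_left _ _).trans_lt (hsc1 _)
    have hvu : ∀ n, u n < v n := by
      intro n
      cases n with
      | zero => exact hsc1 _
      | succ n =>
        rw [hvs]
        exact (le_max_right _ _).trans_lt (hsc1 _)
    have hvl : ∀ n, ¬ IsLim (v n).1 := by
      intro n
      cases n with
      | zero => exact hsc2 _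
      | succ n => exact hsc2 _
    refine ⟨Set.range fun n => (v n).1, ?_, ?_, ?_, ?_⟩
    · rintro _ ⟨n, rfl⟩
      exact (v n).2
    · intro y hy
      obtain ⟨d, hd, hyd⟩ := hs ⟨y, hy⟩
      rw [hu] at hd
      obtain ⟨n, rfl⟩ := hd
      have hyd' : y ≤ (u n).1 := hyd
      exact ⟨_, ⟨n, rfl⟩, hyd'.trans_lt (hvu n)⟩
    · intro t ht hne' x hx hlub
      obtain ⟨d, hd, hxd⟩ := hs ⟨x, hx⟩
      rw [hu] at hd
      obtain ⟨n, rfl⟩ := hd
      have hxd' : x ≤ (u n).1 := hxd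
      have hfin : t.Finite := by
        refine (Set.finite_Iio n).image (fun k => (v k).1) |>.subset fun z hz => ?_
        obtain ⟨k, rfl⟩ := ht hz
        refine ⟨k, ?_, rfl⟩
        have h1 : (v k).1 ≤ x := hlub.1 hz
        have h2 : v k < v n := lt_of_le_of_lt (show v k ≤ u n from h1.trans hxd') (hvu n)
        exact hvm.lt_iff_lt.1 h2
      obtain ⟨m, hm, hmax⟩ := Set.exists_max_image t id hfin hne'
      have hxm : x = m := le_antisymm (hlub.2 fun z hz => hmax z hz) (hlub.1 hm)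
      rw [hxm]
      exact ht hm
    · rintro _ ⟨n, rfl⟩ hmem
      exact hvl n hmem.2

end

/-- `κ` carries a nonreflecting stationary set `S` together with a diamond sequence `D` on `S`:
for every `δ < κ` of uncountable cofinality `S ∩ δ` is not stationary in `δ`, and for every subset
`A` of `κ` the set of all `σ ∈ S` with `A ∩ σ = D σ` is stationary in `κ`. -/
def NonreflectingDiamond (κ : Cardinal.{u}) : Prop :=
  ∃ (S : Set κ.ord.ToType) (D : κ.ord.ToType → Set κ.ord.ToType),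
    (∀ δ : κ.ord.ToType, ℵ₀ < Order.cof (Set.Iio δ) → ¬ IsStationary {x : Set.Iio δ | x.1 ∈ S}) ∧
    ∀ A : Set κ.ord.ToType, IsStationary {σ | σ ∈ S ∧ A ∩ Set.Iio σ = D σ}

/-- If the regular uncountable cardinal `κ` carries a nonreflecting stationary set with a diamond
sequence then the relation fails for `κ`. -/
theorem not_rectO_of_diamond {κ : Cardinal.{u}} (hκ : κ.IsRegular) (hκ0 : ℵ₀ < κ)
    (hd : NonreflectingDiamond κ) : ¬ RectO κ.ord.ToType := by
  classical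
  let I : Type u := κ.ord.ToType
  have hIc : #I = κ := by simp [I]
  obtain ⟨hI1, hI2, hI3, hI4⟩ := reg_facts hκ
  obtain ⟨S0, D, hS0, hD⟩ := hd
  change ∀ A : Set I, IsStationary {σ | σ ∈ S0 ∧ A ∩ Set.Iio σ = D σ} at hD
  -- a pairing function
  obtain ⟨pr⟩ : Nonempty (I × I ↪ I) := by
    rw [← Cardinal.le_def, mk_prod, Cardinal.lift_id]
    exact (mul_eq_self hI1).le
  let S : Set I := {σ | σ ∈ S0 ∧ IsLim σ}
  let X : I → Set (I × I) := fun σ => {p | p.1 < σ ∧ p.2 < σ ∧ pr p ∈ D σ}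
  have hclub := exists_club S0 hS0
  have hav := fun (N : I → Set (I × I)) (hN : ∀ b, One (N b)) =>
    exists_avoid N hN S (fun σ hσ => hσ.2) X hclub
  -- the graph
  obtain ⟨N, hN⟩ := exists_rec (M := I) (X := Set (I × I))
    (fun δ f x => (∀ b hb, One (f b hb)) → (∀ p ∈ x, p.1 < p.2 ∧ p.2 < δ) ∧ One x ∧
      (∀ p ∈ x, ∀ q ∈ x, q.1 < p.1 → p.2 < q.2 → ∀ hq : q.2 < δ, p ∉ f q.2 hq) ∧
      ∀ σ ∈ S, σ ≤ δ → GoodI σ (X σ) → ∀ e < σ, ∃ p ∈ x, p ∈ X σ ∧ e < p.1 ∧ p.2 < σ) (by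
    intro δ f
    by_cases hf : ∀ b hb, One (f b hb)
    · let N' : I → Set (I × I) := fun b => if hb : b < δ then f b hb else ∅
      have hN' : ∀ b, One (N' b) := by
        intro b
        by_cases hb : b < δ
        · simp only [N', dif_pos hb]
          exact hf b hb
        · simp only [N', dif_neg hb]
          exact fun _ _ _ h => absurd h (notMem_empty _)
      obtain ⟨M, h1, _, h3, h4, h5⟩ := hav N' hN' δ ∅ (fun a => by simp)
      refine ⟨M, fun _ => ⟨h1, h3, fun p hp q hq hlt1 hlt2 hqδ hmem => ?_, h5⟩⟩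
      refine h4 p hp q hq hlt1 hlt2 ?_
      simp only [N', dif_pos hqδ]
      exact hmem
    · exact ⟨∅, fun h => absurd h hf⟩)
  have hOne : ∀ δ, One (N δ) := by
    intro δ
    induction δ using WellFoundedLT.induction with
    | ind δ ih => exact (hN δ (fun b hb => ih b hb)).2.1
  have hN' := fun δ => hN δ fun b _ => hOne b
  intro hR
  obtain ⟨A, hA, Hs, hHs, hind⟩ := hR _ (tf_of_inner N fun δ p hp q hq h1 h2 =>
    (hN' δ).2.2.1 p hp q hq h1 h2 ((hN' δ).1 q hq).2)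
  have hneI : Nonempty I := by
    rw [← mk_ne_zero_iff, hIc]
    exact hκ.ne_zero
  obtain ⟨i0⟩ := hneI
  obtain ⟨γ, hγ, _⟩ := hA i0
  let H : Set (I × I) := {p | p.1 ∈ A ∧ p.2 ∈ Hs p.1 ∧ γ < p.1 ∧ p.1 < p.2}
  -- bounds for the rows
  have hg : ∀ y : I, ∃ z, (∃ a ∈ A, y < a ∧ a < z ∧ γ < a ∧
      {b | b ∈ Hs a ∧ a < b ∧ b < z}.Infinite) ∧ ∀ p : I × I, p.1 ≤ y → p.2 ≤ y → pr p < z := by
    intro y
    obtain ⟨a, ha, hya⟩ := hA (max y γ)
    have h1 : Unb {b | b ∈ Hs a ∧ a < b} := by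
      intro b
      obtain ⟨x, hx, hbx⟩ := hHs a ha (max a b)
      exact ⟨x, ⟨hx, (le_max_left _ _).trans_lt hbx⟩, (le_max_right _ _).trans_lt hbx⟩
    have h3 : #{b | b ∈ Hs a ∧ a < b} = κ := (card_of_unb hI3 h1).trans hIc
    obtain ⟨s, hs, hsc⟩ := le_mk_iff_exists_subset.1 (hκ0.le.trans h3.ge)
    have hprod : #(pr '' (Iic y ×ˢ Iic y)) < #I := by
      refine mk_image_le.trans_lt ?_
      have h4 : #(Iic y ×ˢ Iic y : Set (I × I)) = #(Iic y) * #(Iic y) := by
        rw [Cardinal.mk_setProd]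
      rw [h4]
      exact mul_lt_of_lt hI1 (mk_Iic_lt hI2 hI1 y) (mk_Iic_lt hI2 hI1 y)
    obtain ⟨z, hz⟩ := hI4 (insert a (s ∪ pr '' (Iic y ×ˢ Iic y))) (by
      refine mk_insert_le.trans_lt (add_lt_of_lt hI1 ((mk_union_le _ _).trans_lt
        (add_lt_of_lt hI1 ?_ hprod)) (one_lt_aleph0.trans_le hI1))
      rw [hsc]
      exact hκ0.trans_eq hIc.symm)
    refine ⟨z, ⟨a, ha, (le_max_left _ _).trans_lt hya, hz a (mem_insert _ _),
      (le_max_right _ _).trans_lt hya, ?_⟩, fun p hp1 hp2 => hz _ ?_⟩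
    · have hsinf : s.Infinite := by
        rw [← Set.infinite_coe_iff, Cardinal.infinite_iff, hsc]
      exact hsinf.mono fun b hb =>
        ⟨(hs hb).1, (hs hb).2, hz b (mem_insert_of_mem _ (Or.inl hb))⟩
    · exact mem_insert_of_mem _ (Or.inr ⟨p, ⟨hp1, hp2⟩, rfl⟩)
  choose g hg using hg
  -- the closed unbounded set
  let E : Set I := {σ | γ < σ ∧ ∀ y < σ, ∃ y', y < y' ∧ y' < σ ∧ g y' < σ}
  have hE : IsClub E := by
    refine ⟨?_, ?_⟩
    · intro t ht hne _ x hlub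
      obtain ⟨w, hw⟩ := hne
      refine ⟨(ht hw).1.trans_le (hlub.1 hw), fun y hy => ?_⟩
      obtain ⟨z, hz, hyz⟩ : ∃ z ∈ t, y < z := by
        by_contra hcon
        push Not at hcon
        exact absurd (hlub.2 hcon) (not_le.2 hy)
      obtain ⟨y', h1, h2, h3⟩ := (ht hz).2 y hyz
      exact ⟨y', h1, h2.trans_le (hlub.1 hz), h3.trans_le (hlub.1 hz)⟩
    · intro y
      obtain ⟨σ, hσ, hσ'⟩ := exists_closure (I := I) hI4 isRegular_aleph0
        (hκ0.trans_eq hIc.symm) g (max y γ)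
      refine ⟨σ, ⟨(le_max_right _ _).trans_lt hσ, fun x hx => ?_⟩,
        ((le_max_left _ _).trans_lt hσ).le⟩
      obtain ⟨y', h1, h2, h3⟩ := hσ' {x} (by simp) (by
        rintro _ rfl
        exact hx)
      exact ⟨y', h2 x rfl, h1, h3⟩
  obtain ⟨σ, ⟨hσS, hσD⟩, hσE⟩ := hD (pr '' H) hE
  have hlim : IsLim σ := ⟨⟨γ, hσE.1⟩, fun y hy => by
    obtain ⟨y', h1, h2, _⟩ := hσE.2 y hy
    exact ⟨y', h1, h2⟩⟩
  have hXH : ∀ p : I × I, p ∈ X σ ↔ p ∈ H ∧ p.1 < σ ∧ p.2 < σ := by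
    intro p
    constructor
    · rintro ⟨h1, h2, h3⟩
      rw [← hσD] at h3
      obtain ⟨⟨p', hp', hpp'⟩, _⟩ := h3
      rw [← pr.injective hpp']
      rw [← pr.injective hpp'] at h1 h2
      exact ⟨hp', h1, h2⟩
    · rintro ⟨h1, h2, h3⟩
      refine ⟨h2, h3, ?_⟩
      rw [← hσD]
      refine ⟨⟨p, h1, rfl⟩, ?_⟩
      obtain ⟨y', h4, h5, h6⟩ := hσE.2 (max p.1 p.2) (max_lt h2 h3)
      exact ((hg y').2 p ((le_max_left _ _).trans h4.le) ((le_max_right _ _).trans h4.le)).trans h6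
  have hgood : GoodI σ (X σ) := by
    intro c hc
    obtain ⟨y', h1, h2, h3⟩ := hσE.2 c hc
    obtain ⟨⟨a, ha, hya, haz, hγa, hinf⟩, _⟩ := hg y'
    refine ⟨a, h1.trans hya, haz.trans h3, hinf.mono fun b hb => ⟨hb.2.1, hb.2.2.trans h3, ?_⟩⟩
    rw [hXH]
    exact ⟨⟨ha, hb.1, hγa, hb.2.1⟩, haz.trans h3, hb.2.2.trans h3⟩
  obtain ⟨δ, hδ, hδ'⟩ := hHs γ hγ σ
  obtain ⟨p, hp, hpX, _, hpσ⟩ := (hN' δ).2.2.2 σ ⟨hσS, hlim⟩ hδ'.le hgood γ hσE.1
  have hpH := ((hXH p).1 hpX).1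
  exact hind p.1 hpH.1 p.2 hpH.2.1 γ hγ δ hδ
    (Or.inl ⟨hpH.2.2.1, hpH.2.2.2, hpσ.trans hδ', hp⟩)

end Pool.Agent.H650R2.Sq
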