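import Mathlib
import Pool.Agent.H650R2.SqTools

set_option autoImplicit false

/-!
# Regular cardinals `μ` with `μ → (μ)²₂`: the positive relation
-/

namespace Pool.Agent.H650R2.Sq

open Cardinal Ordinal Set Filter

universe u

section

variable {I : Type u} [LinearOrder I] [WellFoundedLT I]

/-- the pair relation for all unbounded sets -/
theorem pair_sub (hW : (#I).ord = typeLT I) (hcof : Order.cof I = #I)
    (hR : ∀ f : I → I → Bool, ∃ H : Set I, Unb H ∧ ∃ c, ∀ x ∈ H, ∀ y ∈ H, x < y → f x y = c)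
    {H : Set I} (hH : Unb H) (f : I → I → Bool) :
    ∃ H' ⊆ H, Unb H' ∧ ∃ c, ∀ x ∈ H', ∀ y ∈ H', x < y → f x y = c := by
  obtain ⟨g, hg, hgH⟩ := exists_strictMono hW (card_of_unb hcof hH)
  obtain ⟨H0, hH0, c, hc⟩ := hR fun x y => f (g x) (g y)
  refine ⟨g '' H0, ?_, ?_, c, ?_⟩
  · rintro _ ⟨x, _, rfl⟩
    exact hgH x
  · intro b
    obtain ⟨x, hx, hbx⟩ := hH0 b
    exact ⟨g x, ⟨x, hx, rfl⟩, hbx.trans_le (hg.id_le x)⟩
  · rintro _ ⟨x, hx, rfl⟩ _ ⟨y, hy, rfl⟩ hxy
    exact hc x hx y hy (hg.lt_iff_lt.1 hxy)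

/-- limits along an unbounded set -/
theorem exists_lim (hW : (#I).ord = typeLT I) (hcof : Order.cof I = #I)
    (hreg : ∀ S : Set I, #S < #I → ∃ b, ∀ x ∈ S, x < b)
    (hR : ∀ f : I → I → Bool, ∃ H : Set I, Unb H ∧ ∃ c, ∀ x ∈ H, ∀ y ∈ H, x < y → f x y = c)
    {H : Set I} (hH : Unb H) (F : I → I → Bool) :
    ∃ H' ⊆ H, Unb H' ∧ ∀ p, ∃ c τ, ∀ x ∈ H', τ < x → F p x = c := by
  classical
  let LexLt : I → I → Prop := fun x y =>
    ∃ p, (∀ q < p, F q x = F q y) ∧ F p x = false ∧ F p y = true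
  obtain ⟨H', hH'H, hH', c, hc⟩ := pair_sub hW hcof hR hH fun x y => decide (LexLt x y)
  refine ⟨H', hH'H, hH', fun p => ?_⟩
  induction p using WellFoundedLT.induction with
  | ind p ih =>
    have hch : ∀ q : Iio p, ∃ τ, ∀ x ∈ H', ∀ y ∈ H', τ < x → τ < y → F q.1 x = F q.1 y := by
      intro q
      obtain ⟨c, τ, h⟩ := ih q.1 q.2
      exact ⟨τ, fun x hx y hy h1 h2 => (h x hx h1).trans (h y hy h2).symm⟩
    choose τ hτ using hch
    obtain ⟨b, hb⟩ := hreg (Set.range τ) (mk_range_le.trans_lt (mk_Iio_lt p hW))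
    have hagree : ∀ x ∈ H', ∀ y ∈ H', b < x → b < y → ∀ q < p, F q x = F q y :=
      fun x hx y hy hbx hby q hq => hτ ⟨q, hq⟩ x hx y hy ((hb _ ⟨_, rfl⟩).trans hbx)
        ((hb _ ⟨_, rfl⟩).trans hby)
    cases c with
    | true =>
      -- increasing
      have hmono : ∀ x ∈ H', ∀ y ∈ H', b < x → x < y → F p x = true → F p y = true := by
        intro x hx y hy hbx hxy hpx
        have h1 := hc x hx y hy hxy
        rw [decide_eq_true_iff] at h1
        obtain ⟨p', h2, h3, h4⟩ := h1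
        have hpp' : p ≤ p' := by
          by_contra hcon
          have := hagree x hx y hy hbx (hbx.trans hxy) p' (not_le.1 hcon)
          rw [h3, h4] at this
          exact Bool.false_ne_true this
        rcases hpp'.lt_or_eq with h5 | rfl
        · rw [← h2 p h5]
          exact hpx
        · exact h4
      by_cases hex : ∃ x ∈ H', b < x ∧ F p x = true
      · obtain ⟨x, hx, hbx, hpx⟩ := hex
        exact ⟨true, x, fun y hy hxy => hmono x hx y hy hbx hxy hpx⟩
      · push Not at hex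
        exact ⟨false, b, fun y hy hby => Bool.eq_false_iff.2 (hex y hy hby)⟩
    | false =>
      have hmono : ∀ x ∈ H', ∀ y ∈ H', b < x → x < y → F p x = false → F p y = false := by
        intro x hx y hy hbx hxy hpx
        have h1 := hc x hx y hy hxy
        rw [decide_eq_false_iff_not] at h1
        by_contra hcon
        exact h1 ⟨p, hagree x hx y hy hbx (hbx.trans hxy), hpx, by simpa using hcon⟩
      by_cases hex : ∃ x ∈ H', b < x ∧ F p x = false
      · obtain ⟨x, hx, hbx, hpx⟩ := hex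
        exact ⟨false, x, fun y hy hxy => hmono x hx y hy hbx hxy hpx⟩
      · push Not at hex
        exact ⟨true, b, fun y hy hby => by simpa using hex y hy hby⟩

/-- diagonal unbounded sets -/
theorem exists_diag (hW : (#I).ord = typeLT I) (hinf : ℵ₀ ≤ #I)
    (hreg : ∀ S : Set I, #S < #I → ∃ b, ∀ x ∈ S, x < b) {H : Set I} (hH : Unb H)
    (τ : Finset I → I) : ∃ Z ⊆ H, Unb Z ∧ ∀ x ∈ Z, ∀ s : Finset I, (↑s ⊆ Z) →
      (∀ y ∈ s, y < x) → τ s < x := by
  classical
  obtain ⟨z, hz⟩ := exists_rec (M := I) (X := I)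
    (fun i f y => y ∈ H ∧ i < y ∧ (∀ j hj, f j hj < y) ∧
      ∀ t : Finset (Iio i), τ (t.image fun j => f j.1 j.2) < y) (by
    intro i f
    let S : Set I := (Set.range fun j : Iio i => f j.1 j.2) ∪
      (Set.range fun t : Finset (Iio i) => τ (t.image fun j => f j.1 j.2))
    have hi : #(Iio i) < #I := mk_Iio_lt i hW
    have hS : #S < #I := by
      refine (mk_union_le _ _).trans_lt (add_lt_of_lt hinf (mk_range_le.trans_lt hi)
        (mk_range_le.trans_lt ?_))
      rcases finite_or_infinite (Iio i) with hfin | hinf'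
      · have : Finite (Finset (Iio i)) := inferInstance
        exact (Cardinal.mk_lt_aleph0).trans_le hinf
      · rw [mk_finset_of_infinite]
        exact hi
    obtain ⟨b, hb⟩ := hreg S hS
    obtain ⟨y, hy, hby⟩ := hH (max b i)
    refine ⟨y, hy, (le_max_right _ _).trans_lt hby, fun j hj => ?_, fun t => ?_⟩
    · exact (hb _ (Or.inl ⟨⟨j, hj⟩, rfl⟩)).trans ((le_max_left _ _).trans_lt hby)
    · exact (hb _ (Or.inr ⟨t, rfl⟩)).trans ((le_max_left _ _).trans_lt hby))
  have hzm : StrictMono z := fun i j hij => (hz j).2.2.1 i hij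
  refine ⟨Set.range z, ?_, fun b => ⟨z b, ⟨b, rfl⟩, (hz b).2.1⟩, ?_⟩
  · rintro _ ⟨i, rfl⟩
    exact (hz i).1
  · rintro _ ⟨i, rfl⟩ s hs hlt
    have h1 : ∀ y ∈ s, ∃ j : Iio i, z j.1 = y := by
      intro y hy
      obtain ⟨j, rfl⟩ := hs hy
      exact ⟨⟨j, hzm.lt_iff_lt.1 (hlt _ hy)⟩, rfl⟩
    have h2 : ∃ t : Finset (Iio i), t.image (fun j => z j.1) = s := by
      refine ⟨(s.preimage (fun j : Iio i => z j.1) (fun a _ b _ hab =>
        Subtype.ext (hzm.injective hab))), ?_⟩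
      ext y
      rw [Finset.mem_image]
      constructor
      · rintro ⟨j, hj, rfl⟩
        exact (Finset.mem_preimage (f := fun j : Iio i => z j.1)).1 hj
      · intro hy
        obtain ⟨j, rfl⟩ := h1 y hy
        exact ⟨j, (Finset.mem_preimage (f := fun j : Iio i => z j.1)).2 hy, rfl⟩
    obtain ⟨t, ht⟩ := h2
    have := (hz i).2.2.2 t
    rwa [ht] at this

/-- the partition relation for finite sets -/
theorem ramsey (hW : (#I).ord = typeLT I) (hcof : Order.cof I = #I) (hinf : ℵ₀ ≤ #I)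
    (hreg : ∀ S : Set I, #S < #I → ∃ b, ∀ x ∈ S, x < b)
    (hR : ∀ f : I → I → Bool, ∃ H : Set I, Unb H ∧ ∃ c, ∀ x ∈ H, ∀ y ∈ H, x < y → f x y = c)
    (n : ℕ) : ∀ (H : Set I), Unb H → ∀ f : Finset I → Bool,
      ∃ H' ⊆ H, Unb H' ∧ ∃ c, ∀ s : Finset I, ↑s ⊆ H' → s.card = n → f s = c := by
  classical
  induction n with
  | zero =>
    intro H hH f
    exact ⟨H, subset_rfl, hH, f ∅, fun s _ hs => by rw [Finset.card_eq_zero.1 hs]⟩
  | succ n ih =>
    intro H hH f
    have hI : Infinite I := Cardinal.infinite_iff.2 hinf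
    obtain ⟨e⟩ : Nonempty (I ≃ Finset I) := Cardinal.eq.1 (mk_finset_of_infinite I).symm
    obtain ⟨H1, hH1H, hH1, hlim⟩ := exists_lim hW hcof hreg hR hH
      fun p x => f (insert x (e p))
    have hlim' : ∀ s : Finset I, ∃ c τ, ∀ x ∈ H1, τ < x → f (insert x s) = c := by
      intro s
      obtain ⟨c, τ, h⟩ := hlim (e.symm s)
      refine ⟨c, τ, fun x hx hτ => ?_⟩
      have := h x hx hτ
      rwa [e.apply_symm_apply] at this
    choose g τ hg using hlim'
    obtain ⟨Z, hZH, hZ, hdiag⟩ := exists_diag hW hinf hreg hH1 τ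
    obtain ⟨H', hH'Z, hH', c, hc⟩ := ih Z hZ g
    refine ⟨H', hH'Z.trans (hZH.trans hH1H), hH', c, fun s hs hcard => ?_⟩
    have hne : s.Nonempty := Finset.card_pos.1 (by omega)
    set x := s.max' hne with hx
    have hxs : x ∈ s := s.max'_mem hne
    have h1 : (s.erase x).card = n := by rw [Finset.card_erase_of_mem hxs, hcard]; rfl
    have h2 : (↑(s.erase x) : Set I) ⊆ H' := fun y hy => hs (Finset.mem_of_mem_erase hy)
    have h3 : ∀ y ∈ s.erase x, y < x := fun y hy =>
      lt_of_le_of_ne (s.le_max' y (Finset.mem_of_mem_erase hy)) (Finset.ne_of_mem_erase hy)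
    have h4 := hdiag x (hH'Z (hs hxs)) (s.erase x) (h2.trans hH'Z) h3
    have h5 := hg (s.erase x) x (hZH (hH'Z (hs hxs))) h4
    rw [Finset.insert_erase hxs] at h5
    rw [h5]
    exact hc _ h2 h1

/-- the partition relation for increasing tuples -/
theorem ramsey_tuple (hW : (#I).ord = typeLT I) (hcof : Order.cof I = #I) (hinf : ℵ₀ ≤ #I)
    (hreg : ∀ S : Set I, #S < #I → ∃ b, ∀ x ∈ S, x < b)
    (hR : ∀ f : I → I → Bool, ∃ H : Set I, Unb H ∧ ∃ c, ∀ x ∈ H, ∀ y ∈ H, x < y → f x y = c)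
    (n : ℕ) (P : (Fin n → I) → Prop) (H : Set I) (hH : Unb H) :
    ∃ H' ⊆ H, Unb H' ∧ ((∀ φ : Fin n → I, StrictMono φ → (∀ k, φ k ∈ H') → P φ) ∨
      (∀ φ : Fin n → I, StrictMono φ → (∀ k, φ k ∈ H') → ¬ P φ)) := by
  classical
  obtain ⟨H', hH'H, hH', c, hc⟩ := ramsey hW hcof hinf hreg hR n H hH fun s =>
    if h : s.card = n then decide (P (s.orderEmbOfFin h)) else false
  have key : ∀ φ : Fin n → I, StrictMono φ → (∀ k, φ k ∈ H') → decide (P φ) = c := by
    intro φ hφ hφH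
    have h1 : (Finset.univ.map ⟨φ, hφ.injective⟩).card = n := by simp
    have h2 := hc (Finset.univ.map ⟨φ, hφ.injective⟩) (by
      intro x hx
      simp only [Finset.coe_map, Function.Embedding.coeFn_mk, Finset.coe_univ, image_univ,
        mem_range] at hx
      obtain ⟨k, rfl⟩ := hx
      exact hφH k) h1
    rw [dif_pos h1] at h2
    rwa [← Finset.orderEmbOfFin_unique h1 (f := φ) (by simp) hφ] at h2
  refine ⟨H', hH'H, hH', ?_⟩
  cases c with
  | true => exact Or.inl fun φ h1 h2 => of_decide_eq_true (key φ h1 h2)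
  | false => exact Or.inr fun φ h1 h2 => of_decide_eq_false (key φ h1 h2)

/-- a strictly increasing tuple -/
theorem strictMono_three {a b c : I} (h1 : a < b) (h2 : b < c) : StrictMono ![a, b, c] := by
  intro i j hij
  fin_cases i <;> fin_cases j <;> simp_all
  exact h1.trans h2

theorem strictMono_four {a b c d : I} (h1 : a < b) (h2 : b < c) (h3 : c < d) :
    StrictMono ![a, b, c, d] := by
  have h4 := h1.trans h2
  have h5 := h2.trans h3
  have h6 := h4.trans h3
  intro i j hij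
  fin_cases i <;> fin_cases j <;> simp_all

theorem mem_three {a b c : I} {H : Set I} (h1 : a ∈ H) (h2 : b ∈ H) (h3 : c ∈ H) :
    ∀ k, ![a, b, c] k ∈ H := by
  intro k
  fin_cases k <;> simp_all

theorem mem_four {a b c d : I} {H : Set I} (h1 : a ∈ H) (h2 : b ∈ H) (h3 : c ∈ H) (h4 : d ∈ H) :
    ∀ k, ![a, b, c, d] k ∈ H := by
  intro k
  fin_cases k <;> simp_all

/-- If `μ → (μ)²₂` then the relation holds for the regular cardinal `μ`. -/
theorem rectO_of_pair (hW : (#I).ord = typeLT I) (hcof : Order.cof I = #I) (hinf : ℵ₀ ≤ #I)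
    (hreg : ∀ S : Set I, #S < #I → ∃ b, ∀ x ∈ S, x < b)
    (hR : ∀ f : I → I → Bool, ∃ H : Set I, Unb H ∧ ∃ c, ∀ x ∈ H, ∀ y ∈ H, x < y → f x y = c) :
    RectO I := by
  classical
  intro G hG
  have hunivU : Unb (Set.univ : Set I) := by
    have := unb_of_card hW hinf (H := (Set.univ : Set I)) mk_univ
    exact this
  obtain ⟨H1, _, hH1, h1⟩ := ramsey_tuple hW hcof hinf hreg hR 4
    (fun φ => G (φ 0, φ 1) (φ 2, φ 3)) Set.univ hunivU
  obtain ⟨H2, hH21, hH2, h2⟩ := ramsey_tuple hW hcof hinf hreg hR 4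
    (fun φ => G (φ 0, φ 2) (φ 1, φ 3)) H1 hH1
  obtain ⟨H3, hH32, hH3, h3⟩ := ramsey_tuple hW hcof hinf hreg hR 4
    (fun φ => G (φ 0, φ 3) (φ 1, φ 2)) H2 hH2
  obtain ⟨H4, hH43, hH4, h4⟩ := ramsey_tuple hW hcof hinf hreg hR 3
    (fun φ => G (φ 0, φ 1) (φ 0, φ 2)) H3 hH3
  -- six elements
  have hnext : ∀ b, ∃ x ∈ H4, b < x := hH4
  have hne : Nonempty I := by
    rw [← mk_ne_zero_iff]
    exact (aleph0_pos.trans_le hinf).ne'
  obtain ⟨x0, hx0, _⟩ := hnext (Classical.arbitrary I)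
  obtain ⟨x1, hx1, h01⟩ := hnext x0
  obtain ⟨x2, hx2, h12⟩ := hnext x1
  obtain ⟨x3, hx3, h23⟩ := hnext x2
  obtain ⟨x4, hx4, h34⟩ := hnext x3
  obtain ⟨x5, hx5, h45⟩ := hnext x4
  have hH42 : H4 ⊆ H2 := hH43.trans hH32
  have hH41 : H4 ⊆ H1 := hH42.trans hH21
  have k1 : ∀ a b c d, a ∈ H4 → b ∈ H4 → c ∈ H4 → d ∈ H4 → a < b → b < c → c < d →
      ¬ G (a, b) (c, d) := by
    rcases h1 with h1 | h1
    · exfalso
      have e1 := h1 _ (strictMono_four h01 h12 h23)
        (mem_four (hH41 hx0) (hH41 hx1) (hH41 hx2) (hH41 hx3))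
      have e2 := h1 _ (strictMono_four h23 h34 h45)
        (mem_four (hH41 hx2) (hH41 hx3) (hH41 hx4) (hH41 hx5))
      have e3 := h1 _ (strictMono_four h01 (h12.trans (h23.trans h34)) h45)
        (mem_four (hH41 hx0) (hH41 hx1) (hH41 hx4) (hH41 hx5))
      exact hG.tri _ _ _ e1 e2 e3
    · intro a b c d ha hb hc hd hab hbc hcd
      exact h1 _ (strictMono_four hab hbc hcd)
        (mem_four (hH41 ha) (hH41 hb) (hH41 hc) (hH41 hd))
  have k2 : ∀ a b c d, a ∈ H4 → b ∈ H4 → c ∈ H4 → d ∈ H4 → a < b → b < c → c < d →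
      ¬ G (a, c) (b, d) := by
    rcases h2 with h2 | h2
    · exfalso
      have e1 := h2 _ (strictMono_four h01 (h12.trans h23) h34)
        (mem_four (hH42 hx0) (hH42 hx1) (hH42 hx3) (hH42 hx4))
      have e2 := h2 _ (strictMono_four h12 (h23.trans h34) h45)
        (mem_four (hH42 hx1) (hH42 hx2) (hH42 hx4) (hH42 hx5))
      have e3 := h2 _ (strictMono_four (h01.trans h12) h23 (h34.trans h45))
        (mem_four (hH42 hx0) (hH42 hx2) (hH42 hx3) (hH42 hx5))
      exact hG.tri _ _ _ e1 e2 e3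
    · intro a b c d ha hb hc hd hab hbc hcd
      exact h2 _ (strictMono_four hab hbc hcd)
        (mem_four (hH42 ha) (hH42 hb) (hH42 hc) (hH42 hd))
  have k3 : ∀ a b c d, a ∈ H4 → b ∈ H4 → c ∈ H4 → d ∈ H4 → a < b → b < c → c < d →
      ¬ G (a, d) (b, c) := by
    rcases h3 with h3 | h3
    · exfalso
      have e1 := h3 _ (strictMono_four h01 (h12.trans (h23.trans h34)) h45)
        (mem_four (hH43 hx0) (hH43 hx1) (hH43 hx4) (hH43 hx5))
      have e2 := h3 _ (strictMono_four h12 h23 h34)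
        (mem_four (hH43 hx1) (hH43 hx2) (hH43 hx3) (hH43 hx4))
      have e3 := h3 _ (strictMono_four (h01.trans h12) h23 (h34.trans h45))
        (mem_four (hH43 hx0) (hH43 hx2) (hH43 hx3) (hH43 hx5))
      exact hG.tri _ _ _ e1 e2 e3
    · intro a b c d ha hb hc hd hab hbc hcd
      exact h3 _ (strictMono_four hab hbc hcd)
        (mem_four (hH43 ha) (hH43 hb) (hH43 hc) (hH43 hd))
  have k4 : ∀ a b c, a ∈ H4 → b ∈ H4 → c ∈ H4 → a < b → b < c → ¬ G (a, b) (a, c) := by
    rcases h4 with h4 | h4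
    · exfalso
      have e1 := h4 _ (strictMono_three h01 h12) (mem_three hx0 hx1 hx2)
      have e2 := h4 _ (strictMono_three (h01.trans h12) h23) (mem_three hx0 hx2 hx3)
      have e3 := h4 _ (strictMono_three h01 (h12.trans h23)) (mem_three hx0 hx1 hx3)
      exact hG.tri _ _ _ e1 e2 e3
    · intro a b c ha hb hc hab hbc
      exact h4 _ (strictMono_three hab hbc) (mem_three ha hb hc)
  -- the partition of the homogeneous set
  obtain ⟨en, hen, henH⟩ := exists_strictMono hW (card_of_unb hcof hH4)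
  obtain ⟨pr⟩ : Nonempty (Option I × I ↪ I) := by
    rw [← Cardinal.le_def, mk_prod, Cardinal.lift_id, Cardinal.lift_id, mk_option,
      add_one_eq hinf]
    exact (mul_eq_self hinf).le
  have hrow : ∀ t : Option I, Unb (Set.range fun y => en (pr (t, y))) := by
    intro t b
    have h1 : #(Set.range fun y => pr (t, y)) = #I :=
      mk_range_eq _ fun y y' h => (Prod.ext_iff.1 (pr.injective h)).2
    obtain ⟨x, ⟨y, rfl⟩, hx⟩ := unb_of_card hW hinf h1 b
    exact ⟨_, ⟨y, rfl⟩, hx.trans_le (hen.id_le _)⟩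
  have hinj : ∀ p q, en (pr p) = en (pr q) → p = q := fun p q h => pr.injective (hen.injective h)
  refine ⟨Set.range fun y => en (pr (none, y)), hrow none,
    fun a => {b | a < b ∧ ∃ y z, a = en (pr (none, y)) ∧ b = en (pr (some y, z))}, ?_, ?_⟩
  · rintro _ ⟨y, rfl⟩ b
    obtain ⟨_, ⟨z, rfl⟩, hz⟩ := hrow (some y) (max b (en (pr (none, y))))
    exact ⟨_, ⟨(le_max_right _ _).trans_lt hz, y, z, rfl, rfl⟩, (le_max_left _ _).trans_lt hz⟩
  · -- a symmetric case distinction
    have hmain : ∀ y z y' z', en (pr (none, y)) < en (pr (some y, z)) →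
        en (pr (none, y')) < en (pr (some y', z')) → en (pr (none, y)) < en (pr (none, y')) →
        ¬ G (en (pr (none, y)), en (pr (some y, z))) (en (pr (none, y')), en (pr (some y', z'))) := by
      intro y z y' z' h1 h2 h3
      have hne1 : en (pr (some y, z)) ≠ en (pr (none, y')) := fun h => by
        have := (Prod.ext_iff.1 (hinj _ _ h)).1
        simp at this
      have hyy' : y ≠ y' := fun h => by
        subst h
        exact lt_irrefl _ h3
      have hne2 : en (pr (some y, z)) ≠ en (pr (some y', z')) := fun h => by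
        have := (Prod.ext_iff.1 (hinj _ _ h)).1
        exact hyy' (Option.some_injective _ this)
      rcases lt_or_gt_of_ne hne1 with h4 | h4
      · exact k1 _ _ _ _ (henH _) (henH _) (henH _) (henH _) h1 h4 h2
      · rcases lt_or_gt_of_ne hne2 with h5 | h5
        · exact k2 _ _ _ _ (henH _) (henH _) (henH _) (henH _) h3 h4 h5
        · exact k3 _ _ _ _ (henH _) (henH _) (henH _) (henH _) h3 h2 h5
    rintro a _ b ⟨hab, y, z, rfl, rfl⟩ a' _ b' ⟨hab', y', z', rfl, rfl⟩ hGab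
    rcases lt_trichotomy (en (pr (none, y))) (en (pr (none, y'))) with h1 | h1 | h1
    · exact hmain y z y' z' hab hab' h1 hGab
    · have hyy' : y = y' := (Prod.ext_iff.1 (hinj _ _ h1)).2
      subst hyy'
      rcases lt_trichotomy (en (pr (some y, z))) (en (pr (some y, z'))) with h2 | h2 | h2
      · exact k4 _ _ _ (henH _) (henH _) (henH _) hab h2 hGab
      · rw [h2] at hGab
        exact hG.tri _ _ _ hGab hGab hGab
      · exact k4 _ _ _ (henH _) (henH _) (henH _) hab' h2 (hG.symm _ _ hGab)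
    · exact hmain y' z' y z hab' hab h1 (hG.symm _ _ hGab)

/-! ### Ramsey's theorem for pairs -/

theorem ramsey_omega (hfin : ∀ x : I, (Iic x).Finite) [Infinite I] (f : I → I → Bool) :
    ∃ z : I → I, StrictMono z ∧ ∃ c, ∀ i j, i < j → f (z i) (z j) = c := by
  classical
  let U := hyperfilter I
  have h1 : ∀ x, ∃ c, {y | f x y = c} ∈ U := by
    intro x
    by_cases h : {y | f x y = true} ∈ U
    · exact ⟨true, h⟩
    · refine ⟨false, ?_⟩
      have := Ultrafilter.compl_mem_iff_notMem.2 h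
      convert this using 1
      ext y
      simp
  choose g hg using h1
  have h2 : ∃ c, {x | g x = c} ∈ U := by
    by_cases h : {y | g y = true} ∈ U
    · exact ⟨true, h⟩
    · refine ⟨false, ?_⟩
      have := Ultrafilter.compl_mem_iff_notMem.2 h
      convert this using 1
      ext y
      simp
  obtain ⟨c, hc⟩ := h2
  obtain ⟨z, hz⟩ := exists_rec (M := I) (X := I)
    (fun i f' y => g y = c ∧ ∀ j hj, f' j hj < y ∧ f (f' j hj) y = g (f' j hj)) (by
    intro i f'
    have hi : (Iio i).Finite := (hfin i).subset Iio_subset_Iic_self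
    have : Finite (Iio i) := hi
    have hmem : {y | g y = c} ∩ ⋂ j : Iio i, ({y | f (f' j.1 j.2) y = g (f' j.1 j.2)} ∩
        (Iic (f' j.1 j.2))ᶜ) ∈ U := by
      refine Filter.inter_mem hc (Filter.iInter_mem.2 fun j => Filter.inter_mem (hg _) ?_)
      exact (hfin _).compl_mem_hyperfilter
    obtain ⟨y, hy1, hy2⟩ := Ultrafilter.nonempty_of_mem hmem
    rw [Set.mem_iInter] at hy2
    exact ⟨y, hy1, fun j hj => ⟨not_le.1 (hy2 ⟨j, hj⟩).2, (hy2 ⟨j, hj⟩).1⟩⟩)
  refine ⟨z, fun i j hij => ((hz j).2 i hij).1, c, fun i j hij => ?_⟩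
  rw [((hz j).2 i hij).2]
  exact (hz i).1

end

end Pool.Agent.H650R2.Sq
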