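import Mathlib
import Pool.Agent.H650R2.SqCanon
import Pool.Agent.H650R2.SqReg
import Pool.Agent.H650R2.SqInacc

set_option autoImplicit false

/-!
# The characterization of all `λ` with `λ² → (λ², 3)²`
-/

namespace Pool.Agent.H650R2.Sq

open Cardinal Ordinal Set

universe u

/-- The relation passes from the cofinality to a singular strong limit cardinal. -/
theorem rect_of_cof {lam : Cardinal.{u}} (hinf : ℵ₀ ≤ lam) (hsing : lam.ord.cof < lam)
    (hlim : ∀ c < lam, (2 : Cardinal.{u}) ^ c < lam) (hR : Rect lam.ord.cof) : Rect lam := by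
  intro W hW G hG
  obtain ⟨e⟩ : Nonempty (lam.ord.ToType ≃ W) := Cardinal.eq.1 (by rw [hW]; simp)
  have hG' : TF (fun p q : lam.ord.ToType × lam.ord.ToType => G (e p.1, e p.2) (e q.1, e q.2)) :=
    ⟨fun p q hpq => hG.symm _ _ hpq, fun p q r h1 h2 h3 => hG.tri _ _ _ h1 h2 h3⟩
  have hc : #(lam.ord.ToType) = lam := by simp
  obtain ⟨ρ, A, K, s, h1, h2, h3, h4, h5, h6, h7, h8, h9, h10⟩ := canon hinf hsing hlim hc hG'
  obtain ⟨A', hA', Hs, hHs, hind⟩ := assemble hinf hR hc hG' ρ h1 A K h2 h3 h4 h5 h6 s h7 h8 h9 h10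
  refine ⟨e '' A', ?_, fun w => e '' (Hs (e.symm w)), ?_, ?_⟩
  · rw [mk_image_eq e.injective, hA']
  · rintro _ ⟨a, ha, rfl⟩
    show #(e '' (Hs (e.symm (e a)))) = lam
    rw [e.symm_apply_apply, mk_image_eq e.injective, hHs a ha]
  · rintro _ ⟨a, ha, rfl⟩ b hb _ ⟨a', ha', rfl⟩ b' hb' hGab
    change b ∈ e '' (Hs (e.symm (e a))) at hb
    change b' ∈ e '' (Hs (e.symm (e a'))) at hb'
    rw [e.symm_apply_apply] at hb hb'
    obtain ⟨b, hb, rfl⟩ := hb
    obtain ⟨b', hb', rfl⟩ := hb'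
    exact hind a ha b hb a' ha' b' hb' hGab

/-- Ramsey's theorem for pairs. -/
theorem arrow_aleph0 : Arrow (ℵ₀ : Cardinal.{u}).ord (ℵ₀ : Cardinal.{u}).ord
    (ℵ₀ : Cardinal.{u}).ord := by
  intro f
  obtain ⟨hI1, hI2, hI3, hI4⟩ := reg_facts isRegular_aleph0.{u}
  have hIc : #(ℵ₀ : Cardinal.{u}).ord.ToType = ℵ₀ := mk_ord_toType _
  have : Infinite (ℵ₀ : Cardinal.{u}).ord.ToType := Cardinal.infinite_iff.2 hI1
  obtain ⟨z, hz, c, hc⟩ := ramsey_omega (I := (ℵ₀ : Cardinal.{u}).ord.ToType) (fun x => by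
    have := mk_Iic_lt hI2 hI1 x
    rw [hIc] at this
    exact Cardinal.lt_aleph0_iff_set_finite.1 this) f
  have htype : typeLT (Set.range z) = (ℵ₀ : Cardinal.{u}).ord := by
    rw [type_range hz, type_toType]
  have hpair : ∀ x ∈ Set.range z, ∀ y ∈ Set.range z, x < y → f x y = c := by
    rintro _ ⟨i, rfl⟩ _ ⟨j, rfl⟩ hij
    exact hc i j (hz.lt_iff_lt.1 hij)
  cases c with
  | false => exact Or.inl ⟨_, htype, hpair⟩
  | true => exact Or.inr ⟨_, htype, hpair⟩

/-- ZFC: `μ → (μ)²₂` implies the relation for the regular cardinal `μ`. -/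
theorem rect_of_arrow {μ : Cardinal.{u}} (hμ : μ.IsRegular) (h : Arrow μ.ord μ.ord μ.ord) :
    Rect μ := by
  obtain ⟨hI1, hI2, hI3, hI4⟩ := reg_facts hμ
  have hIc : #μ.ord.ToType = μ := mk_ord_toType _
  refine rect_of_rectO hμ (rectO_of_pair hI2 hI3 hI1 hI4 fun f => ?_)
  have hunb : ∀ H : Set μ.ord.ToType, typeLT H = μ.ord → Unb H := by
    intro H hH
    refine unb_of_card hI2 hI1 ?_
    have h1 := congrArg Ordinal.card hH
    rw [card_type, card_ord] at h1
    exact h1.trans hIc.symm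
  rcases h f with ⟨H, hH, hf⟩ | ⟨H, hH, hf⟩
  · exact ⟨H, hunb H hH, false, hf⟩
  · exact ⟨H, hunb H hH, true, hf⟩

/-- The characterization. -/
theorem main (gch : ∀ κ : Cardinal.{u}, ℵ₀ ≤ κ → (2 : Cardinal.{u}) ^ κ = Order.succ κ)
    (lam : Cardinal.{u}) (hlam : ℵ₀ ≤ lam)
    (hA : lam.ord.cof.IsInaccessible →
      ¬ Arrow lam.ord.cof.ord lam.ord.cof.ord lam.ord.cof.ord → NonreflectingDiamond lam.ord.cof) :
    Arrow (lam.ord * lam.ord) (lam.ord * lam.ord) 3 ↔
      Arrow lam.ord.cof.ord lam.ord.cof.ord lam.ord.cof.ord := by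
  have hreg : lam.ord.cof.IsRegular := isRegular_cof (isSuccLimit_ord hlam)
  have hstrong : ∀ κ : Cardinal.{u}, ℵ₀ ≤ κ → (∀ c < κ, Order.succ c < κ) →
      ∀ c < κ, (2 : Cardinal.{u}) ^ c < κ := by
    intro κ hκ hsucc c hc
    rcases lt_or_ge c ℵ₀ with h | h
    · exact (Cardinal.power_lt_aleph0 (natCast_lt_aleph0 (n := 2)) h).trans_le hκ
    · rw [gch c h]
      exact hsucc c hc
  constructor
  · intro h
    have hO := rectO_of_arrow hlam h
    by_contra hno
    rcases hreg.aleph0_le.lt_or_eq with hunc | hcount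
    · by_cases hsucc : ∀ c < lam.ord.cof, Order.succ c < lam.ord.cof
      · -- a limit cardinal
        have hinac : lam.ord.cof.IsInaccessible := by
          rw [isInaccessible_def]
          refine ⟨hunc, hreg, ?_⟩
          refine ⟨hreg.ne_zero, fun c hc => ?_⟩
          exact hstrong _ hreg.aleph0_le hsucc c hc
        exact not_rectO_of_diamond hreg hunc (hA hinac hno) hO
      · -- a successor cardinal
        push Not at hsucc
        obtain ⟨c, hc, hc'⟩ := hsucc
        have heq : lam.ord.cof = Order.succ c := le_antisymm hc' (Order.succ_le_of_lt hc)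
        have hcinf : ℵ₀ ≤ c := by
          rw [heq] at hunc
          exact Order.lt_succ_iff.1 hunc
        rw [heq] at hO
        exact not_rectO_succ hcinf (gch c hcinf) hO
    · apply hno
      rw [← hcount]
      exact arrow_aleph0
  · intro h
    have hR := rect_of_arrow hreg h
    rcases (cof_ord_le lam).lt_or_eq with hsing | heq
    · refine arrow_of_rect (rect_of_cof hlam hsing (hstrong lam hlam fun c hc => ?_) hR)
      have hs : lam.IsSingular := IsSingular.of_not_isRegular hlam fun hr => by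
        rw [hr.cof_ord] at hsing
        exact lt_irrefl _ hsing
      exact hs.isSuccLimit.succ_lt hc
    · rw [heq] at hR
      exact arrow_of_rect hR

end Pool.Agent.H650R2.Sq
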